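import Mathlib
import Pool.Agent.Y126.Glue

/-!
# The trace form on the Lie algebra of the Tate forms is nondegenerate
-/

set_option autoImplicit false
set_option linter.unusedSectionVars false

namespace Pool.Agent.H62CT

open Module Pool.Agent.H204R3.SP Pool.Agent.H204R3.GP Pool.Agent.W522.U Pool.Agent.TH118.CR

variable {K : Type} [Field K] [CharZero K] {X : Type} [AddCommGroup X] [Module K X]
  [FiniteDimensional K X]

/-- A form killed by `x` vanishes on generalized eigenvectors if the sum of the eigenvalues is not
zero. -/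
theorem kills_gen {κ : Type} [Fintype κ] [DecidableEq κ] (x : End K X)
    (φ : MultilinearMap K (fun _ : κ => X) K) (hx : Kills x φ) (μ : κ → K) (hμ : ∑ k, μ k ≠ 0) :
    ∀ (N : ℕ) (n : κ → ℕ), ∑ k, n k = N → ∀ v : κ → X,
      (∀ k, ((x - algebraMap K (End K X) (μ k)) ^ (n k)) (v k) = 0) → φ v = 0 := by
  intro N
  induction N using Nat.strong_induction_on with
  | _ N ih =>
    intro n hn v hv
    by_cases h0 : ∃ k, n k = 0
    · obtain ⟨k, hk⟩ := h0
      have h1 := hv k
      rw [hk, pow_zero, Module.End.one_apply] at h1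
      exact φ.map_coord_zero k h1
    · push Not at h0
      have h1 := hx v
      have h2 : ∀ k, φ (Function.update v k (x (v k))) = μ k * φ v := by
        intro k
        have h3 : x (v k) = (x - algebraMap K (End K X) (μ k)) (v k) + μ k • v k := by
          rw [LinearMap.sub_apply, Module.algebraMap_end_apply, sub_add_cancel]
        have h4 : φ (Function.update v k ((x - algebraMap K (End K X) (μ k)) (v k))) = 0 := by
          have hk := Nat.pos_of_ne_zero (h0 k)
          have hle : n k ≤ ∑ l, n l := Finset.single_le_sum (fun _ _ => Nat.zero_le _)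
            (Finset.mem_univ k)
          refine ih (N - 1) (by omega) (Function.update n k (n k - 1)) ?_ _ ?_
          · rw [Finset.sum_update_of_mem (Finset.mem_univ k)]
            have h5 := Finset.sum_sdiff (Finset.subset_univ {k}) (f := n)
            rw [Finset.sum_singleton] at h5
            omega
          · intro l
            by_cases hl : l = k
            · subst hl
              rw [Function.update_self, Function.update_self, ← Module.End.mul_apply,
                ← pow_succ, Nat.sub_add_cancel hk]
              exact hv l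
            · rw [Function.update_of_ne hl, Function.update_of_ne hl]
              exact hv l
        rw [h3, MultilinearMap.map_update_add, MultilinearMap.map_update_smul,
          Function.update_eq_self, smul_eq_mul, h4, zero_add]
      rw [Finset.sum_congr rfl (fun k _ => h2 k), ← Finset.sum_mul] at h1
      exact (mul_eq_zero.1 h1).resolve_left hμ

/-- The Jordan decomposition with a basis of eigenvectors. -/
theorem exists_jordan [IsAlgClosed K] (x : End K X) :
    ∃ (ι : Type) (_ : Fintype ι) (_ : DecidableEq ι) (b : Basis ι K X) (μ : ι → K) (n : End K X),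
      IsNilpotent n ∧ x = n + dg b μ ∧ Commute n (dg b μ) := by
  classical
  obtain ⟨n, hn_adj, s, hns, hn_nil, hs_ss, hX_ns⟩ := x.exists_isNilpotent_isSemisimple
  replace hns : Commute n s :=
    Algebra.commute_of_mem_adjoin_singleton_of_commute hns
      (Algebra.commute_of_mem_adjoin_self hn_adj).symm
  have hint := DirectSum.isInternal_submodule_of_iSupIndep_of_iSup_eq_top
    s.eigenspaces_iSupIndep hs_ss.iSup_eigenspace_eq_top
  let b : Basis _ K X := hint.collectedBasis fun μ => finBasis K (s.eigenspace μ)
  have hs : s = dg b Sigma.fst := b.ext fun i => by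
    rw [dg_basis]
    exact Module.End.mem_eigenspace_iff.mp (hint.collectedBasis_mem _ i)
  refine ⟨_, FiniteDimensional.fintypeBasisIndex b, Classical.decEq _, b, Sigma.fst, n, hn_nil, ?_,
    ?_⟩
  · rw [← hs]
    exact hX_ns
  · rw [← hs]
    exact hns

section jordan

variable {ι : Type} [Fintype ι] [DecidableEq ι] (b : Basis ι K X) (μ : ι → K) {n : End K X}
  (hc : Commute n (dg b μ))

theorem dg_mul (s t : ι → K) : dg b s * dg b t = dg b (fun i => s i * t i) := by
  refine b.ext fun i => ?_
  rw [Module.End.mul_apply, dg_basis, map_smul, dg_basis, dg_basis, smul_smul, mul_comm]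

theorem dg_repr (s : ι → K) (v : X) (i : ι) : b.repr (dg b s v) i = s i * b.repr v i := by
  conv_lhs => rw [← b.sum_repr v]
  rw [map_sum]
  have h1 : ∀ j, dg b s (b.repr v j • b j) = (b.repr v j * s j) • b j := fun j => by
    rw [map_smul, dg_basis, smul_smul]
  rw [Finset.sum_congr rfl (fun j _ => h1 j), Basis.repr_sum_self, mul_comm]

include hc in
theorem commute_dg (f : K → K) : Commute n (dg b (fun i => f (μ i))) := by
  refine b.ext fun i => ?_
  rw [Module.End.mul_apply, Module.End.mul_apply, dg_basis, map_smul]
  have h1 : dg b μ (n (b i)) = μ i • n (b i) := by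
    have h2 := congrArg (fun T : End K X => T (b i)) hc.eq
    simp only [Module.End.mul_apply, dg_basis, map_smul] at h2
    exact h2.symm
  apply b.repr.injective
  ext j
  rw [map_smul, Finsupp.smul_apply, dg_repr, smul_eq_mul]
  have h2 := congrArg (fun v => b.repr v j) h1
  simp only [map_smul, Finsupp.smul_apply, dg_repr, smul_eq_mul] at h2
  by_cases h3 : b.repr (n (b i)) j = 0
  · rw [h3, mul_zero, mul_zero]
  · rw [mul_right_cancel₀ h3 h2]

theorem trace_dg (s : ι → K) : LinearMap.trace K X (dg b s) = ∑ i, s i := by
  rw [LinearMap.trace_eq_matrix_trace K b, Matrix.trace]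
  refine Finset.sum_congr rfl fun i _ => ?_
  rw [Matrix.diag_apply, LinearMap.toMatrix_apply, dg_basis, map_smul, Finsupp.smul_apply,
    b.repr_self, Finsupp.single_eq_same, smul_eq_mul, mul_one]

include hc in
theorem trace_mul_dg (hn : IsNilpotent n) (f : K → K) :
    LinearMap.trace K X ((n + dg b μ) * dg b (fun i => f (μ i))) = ∑ i, μ i * f (μ i) := by
  have h1 : LinearMap.trace K X (n * dg b (fun i => f (μ i))) = 0 :=
    (LinearMap.isNilpotent_trace_of_isNilpotent
      ((commute_dg b μ hc f).isNilpotent_mul_right hn)).eq_zero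
  rw [add_mul, map_add, h1, zero_add, dg_mul, trace_dg]

include hc in
theorem gen_pow (hn : IsNilpotent n) : ∃ N : ℕ, ∀ i,
    ((n + dg b μ - algebraMap K (End K X) (μ i)) ^ N) (b i) = 0 := by
  obtain ⟨N, hN⟩ := hn
  refine ⟨N, fun i => ?_⟩
  have key : ∀ r : ℕ, ((n + dg b μ - algebraMap K (End K X) (μ i)) ^ r) (b i) =
      (n ^ r) (b i) := by
    intro r
    induction r with
    | zero => rfl
    | succ r ih =>
      rw [pow_succ', Module.End.mul_apply, ih, pow_succ', Module.End.mul_apply,
        LinearMap.sub_apply, LinearMap.add_apply, Module.algebraMap_end_apply]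
      have h1 := congrArg (fun T : End K X => T (b i)) (hc.pow_left r).eq
      simp only [Module.End.mul_apply, dg_basis, map_smul] at h1
      rw [← h1, add_sub_cancel_right]
  rw [key, hN, LinearMap.zero_apply]

include hc in
/-- The replicas of an operator that kills a form kill it. -/
theorem kills_dg (hn : IsNilpotent n) (f : K →+ K)
    {κ : Type} [Fintype κ] [DecidableEq κ] (φ : MultilinearMap K (fun _ : κ => X) K)
    (hx : Kills (n + dg b μ) φ) : Kills (dg b (fun i => f (μ i))) φ := by
  obtain ⟨N, hN⟩ := gen_pow b μ hc hn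
  refine kills_of_basis b _ _ fun I => ?_
  have h1 : ∀ l : κ, φ (Function.update (fun l => b (I l)) l
      (dg b (fun i => f (μ i)) (b (I l)))) = f (μ (I l)) * φ (fun l => b (I l)) := by
    intro l
    rw [dg_basis, MultilinearMap.map_update_smul, smul_eq_mul, Function.update_eq_self]
  rw [Finset.sum_congr rfl fun l _ => h1 l, ← Finset.sum_mul, ← map_sum]
  by_cases h0 : ∑ l, μ (I l) = 0
  · rw [h0, map_zero, zero_mul]
  · rw [kills_gen _ φ hx (fun l => μ (I l)) h0 _ (fun _ => N) rfl _ (fun k => hN (I k)),
      mul_zero]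

end jordan

variable {Γ : Type} [Group Γ] {R : Representation K Γ X} {χ : Γ →* K}

/-- An element of the Lie algebra which is orthogonal to it for the trace form is nilpotent. -/
theorem nilpotent_of_orth [IsAlgClosed K] {x : End K X} (hx : x ∈ lieT R χ)
    (h0 : ∀ y ∈ lieT R χ, LinearMap.trace K X (x * y) = 0) : IsNilpotent x := by
  obtain ⟨ι, _, _, b, μ, n, hn, rfl, hc⟩ := exists_jordan x
  have h1 : ∀ f : K →+ K, ∑ i, μ i * f (μ i) = 0 := by
    intro f
    rw [← trace_mul_dg b μ hc hn f]
    exact h0 _ fun m φ hφ => kills_dg b μ hc hn f φ (hx m φ hφ)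
  have h2 : ∀ i, μ i = 0 := by
    intro i
    by_contra hi
    obtain ⟨g, hg⟩ : ∃ g : Dual ℚ K, g (μ i) ≠ 0 := by
      by_contra hcon
      push Not at hcon
      exact hi ((Module.forall_dual_apply_eq_zero_iff ℚ (μ i)).1 hcon)
    have h3 := h1 (((algebraMap ℚ K : ℚ →+* K) : ℚ →+ K).comp (g : K →ₗ[ℚ] ℚ).toAddMonoidHom)
    have h4 : ∑ j, g (μ j) • μ j = 0 := by
      rw [← h3]
      refine Finset.sum_congr rfl fun j _ => ?_
      rw [Algebra.smul_def, mul_comm]
      rfl
    have h5 : ∑ j, g (μ j) ^ 2 = 0 := by
      have h6 := congrArg g h4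
      rw [map_sum, map_zero] at h6
      rw [← h6]
      refine Finset.sum_congr rfl fun j _ => ?_
      rw [map_smul, smul_eq_mul, sq]
    exact hg (pow_eq_zero_iff two_ne_zero |>.1
      ((Finset.sum_eq_zero_iff_of_nonneg fun _ _ => sq_nonneg _).1 h5 i (Finset.mem_univ i)))
  have h3 : dg b μ = 0 := b.ext fun i => by rw [dg_basis, h2, zero_smul, LinearMap.zero_apply]
  rw [h3, add_zero]
  exact hn

end Pool.Agent.H62CT
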