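import Mathlib
import Pool.Agent.H62CT.Rep

/-!
# The trace form on the Lie algebra of the Tate forms is nondegenerate
-/

set_option autoImplicit false
set_option linter.unusedSectionVars false

namespace Pool.Agent.H62CT

open Module Pool.Agent.H204R3.SP Pool.Agent.H204R3.GP Pool.Agent.W522.U Pool.Agent.TH118.CR

attribute [local instance 100] LieRing.ofAssociativeRing

variable {K : Type} [Field K] [CharZero K] {X : Type} [AddCommGroup X] [Module K X]
  [FiniteDimensional K X] {Γ : Type} [Group Γ] (R : Representation K Γ X) (χ : Γ →* K)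

theorem trace_cyc (x y z : End K X) :
    LinearMap.trace K X ((x * y - y * x) * z) = LinearMap.trace K X (x * (y * z - z * y)) := by
  rw [sub_mul, mul_sub, map_sub, map_sub, mul_assoc, mul_assoc,
    LinearMap.trace_mul_comm K y (x * z), mul_assoc]

/-- The radical of the trace form on the Lie algebra. -/
def radL : LieSubalgebra K (End K X) where
  carrier := {x | x ∈ lieT R χ ∧ ∀ y ∈ lieT R χ, LinearMap.trace K X (x * y) = 0}
  add_mem' := by
    rintro x y ⟨hx, hx'⟩ ⟨hy, hy'⟩
    exact ⟨Submodule.add_mem _ hx hy, fun z hz => by rw [add_mul, map_add, hx' z hz, hy' z hz,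
      add_zero]⟩
  zero_mem' := ⟨Submodule.zero_mem _, fun z _ => by rw [zero_mul, map_zero]⟩
  smul_mem' := by
    rintro c x ⟨hx, hx'⟩
    exact ⟨Submodule.smul_mem _ _ hx, fun z hz => by
      rw [smul_mul_assoc, map_smul, hx' z hz, smul_zero]⟩
  lie_mem' := by
    rintro x y ⟨hx, hx'⟩ ⟨hy, hy'⟩
    refine ⟨lieT_bracket R χ hx hy, fun z hz => ?_⟩
    rw [LieRing.of_associative_ring_bracket, trace_cyc]
    exact hx' _ (lieT_bracket R χ hy hz)

theorem mem_radL {x : End K X} : x ∈ radL R χ ↔
    x ∈ lieT R χ ∧ ∀ y ∈ lieT R χ, LinearMap.trace K X (x * y) = 0 := Iff.rfl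

theorem radL_conj (g : Γ) {x : End K X} (hx : x ∈ radL R χ) : R g * x * R g⁻¹ ∈ radL R χ := by
  refine ⟨lieT_conj R χ g hx.1, fun y hy => ?_⟩
  have h1 := hx.2 _ (lieT_conj R χ g⁻¹ hy)
  rw [inv_inv] at h1
  rw [← h1, mul_assoc, mul_assoc, LinearMap.trace_mul_comm, mul_assoc, mul_assoc]

variable {R χ} (ω : X →ₗ[K] X →ₗ[K] K) (hnd : ∀ u, (∀ v, ω u v = 0) → u = 0)
  (hωR : ∀ g u v, ω (R g u) (R g v) = χ g * ω u v) (hss : HasProj R)

include hnd hωR hss in
/-- **The trace form is nondegenerate on the Lie algebra.** -/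
theorem radL_eq [IsAlgClosed K] {x : End K X} (hx : x ∈ radL R χ) : x = 0 := by
  -- the common kernel
  let U : Submodule K X :=
    { carrier := {v | ∀ y ∈ radL R χ, y v = 0}
      add_mem' := fun {a b} ha hb y hy => by rw [map_add, ha y hy, hb y hy, add_zero]
      zero_mem' := fun y _ => map_zero y
      smul_mem' := fun c a ha y hy => by rw [map_smul, ha y hy, smul_zero] }
  have hU : ∀ g ∈ (⊤ : Subgroup Γ), ∀ v ∈ U, R g v ∈ U := by
    intro g _ v hv y hy
    have h1 := hv _ (radL_conj R χ g⁻¹ hy)
    rw [inv_inv, Module.End.mul_apply, Module.End.mul_apply] at h1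
    have h2 := congrArg (R g) h1
    rwa [map_zero, rho_inv'] at h2
  obtain ⟨P, hP1, hP2, hP3⟩ := hss ⊤ inferInstance U hU
  have hcomm : ∀ y ∈ radL R χ, ∀ v, y (P v) = P (y v) := fun y hy v =>
    Pool.Agent.W839.OT.HTFam.comm R χ ω hnd hωR ⊤ inferInstance P hP3 y hy.1 v
  let W : LieSubmodule K (radL R χ) X :=
    { LinearMap.ker P with
      lie_mem := by
        intro y v hv
        change P (y.1 v) = 0
        rw [← hcomm y.1 y.2, show P v = 0 from hv, map_zero] }
  have hW : ∀ w : W, P (w : X) = 0 := fun w => w.2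
  have hnil : LieModule.IsNilpotent (radL R χ) W := by
    rw [LieModule.isNilpotent_iff_forall' (R := K)]
    intro y
    obtain ⟨k, hk⟩ := nilpotent_of_orth y.2.1 y.2.2
    refine ⟨k, LinearMap.ext fun w => ?_⟩
    have key : ∀ r : ℕ, ((((LieModule.toEnd K (radL R χ) W y) ^ r) w : W) : X) =
        ((y : End K X) ^ r) (w : X) := by
      intro r
      induction r with
      | zero => rfl
      | succ r ih =>
        rw [pow_succ', Module.End.mul_apply, pow_succ', Module.End.mul_apply, ← ih]
        rfl
    apply Subtype.ext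
    rw [key, hk]
    rfl
  have hW0 : ∀ w : W, w = 0 := by
    by_contra hcon
    push Not at hcon
    obtain ⟨w₀, hw₀⟩ := hcon
    have : Nontrivial W := ⟨⟨w₀, 0, hw₀⟩⟩
    have h1 := LieModule.nontrivial_max_triv_of_isNilpotent K (radL R χ) W
    obtain ⟨⟨w, hw⟩, hw0⟩ := exists_ne (0 : LieModule.maxTrivSubmodule K (radL R χ) W)
    apply hw0
    apply Subtype.ext
    apply Subtype.ext
    have h2 : (w : X) ∈ U := by
      intro y hy
      have h3 := (LieModule.mem_maxTrivSubmodule K (radL R χ) W w).1 hw ⟨y, hy⟩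
      exact congrArg Subtype.val h3
    have h3 := hP2 _ h2
    rw [hW w] at h3
    exact h3.symm
  have hker : ∀ v, P v = 0 → v = 0 := fun v hv => congrArg Subtype.val (hW0 ⟨v, hv⟩)
  refine LinearMap.ext fun v => ?_
  have h1 : v = P v := by
    rw [← sub_eq_zero]
    apply hker
    rw [map_sub, hP2 _ (hP1 v), sub_self]
  rw [LinearMap.zero_apply, h1]
  exact hP1 v x hx

include hnd hωR hss in
/-- The orthogonal projection to the Lie algebra. -/
theorem exists_pi [IsAlgClosed K] : ∃ π : End K X →ₗ[K] End K X,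
    (∀ y, π y ∈ lieT R χ) ∧ (∀ y ∈ lieT R χ, π y = y) ∧
    (∀ y, ∀ z ∈ lieT R χ, LinearMap.trace K X (z * π y) = LinearMap.trace K X (z * y)) ∧
    ∀ g y, π (R g * y * R g⁻¹) = R g * π y * R g⁻¹ := by
  let L := lieT R χ
  let T : L →ₗ[K] Dual K L :=
    { toFun := fun a =>
        { toFun := fun z => LinearMap.trace K X (z.1 * a.1)
          map_add' := fun z w => by
            change LinearMap.trace K X ((z.1 + w.1) * a.1) = _
            rw [add_mul, map_add]
          map_smul' := fun c z => by
            change LinearMap.trace K X ((c • z.1) * a.1) = _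
            rw [smul_mul_assoc, map_smul]
            rfl }
      map_add' := fun a b => by
        ext z
        change LinearMap.trace K X (z.1 * (a.1 + b.1)) = _
        rw [mul_add, map_add]
        rfl
      map_smul' := fun c a => by
        ext z
        change LinearMap.trace K X (z.1 * (c • a.1)) = _
        rw [mul_smul_comm, map_smul]
        rfl }
  have hinj : Function.Injective T := by
    rw [injective_iff_map_eq_zero]
    intro a ha
    apply Subtype.ext
    refine radL_eq ω hnd hωR hss ((mem_radL R χ).2 ⟨a.2, fun y hy => ?_⟩)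
    have h1 := congrArg (fun f : Dual K L => f ⟨y, hy⟩) ha
    change LinearMap.trace K X (y * a.1) = 0 at h1
    rw [LinearMap.trace_mul_comm, h1]
  have hbij : Function.Bijective T :=
    ⟨hinj, (LinearMap.injective_iff_surjective_of_finrank_eq_finrank
      (Subspace.dual_finrank_eq).symm).1 hinj⟩
  let e := LinearEquiv.ofBijective T hbij
  let F : End K X →ₗ[K] Dual K L :=
    { toFun := fun a =>
        { toFun := fun z => LinearMap.trace K X (z.1 * a)
          map_add' := fun z w => by
            change LinearMap.trace K X ((z.1 + w.1) * a) = _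
            rw [add_mul, map_add]
          map_smul' := fun c z => by
            change LinearMap.trace K X ((c • z.1) * a) = _
            rw [smul_mul_assoc, map_smul]
            rfl }
      map_add' := fun a b => by
        ext z
        change LinearMap.trace K X (z.1 * (a + b)) = _
        rw [mul_add, map_add]
        rfl
      map_smul' := fun c a => by
        ext z
        change LinearMap.trace K X (z.1 * (c • a)) = _
        rw [mul_smul_comm, map_smul]
        rfl }
  let π : End K X →ₗ[K] End K X := L.subtype.comp (e.symm.toLinearMap.comp F)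
  have h1 : ∀ y, π y ∈ lieT R χ := fun y => SetLike.coe_mem _
  have h2 : ∀ y, ∀ z ∈ lieT R χ, LinearMap.trace K X (z * π y) = LinearMap.trace K X (z * y) := by
    intro y z hz
    have h3 : e (e.symm (F y)) = F y := e.apply_symm_apply _
    exact congrArg (fun f : Dual K L => f ⟨z, hz⟩) h3
  have h3 : ∀ y a, a ∈ lieT R χ →
      (∀ z ∈ lieT R χ, LinearMap.trace K X (z * a) = LinearMap.trace K X (z * y)) → π y = a := by
    intro y a ha h
    rw [← sub_eq_zero]
    refine radL_eq ω hnd hωR hss ((mem_radL R χ).2 ⟨Submodule.sub_mem _ (h1 y) ha,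
      fun z hz => ?_⟩)
    rw [LinearMap.trace_mul_comm, mul_sub, map_sub, h2 y z hz, h z hz, sub_self]
  refine ⟨π, h1, fun y hy => h3 y y hy fun z _ => rfl, h2, fun g y => ?_⟩
  refine h3 _ _ (lieT_conj R χ g (h1 y)) fun z hz => ?_
  have h4 := lieT_conj R χ g⁻¹ hz
  rw [inv_inv] at h4
  have h5 := h2 y _ h4
  have h6 : ∀ a : End K X, LinearMap.trace K X (z * (R g * a * R g⁻¹)) =
      LinearMap.trace K X (R g⁻¹ * z * R g * a) := by
    intro a
    have h7 : z * (R g * a * R g⁻¹) = (z * R g * a) * R g⁻¹ := by simp only [mul_assoc]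
    have h8 : R g⁻¹ * z * R g * a = R g⁻¹ * (z * R g * a) := by simp only [mul_assoc]
    rw [h7, h8, LinearMap.trace_mul_comm]
  rw [h6, h6]
  exact h5

end Pool.Agent.H62CT
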