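import Mathlib
import Pool.Agent.H62CT.Rad

/-!
# The Tate form of degree four given by the projection to the Lie algebra
-/

set_option autoImplicit false
set_option linter.unusedSectionVars false

namespace Pool.Agent.H62CT

open Module Pool.Agent.H204R3.SP Pool.Agent.H204R3.GP Pool.Agent.W522.U Pool.Agent.TH118.CR

variable {K : Type} [Field K] [CharZero K] {X : Type} [AddCommGroup X] [Module K X]

/-- The operators of rank one, by means of the form `ω`. -/
def rk (ω : X →ₗ[K] X →ₗ[K] K) : X →ₗ[K] X →ₗ[K] End K X :=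
  LinearMap.mk₂ K (fun a b => (ω.flip b).smulRight a)
    (fun a a' b => by
      ext u
      simp only [LinearMap.smulRight_apply, LinearMap.add_apply, smul_add])
    (fun c a b => by
      ext u
      change ω u b • c • a = c • ω u b • a
      exact smul_comm _ _ _)
    (fun a b b' => by
      ext u
      simp only [LinearMap.smulRight_apply, LinearMap.add_apply, map_add, add_smul])
    (fun c a b => by
      ext u
      simp only [LinearMap.smulRight_apply, LinearMap.smul_apply, map_smul, smul_assoc])

theorem rk_apply (ω : X →ₗ[K] X →ₗ[K] K) (a b u : X) : rk ω a b u = ω u b • a := rfl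

/-- The form of degree four given by a linear map. -/
def phi (ω : X →ₗ[K] X →ₗ[K] K) (π : End K X →ₗ[K] End K X) :
    MultilinearMap K (fun _ : Fin 2 × Fin 2 => X) K where
  toFun v := ω (π (rk ω (v (1, 0)) (v (1, 1))) (v (0, 0))) (v (0, 1))
  map_update_add' := by
    intro _ v i x y
    obtain ⟨i, j⟩ := i
    have h : ∀ (k l : Fin 2 × Fin 2) (z : X), l ≠ k → Function.update v k z l = v l :=
      fun k l z hkl => Function.update_of_ne hkl _ _
    fin_cases i <;> fin_cases j
    · simp only [Fin.zero_eta, Function.update_self, h (0, 0) (0, 1) _ (by simp),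
        h (0, 0) (1, 0) _ (by simp), h (0, 0) (1, 1) _ (by simp), map_add,
        LinearMap.add_apply]
    · simp only [Fin.zero_eta, Fin.mk_one, Function.update_self, h (0, 1) (0, 0) _ (by simp),
        h (0, 1) (1, 0) _ (by simp), h (0, 1) (1, 1) _ (by simp), map_add,
        LinearMap.add_apply]
    · simp only [Fin.zero_eta, Fin.mk_one, Function.update_self, h (1, 0) (0, 0) _ (by simp),
        h (1, 0) (0, 1) _ (by simp), h (1, 0) (1, 1) _ (by simp), map_add,
        LinearMap.add_apply]
    · simp only [Fin.zero_eta, Fin.mk_one, Function.update_self, h (1, 1) (0, 0) _ (by simp),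
        h (1, 1) (0, 1) _ (by simp), h (1, 1) (1, 0) _ (by simp), map_add,
        LinearMap.add_apply]
  map_update_smul' := by
    intro _ v i c x
    obtain ⟨i, j⟩ := i
    have h : ∀ (k l : Fin 2 × Fin 2) (z : X), l ≠ k → Function.update v k z l = v l :=
      fun k l z hkl => Function.update_of_ne hkl _ _
    fin_cases i <;> fin_cases j
    · simp only [Fin.zero_eta, Function.update_self, h (0, 0) (0, 1) _ (by simp),
        h (0, 0) (1, 0) _ (by simp), h (0, 0) (1, 1) _ (by simp), map_smul,
        LinearMap.smul_apply]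
    · simp only [Fin.zero_eta, Fin.mk_one, Function.update_self, h (0, 1) (0, 0) _ (by simp),
        h (0, 1) (1, 0) _ (by simp), h (0, 1) (1, 1) _ (by simp), map_smul,
        LinearMap.smul_apply]
    · simp only [Fin.zero_eta, Fin.mk_one, Function.update_self, h (1, 0) (0, 0) _ (by simp),
        h (1, 0) (0, 1) _ (by simp), h (1, 0) (1, 1) _ (by simp), map_smul,
        LinearMap.smul_apply]
    · simp only [Fin.zero_eta, Fin.mk_one, Function.update_self, h (1, 1) (0, 0) _ (by simp),
        h (1, 1) (0, 1) _ (by simp), h (1, 1) (1, 0) _ (by simp), map_smul,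
        LinearMap.smul_apply]

theorem phi_apply (ω : X →ₗ[K] X →ₗ[K] K) (π : End K X →ₗ[K] End K X) (v : Fin 2 × Fin 2 → X) :
    phi ω π v = ω (π (rk ω (v (1, 0)) (v (1, 1))) (v (0, 0))) (v (0, 1)) := rfl

/-- The form of an equivariant map is a Tate form. -/
theorem isTate_phi {Γ : Type} [Group Γ] {R : Representation K Γ X} {χ : Γ →* K}
    (ω : X →ₗ[K] X →ₗ[K] K) (hωR : ∀ g u v, ω (R g u) (R g v) = χ g * ω u v)
    (π : End K X →ₗ[K] End K X) (hπ : ∀ g y, π (R g * y * R g⁻¹) = R g * π y * R g⁻¹) :
    IsTate R χ 2 (phi ω π) := by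
  refine ⟨⊤, inferInstance, fun s _ v => ?_⟩
  have h1 : ∀ a b, rk ω (R s a) (R s b) = χ s • (R s * rk ω a b * R s⁻¹) := by
    intro a b
    ext u
    rw [rk_apply, LinearMap.smul_apply, Module.End.mul_apply, Module.End.mul_apply, rk_apply,
      map_smul, smul_smul]
    congr 1
    rw [← hωR, rho_inv']
  rw [phi_apply, phi_apply, h1, map_smul, hπ, LinearMap.smul_apply, Module.End.mul_apply,
    Module.End.mul_apply, rho_inv, map_smul, LinearMap.smul_apply, hωR, smul_eq_mul, sq, mul_assoc]

variable [FiniteDimensional K X]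

/-- The operators of rank one span. -/
theorem rk_span (ω : X →ₗ[K] X →ₗ[K] K) (hnd : ∀ u, (∀ v, ω u v = 0) → u = 0) (y : End K X) :
    y ∈ Submodule.span K {y | ∃ a b, y = rk ω a b} := by
  classical
  have hinj : Function.Injective ω := by
    rw [injective_iff_map_eq_zero]
    intro u hu
    exact hnd u fun v => by rw [hu, LinearMap.zero_apply]
  have hsurj : Function.Surjective ω := (LinearMap.injective_iff_surjective_of_finrank_eq_finrank
    (Subspace.dual_finrank_eq).symm).1 hinj
  have hinj' : Function.Injective ω.flip := by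
    rw [injective_iff_map_eq_zero]
    intro w hw
    refine (Module.forall_dual_apply_eq_zero_iff K w).1 fun f => ?_
    obtain ⟨u, rfl⟩ := hsurj f
    exact congrArg (fun g : X →ₗ[K] K => g u) hw
  have hsurj' : Function.Surjective ω.flip :=
    (LinearMap.injective_iff_surjective_of_finrank_eq_finrank
      (Subspace.dual_finrank_eq).symm).1 hinj'
  let b := Module.finBasis K X
  choose w hw using fun i => hsurj' (b.coord i)
  have h1 : y = ∑ i, rk ω (y (b i)) (w i) := by
    ext u
    rw [LinearMap.sum_apply]
    conv_lhs => rw [← b.sum_repr u]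
    rw [map_sum]
    refine Finset.sum_congr rfl fun i _ => ?_
    rw [map_smul, rk_apply]
    congr 1
    have h2 := congrArg (fun g : X →ₗ[K] K => g u) (hw i)
    exact h2.symm
  rw [h1]
  exact Submodule.sum_mem _ fun i _ => Submodule.subset_span ⟨_, _, rfl⟩

/-- If `x` kills the form `phi` then the bracket with `x` commutes with `π`. -/
theorem bracket_of_kills (ω : X →ₗ[K] X →ₗ[K] K) (hnd : ∀ u, (∀ v, ω u v = 0) → u = 0)
    (π : End K X →ₗ[K] End K X) {x : End K X} (hx : ∀ u v, ω (x u) v + ω u (x v) = 0)
    (hk : Kills x (phi ω π)) (y : End K X) : x * π y - π y * x = π (x * y - y * x) := by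
  have h0 : ∀ c d, x * rk ω c d - rk ω c d * x = rk ω (x c) d + rk ω c (x d) := by
    intro c d
    ext u
    rw [LinearMap.sub_apply, LinearMap.add_apply, Module.End.mul_apply, Module.End.mul_apply,
      rk_apply, rk_apply, rk_apply, rk_apply, map_smul, sub_eq_add_neg, ← neg_smul]
    congr 2
    linear_combination -(hx u d)
  refine Submodule.span_induction (p := fun y _ => x * π y - π y * x = π (x * y - y * x))
    ?_ ?_ ?_ ?_ (rk_span ω hnd y)
  · rintro _ ⟨c, d, rfl⟩
    rw [h0, ← sub_eq_zero]
    ext a
    rw [LinearMap.zero_apply]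
    apply hnd
    intro b
    have h1 := hk (fun k => if k = (0, 0) then a else if k = (0, 1) then b else
      if k = (1, 0) then c else d)
    rw [Fintype.sum_prod_type, Fin.sum_univ_two, Fin.sum_univ_two, Fin.sum_univ_two] at h1
    simp only [phi_apply, Function.update_apply] at h1
    simp at h1
    have h2 := hx (π (rk ω c d) a) b
    simp only [LinearMap.sub_apply, Module.End.mul_apply, map_sub, map_add,
      LinearMap.add_apply]
    linear_combination h2 - h1
  · simp
  · intro y z _ _ hy hz
    rw [map_add, mul_add, add_mul, add_sub_add_comm, hy, hz, mul_add, add_mul, add_sub_add_comm,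
      map_add]
  · intro c y _ hy
    rw [map_smul, mul_smul_comm, smul_mul_assoc, ← smul_sub, hy, mul_smul_comm, smul_mul_assoc,
      ← smul_sub, map_smul]

variable {Γ : Type} [Group Γ] {R : Representation K Γ X} {χ : Γ →* K}
  (ω : X →ₗ[K] X →ₗ[K] K) (hnd : ∀ u, (∀ v, ω u v = 0) → u = 0)
  (hωR : ∀ g u v, ω (R g u) (R g v) = χ g * ω u v) (hss : HasProj R)

include hnd hωR hss in
/-- **The decomposition.** An operator that is skew and kills all Tate forms of degree four is the
sum of an element of the Lie algebra and of an operator that commutes with the Lie algebra. -/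
theorem exists_decomp [IsAlgClosed K] : ∃ π : End K X →ₗ[K] End K X,
    (∀ y, π y ∈ lieT R χ) ∧ (∀ y ∈ lieT R χ, π y = y) ∧ IsTate R χ 2 (phi ω π) ∧
    ∀ x, (∀ u v, ω (x u) v + ω u (x v) = 0) → Kills x (phi ω π) →
      ∀ y ∈ lieT R χ, (x - π x) * y = y * (x - π x) := by
  obtain ⟨π, h1, h2, -, h4⟩ := exists_pi ω hnd hωR hss
  have hT := isTate_phi ω hωR π h4
  refine ⟨π, h1, h2, hT, fun x hx hk y hy => ?_⟩
  have e1 := bracket_of_kills ω hnd π hx hk y
  rw [h2 y hy] at e1
  have e2 := bracket_of_kills ω hnd π (fun u v => lieT_sp R χ ω hωR hy u v) (hy 2 _ hT) x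
  have e3 : π (y * x - x * y) = -π (x * y - y * x) := by rw [← map_neg, neg_sub]
  rw [e3, ← e1] at e2
  rw [← sub_eq_zero, sub_mul, mul_sub]
  have e4 : x * y - π x * y - (y * x - y * π x) =
      (x * y - y * x) + (y * π x - π x * y) := by abel
  rw [e4, e2, add_neg_cancel]

end Pool.Agent.H62CT
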