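import Mathlib
import Pool.Agent.H204R3.SP.Tate
import Pool.Agent.W522.U.C4
import Pool.Agent.TH118.WC.Multi

/-!
# Products of determinants as Tate forms
-/

set_option autoImplicit false
set_option linter.unusedSectionVars false
set_option linter.deprecated false

namespace Pool.Agent.H62CT.Dt

open Module Pool.Agent.H204R3.SP Pool.Agent.W522.U Pool.Agent.TH118.WC

noncomputable section

variable {K : Type} [Field K] [CharZero K]

/-- The sum of the determinants with one vector replaced by its image. -/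
theorem det_der {U : Type} [AddCommGroup U] [Module K U] {n : ℕ} (b : Basis (Fin n) K U)
    (y : End K U) (v : Fin n → U) :
    ∑ j, b.det (Function.update v j (y (v j))) = LinearMap.trace K U y * b.det v := by
  classical
  let A := b.toMatrix v
  let Y := LinearMap.toMatrix b b y
  have h0 : ∀ j i, b.repr (y (v j)) i = (Y * A) i j := by
    intro j i
    have h1 := LinearMap.toMatrix_mulVec_repr b b y (v j)
    have h2 := congrFun h1 i
    rw [← h2]
    rfl
  have h1 : ∀ j, b.det (Function.update v j (y (v j))) = ∑ i, A.adjugate j i * (Y * A) i j := by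
    intro j
    rw [Basis.det_apply, Basis.toMatrix_update, ← Matrix.cramer_apply,
      Matrix.cramer_eq_adjugate_mulVec]
    change ∑ i, A.adjugate j i * (b.repr (y (v j)) i) = _
    refine Finset.sum_congr rfl fun i _ => ?_
    rw [h0]
  have h2 : ∑ j, b.det (Function.update v j (y (v j))) = Matrix.trace (A.adjugate * (Y * A)) := by
    rw [Matrix.trace]
    refine Finset.sum_congr rfl fun j _ => ?_
    rw [h1, Matrix.diag_apply, Matrix.mul_apply]
  rw [h2, Matrix.trace_mul_comm, Matrix.mul_assoc, Matrix.mul_adjugate, Matrix.mul_smul,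
    Matrix.mul_one, Matrix.trace_smul, LinearMap.trace_eq_matrix_trace K b y, Basis.det_apply,
    smul_eq_mul, mul_comm]

variable {X : Type} [AddCommGroup X] [Module K X] [FiniteDimensional K X]

section form

variable {Q : Type} [Fintype Q] {d : Q → ℕ} {U : Q → Submodule K X}
  (b : ∀ q, Basis (Fin (d q)) K (U q)) (p : ∀ q, X →ₗ[K] U q)

/-- The product of the determinants. -/
def psi : MultilinearMap K (fun _ : (Σ q, Fin (d q)) => X) K :=
  sigProd fun q => ((b q).det.toMultilinearMap).compLinearMap (fun _ => p q)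

theorem psi_apply (v : (Σ q, Fin (d q)) → X) :
    psi b p v = ∏ q, (b q).det (fun j => p q (v ⟨q, j⟩)) := rfl

theorem psi_der [DecidableEq Q] (y : End K X) (y' : ∀ q, End K (U q))
    (h : ∀ q u, p q (y u) = y' q (p q u)) (v : (Σ q, Fin (d q)) → X) :
    ∑ k, psi b p (Function.update v k (y (v k))) =
      (∑ q, LinearMap.trace K (U q) (y' q)) * psi b p v := by
  rw [Fintype.sum_sigma, Finset.sum_mul]
  refine Finset.sum_congr rfl fun q _ => ?_
  have h1 : ∀ j, psi b p (Function.update v ⟨q, j⟩ (y (v ⟨q, j⟩))) =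
      (b q).det (Function.update (fun j => p q (v ⟨q, j⟩)) j (y' q (p q (v ⟨q, j⟩)))) *
        ∏ q' ∈ Finset.univ.erase q, (b q').det (fun j => p q' (v ⟨q', j⟩)) := by
    intro j
    rw [psi_apply, ← Finset.mul_prod_erase _ _ (Finset.mem_univ q)]
    congr 1
    · congr 1
      funext j'
      by_cases hj : j' = j
      · subst hj
        rw [Function.update_self, Function.update_self, h]
      · rw [Function.update_of_ne hj, Function.update_of_ne (by simpa using hj)]
    · refine Finset.prod_congr rfl fun q' hq' => ?_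
      congr 1
      funext j'
      rw [Function.update_of_ne]
      intro h'
      exact Finset.ne_of_mem_erase hq' (congrArg Sigma.fst h')
  rw [Finset.sum_congr rfl fun j _ => h1 j, ← Finset.sum_mul,
    det_der (b q) (y' q) (fun j => p q (v ⟨q, j⟩)), psi_apply,
    ← Finset.mul_prod_erase _ _ (Finset.mem_univ q), mul_assoc]

/-- The form in the given variables. -/
def psiE {c : ℕ} (e : (Σ q, Fin (d q)) ≃ Fin c × Fin 2) :
    MultilinearMap K (fun _ : Fin c × Fin 2 => X) K := (psi b p).domDomCongr e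

theorem psiE_apply {c : ℕ} (e : (Σ q, Fin (d q)) ≃ Fin c × Fin 2) (v : Fin c × Fin 2 → X) :
    psiE b p e v = psi b p (fun k => v (e k)) := rfl

theorem psiE_kills [DecidableEq Q] {c : ℕ} (e : (Σ q, Fin (d q)) ≃ Fin c × Fin 2)
    (y : End K X) (y' : ∀ q, End K (U q)) (h : ∀ q u, p q (y u) = y' q (p q u))
    (h0 : ∑ q, LinearMap.trace K (U q) (y' q) = 0) : Kills y (psiE b p e) := by
  intro v
  have h1 := psi_der b p y y' h (fun k => v (e k))
  rw [h0, zero_mul] at h1
  rw [← h1]
  refine (Fintype.sum_equiv e _ _ fun k => ?_).symm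
  rw [psiE_apply]
  congr 1
  funext k'
  by_cases hk : k' = k
  · subst hk
    rw [Function.update_self, Function.update_self]
  · rw [Function.update_of_ne hk, Function.update_of_ne (fun h' => hk (e.injective h'))]

variable {Γ : Type} [Group Γ] {R : Representation K Γ X} {χ : Γ →* K}

/-- If the product of the determinants is a Tate form then the determinants satisfy a relation. -/
theorem rel_of_tate {c : ℕ} (e : (Σ q, Fin (d q)) ≃ Fin c × Fin 2)
    (hp : ∀ q (u : U q), p q u = u) (hT : IsTate R χ c (psiE b p e))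
    (hU : ∀ q, Pot R (U q)) :
    ∃ (Δ : Subgroup Γ) (h : ∀ q, ∀ g ∈ Δ, ∀ u ∈ U q, R g u ∈ U q), Δ.FiniteIndex ∧
      ∀ (g : Γ) (hg : g ∈ Δ), ∏ q, LinearMap.det ((R g).restrict (h q g hg)) = χ g ^ c := by
  obtain ⟨Δ₀, hΔ₀, hT⟩ := hT
  choose D hD hDU using hU
  have hfi : (⨅ q, D q).FiniteIndex := Subgroup.finiteIndex_iInf (fun i => hD i)
  have hmem : ∀ g ∈ Δ₀ ⊓ ⨅ q, D q, ∀ q, g ∈ D q := fun g hg q =>
    Subgroup.mem_iInf.1 (Subgroup.mem_inf.1 hg).2 q
  refine ⟨Δ₀ ⊓ ⨅ q, D q, fun q g hg u hu => hDU q g (hmem g hg q) u hu, inferInstance,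
    fun g hg => ?_⟩
  obtain ⟨w, hw⟩ : ∃ w : (Σ q, Fin (d q)) → X, ∀ q j, w ⟨q, j⟩ = b q j :=
    ⟨fun s => (b s.1 s.2 : X), fun _ _ => rfl⟩
  have h1 := hT g (Subgroup.mem_inf.1 hg).1 (fun k => w (e.symm k))
  rw [psiE_apply, psiE_apply, psi_apply, psi_apply] at h1
  simp only [Equiv.symm_apply_apply, hw, hp] at h1
  have h2 : ∀ q, (b q).det (fun j => b q j) = 1 := fun q => (b q).det_self
  rw [Finset.prod_congr rfl fun q _ => h2 q, Finset.prod_const_one, mul_one] at h1
  rw [← h1]
  refine Finset.prod_congr rfl fun q _ => ?_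
  have h3 : (fun j => p q (R g (b q j : X))) =
      ((R g).restrict (fun u hu => hDU q g (hmem g hg q) u hu) : U q →ₗ[K] U q) ∘ (b q) := by
    funext j
    rw [Function.comp_apply]
    exact hp q ⟨R g (b q j), hDU q g (hmem g hg q) _ (b q j).2⟩
  rw [h3, Basis.det_comp, (b q).det_self, mul_one]

/-- If the determinants satisfy a relation then their product is a Tate form. -/
theorem tate_of_rel {c : ℕ} (e : (Σ q, Fin (d q)) ≃ Fin c × Fin 2)
    {D : Q → Subgroup Γ} (hD : ∀ q, (D q).FiniteIndex) (Δ : Subgroup Γ) (hΔ : Δ.FiniteIndex)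
    (h : ∀ q, ∀ g ∈ Δ, ∀ u ∈ U q, R g u ∈ U q)
    (hp : ∀ q, ∀ g ∈ D q, ∀ v, (p q (R g v) : X) = R g (p q v))
    (hdet : ∀ (g : Γ) (hg : g ∈ Δ), ∏ q, LinearMap.det ((R g).restrict (h q g hg)) = χ g ^ c) :
    IsTate R χ c (psiE b p e) := by
  have hfi : (⨅ q, D q).FiniteIndex := Subgroup.finiteIndex_iInf (fun i => hD i)
  refine ⟨Δ ⊓ ⨅ q, D q, inferInstance, fun g hg v => ?_⟩
  have hgD : ∀ q, g ∈ D q := fun q => Subgroup.mem_iInf.1 (Subgroup.mem_inf.1 hg).2 q
  have hgΔ : g ∈ Δ := (Subgroup.mem_inf.1 hg).1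
  rw [psiE_apply, psiE_apply, psi_apply, psi_apply, ← hdet g hgΔ, ← Finset.prod_mul_distrib]
  refine Finset.prod_congr rfl fun q _ => ?_
  have h3 : (fun j => p q (R g (v (e ⟨q, j⟩)))) =
      ((R g).restrict (h q g hgΔ) : U q →ₗ[K] U q) ∘ (fun j => p q (v (e ⟨q, j⟩))) := by
    funext j
    rw [Function.comp_apply]
    exact Subtype.ext (hp q g (hgD q) _)
  rw [h3, Basis.det_comp]

/-- An operator that kills the product of the determinants. -/
theorem trace_of_kills [DecidableEq Q] {c : ℕ} (e : (Σ q, Fin (d q)) ≃ Fin c × Fin 2)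
    (hp' : ∀ q (u : U q), p q u = u)
    (y : End K X) (y' : ∀ q, End K (U q)) (h : ∀ q u, p q (y u) = y' q (p q u))
    (h0 : Kills y (psiE b p e)) : ∑ q, LinearMap.trace K (U q) (y' q) = 0 := by
  obtain ⟨w, hw⟩ : ∃ w : (Σ q, Fin (d q)) → X, ∀ q j, w ⟨q, j⟩ = b q j :=
    ⟨fun s => (b s.1 s.2 : X), fun _ _ => rfl⟩
  have h1 := psi_der b p y y' h w
  have h2 : psi b p w = 1 := by
    rw [psi_apply]
    refine Finset.prod_eq_one fun q _ => ?_
    simp only [hw, hp']
    exact (b q).det_self
  rw [h2, mul_one] at h1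
  rw [← h1]
  have h3 := h0 (fun k => w (e.symm k))
  rw [← h3]
  refine Fintype.sum_equiv e _ _ fun k => ?_
  rw [psiE_apply, Equiv.symm_apply_apply]
  congr 1
  funext k'
  by_cases hk : k' = k
  · subst hk
    rw [Function.update_self, Function.update_self]
  · rw [Function.update_of_ne hk, Function.update_of_ne (fun h' => hk (e.injective h')),
      Equiv.symm_apply_apply]

end form

end

end Pool.Agent.H62CT.Dt
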