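import Mathlib
import Pool.Agent.W522.U.B3

/-!
# The weights of the Tate forms
-/

set_option linter.unusedSectionVars false

namespace Pool.Agent.H62CT.Pi

open Module Pool.Agent.H204R3.SP Pool.Agent.H204R3.GP Pool.Agent.W522.U

noncomputable section

variable {K : Type*} [Field K] [CharZero K]
  {I : Type*} [Fintype I] [DecidableEq I] {E : I → Type*} [∀ i, AddCommGroup (E i)]
  [∀ i, Module K (E i)] [∀ i, FiniteDimensional K (E i)] {G : Type*} [Group G]
  {r : ∀ i, Representation K G (E i)} {χ : G →* K}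
  (ω : (∀ i, E i) →ₗ[K] (∀ i, E i) →ₗ[K] K) (halt : ∀ u, ω u u = 0)
  (hnd : ∀ u, (∀ w, ω u w = 0) → u = 0)
  (hωρ : ∀ g u v, ω (piRep r g u) (piRep r g v) = χ g * ω u v)
  (st : I → I) (hst : ∀ i, st (st i) = i)
  (hor : ∀ i j, j ≠ st i → ∀ (u : E i) (v : E j), ω (Pi.single i u) (Pi.single j v) = 0)
  (hel : ∀ i, 2 ≤ finrank K (E i) → ∀ (u : E i) (φ : Dual K (E i)),
    Ty (K := K) (fun i => st i = i) (fun i => par ω i i) i u φ →
    ∃ X ∈ hh r χ, X i = φ.smulRight u ∧ ∀ j, j ≠ i → j ≠ st i → X j = 0)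
  {n : ℕ} (e : Basis (Fin n ⊕ Fin n) K (∀ i, E i)) (lab : Fin n ⊕ Fin n → I)
  (hlab : ∀ x, e x = Pi.single (lab x) (e x (lab x)))
  (hlab' : ∀ x, lab x.swap = st (lab x))
  (he0 : ∀ x y, y ≠ x.swap → ω (e x) (e y) = 0) (he1 : ∀ x, ω (e x) (e x.swap) ≠ 0)

include halt hnd hωρ hst hor hel hlab hlab' he0 he1 in
/-- Diagonal elements: the general linear case. -/
theorem diag_sl {x y : Fin n ⊕ Fin n} {i : I} (hi : st i ≠ i) (hx : lab x = i) (hy : lab y = i)
    (hxy : x ≠ y) : ∃ D ∈ lieT (piRep r) χ,
      ∀ z, D (e z) = ((dd Sum.swap x z : K) - dd Sum.swap y z) • e z := by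
  have hi2 := two_le e lab hlab hx hy hxy
  -- the coordinate functionals
  let fn : (Fin n ⊕ Fin n) → Dual K (E i) := fun y =>
    (ω (e y.swap) (e y))⁻¹ • (ω (e y.swap)).comp (LinearMap.single K E i)
  have hfn : ∀ y z, lab z = i → fn y (e z i) = if z = y then 1 else 0 := by
    intro y z hz
    change (ω (e y.swap) (e y))⁻¹ * ω (e y.swap) (Pi.single i (e z i)) = _
    rw [← e_single e lab hlab hz]
    by_cases h : z = y
    · subst h
      rw [if_pos rfl]
      have h1 := he1 z.swap
      rw [Sum.swap_swap] at h1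
      rw [inv_mul_cancel₀ h1]
    · rw [if_neg h, he0 y.swap z (by rw [Sum.swap_swap]; exact h), mul_zero]
  have hX : ∀ x y, lab x = i → lab y = i → x ≠ y → ∃ X ∈ hh r χ,
      X i = (fn y).smulRight (e x i) ∧ ∀ j, j ≠ i → j ≠ st i → X j = 0 := by
    intro x y hx hy hxy
    refine hel i hi2 _ _ ⟨?_, fun h => absurd h hi⟩
    rw [hfn y x hx, if_neg hxy]
  obtain ⟨X₁, hX₁, hX₁i, hX₁j⟩ := hX x y hx hy hxy
  obtain ⟨X₂, hX₂, hX₂i, hX₂j⟩ := hX y x hy hx (Ne.symm hxy)
  have hH := (lieFam_hh r χ).br _ hX₁ _ hX₂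
  set H := brk X₁ X₂ with hHdef
  have hHi : ∀ z, lab z = i → H i (e z i) =
      ((if z = x then 1 else 0 : K) - (if z = y then 1 else 0 : K)) • e z i := by
    intro z hz
    simp only [hHdef, brk, hX₁i, hX₂i, LinearMap.sub_apply, Module.End.mul_apply,
      LinearMap.smulRight_apply, map_smul, hfn _ _ hz, hfn _ _ hx, hfn _ _ hy, if_true,
      smul_eq_mul, mul_one]
    rw [sub_smul]
    congr 1
    · by_cases h : z = x
      · simp [h]
      · simp [h]
    · by_cases h : z = y
      · simp [h]
      · simp [h]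
  have hHj : ∀ j, j ≠ i → j ≠ st i → H j = 0 := by
    intro j h1 h2
    simp only [hHdef, brk, hX₁j j h1 h2, hX₂j j h1 h2, mul_zero, sub_zero]
  refine ⟨blk H, hH, fun z => ?_⟩
  rcases eq_or_ne (lab z) i with hz | hz
  · rw [e_single e lab hlab hz, blk_single, hHi z hz, dd_sub, dd_sub, Pi.single_smul]
    have h1 : z ≠ x.swap := by
      intro h
      apply hi
      rw [← hx, ← hlab', ← h, hz, hx]
    have h2 : z ≠ y.swap := by
      intro h
      apply hi
      rw [← hy, ← hlab', ← h, hz, hy]
    rw [if_neg h1, if_neg h2, sub_zero, sub_zero]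
  · rcases eq_or_ne (lab z) (st i) with hz2 | hz2
    · -- the dual component
      have hzs : lab z.swap = i := by rw [hlab', hz2, hst]
      rw [← sub_eq_zero]
      apply hnd
      have h0 : (ω (blk H (e z) - ((dd Sum.swap x z : K) - dd Sum.swap y z) • e z)) = 0 := by
        refine e.ext fun w => ?_
        rw [LinearMap.zero_apply, map_sub, LinearMap.sub_apply, map_smul, LinearMap.smul_apply,
          smul_eq_mul]
        have h1 := lieT_sp (piRep r) χ ω hωρ hH (e z) (e w)
        by_cases hw : lab w = i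
        · rw [e_single e lab hlab hw, blk_single, hHi w hw, Pi.single_smul, map_smul,
            smul_eq_mul, ← e_single e lab hlab hw] at h1
          by_cases hwz : w = z.swap
          · have h2 : z = w.swap := by rw [hwz, Sum.swap_swap]
            have h3 : z ≠ x := fun h => hz (by rw [h, hx])
            have h4 : z ≠ y := fun h => hz (by rw [h, hy])
            rw [dd_sub, dd_sub, if_neg h3, if_neg h4]
            have h5 : ∀ y : Fin n ⊕ Fin n, (if z = y.swap then 1 else 0 : K) =
                if w = y then 1 else 0 := by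
              intro y
              by_cases h6 : w = y
              · rw [if_pos h6, if_pos (by rw [h2, h6])]
              · rw [if_neg h6, if_neg]
                intro h7
                apply h6
                rw [hwz, h7, Sum.swap_swap]
            rw [h5, h5]
            linear_combination h1
          · rw [he0 z w hwz] at h1 ⊢
            linear_combination h1
        · have h2 : ω (e z) (blk H (e w)) = 0 := by
            rw [hlab w, blk_single, e_single e lab hlab hz2]
            exact hor _ _ (fun h => hw (by rw [h, hst])) _ _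
          have h3 : w ≠ z.swap := fun h => hw (by rw [h, hzs])
          rw [he0 z w h3, mul_zero, sub_zero]
          rw [h2, add_zero] at h1
          exact h1
      intro w
      exact congrArg (fun f : (∀ i, E i) →ₗ[K] K => f w) h0
    · have h1 : z ≠ x := fun h => hz (by rw [h, hx])
      have h2 : z ≠ y := fun h => hz (by rw [h, hy])
      have h3 : z ≠ x.swap := fun h => hz2 (by rw [h, hlab', hx])
      have h4 : z ≠ y.swap := fun h => hz2 (by rw [h, hlab', hy])
      rw [dd_sub, dd_sub, if_neg h1, if_neg h2, if_neg h3, if_neg h4, hlab z, blk_single,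
        hHj _ hz hz2, LinearMap.zero_apply, Pi.single_zero]
      simp

include halt hnd hωρ hst hor hel hlab hlab' he0 he1 in
/-- Diagonal elements: the symplectic case. -/
theorem diag_sp {x : Fin n ⊕ Fin n} {i : I} (hi : st i = i) (hx : lab x = i) :
    ∃ D ∈ lieT (piRep r) χ, ∀ z, D (e z) = (dd Sum.swap x z : K) • e z := by
  have hxs : lab x.swap = i := by rw [hlab', hx, hi]
  have hne : x ≠ x.swap := by
    intro h
    have h1 := he1 x
    rw [← h, halt] at h1
    exact h1 rfl
  have hi2 := two_le e lab hlab hx hxs hne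
  have hX : ∀ x, lab x = i → ∃ X ∈ hh r χ,
      X i = (par ω i i (e x i)).smulRight (e x i) ∧ ∀ j, j ≠ i → j ≠ st i → X j = 0 := by
    intro x hx
    refine hel i hi2 _ _
      ⟨halt _, fun _ => ⟨1, (one_smul _ _).symm⟩⟩
  have hpar : ∀ x z, lab x = i → lab z = i → par ω i i (e x i) (e z i) = ω (e x) (e z) := by
    intro x z hx hz
    rw [par_apply, ← e_single e lab hlab hx, ← e_single e lab hlab hz]
  obtain ⟨X₁, hX₁, hX₁i, hX₁j⟩ := hX x hx
  obtain ⟨X₂, hX₂, hX₂i, hX₂j⟩ := hX x.swap hxs
  have hH := (lieFam_hh r χ).br _ hX₁ _ hX₂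
  set H := brk X₁ X₂ with hHdef
  set c := ω (e x) (e x.swap) with hc
  have hc0 : c ≠ 0 := he1 x
  have hsk := om_skew ω halt
  have hHi : ∀ z, lab z = i → H i (e z i) = (-c ^ 2 * dd Sum.swap x z) • e z i := by
    intro z hz
    simp only [hHdef, brk, hX₁i, hX₂i, LinearMap.sub_apply, Module.End.mul_apply,
      LinearMap.smulRight_apply, map_smul, hpar _ _ hx hz, hpar _ _ hxs hz, hpar _ _ hx hxs,
      hpar _ _ hxs hx]
    rw [hsk (e x.swap) (e x), ← hc]
    by_cases h1 : z = x
    · subst h1
      rw [dd_sub, if_pos rfl, if_neg hne, halt, hsk (e z.swap) (e z), ← hc, zero_smul, sub_zero,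
        smul_smul]
      congr 1
      ring
    · by_cases h2 : z = x.swap
      · subst h2
        rw [dd_sub, if_neg h1, if_pos rfl, halt, ← hc, zero_smul, zero_sub, smul_smul, ← neg_smul]
        congr 1
        ring
      · rw [dd_sub, if_neg h1, if_neg h2, he0 x z h2, he0 x.swap z (by rw [Sum.swap_swap]; exact h1)]
        simp
  have hHj : ∀ j, j ≠ i → H j = 0 := by
    intro j h1
    simp only [hHdef, brk, hX₁j j h1 (by rw [hi]; exact h1), hX₂j j h1 (by rw [hi]; exact h1),
      mul_zero, sub_zero]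
  refine ⟨(-c ^ 2)⁻¹ • blk H, Submodule.smul_mem _ _ hH, fun z => ?_⟩
  have hc2 : -c ^ 2 ≠ 0 := neg_ne_zero.2 (pow_ne_zero 2 hc0)
  rw [LinearMap.smul_apply]
  rcases eq_or_ne (lab z) i with hz | hz
  · conv_lhs => rw [e_single e lab hlab hz, blk_single, hHi z hz, Pi.single_smul,
      ← e_single e lab hlab hz, smul_smul, ← mul_assoc, inv_mul_cancel₀ hc2, one_mul]
  · have h1 : z ≠ x := fun h => hz (by rw [h, hx])
    have h3 : z ≠ x.swap := fun h => hz (by rw [h, hlab', hx, hi])
    rw [dd_sub, if_neg h1, if_neg h3, hlab z, blk_single, hHj _ hz, LinearMap.zero_apply,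
      Pi.single_zero, smul_zero, sub_self, zero_smul]

end

end Pool.Agent.H62CT.Pi
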