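import Mathlib
import Pool.Agent.TH118.WC.Enl
import Pool.Agent.H62CT.P6

/-!
# Enlarging the group by a torus
-/

set_option linter.unusedSectionVars false

namespace Pool.Agent.H62CT

open Module Pool.Agent.H204R3.SP Pool.Agent.H204R3.GP Pool.Agent.W522.U Pool.Agent.TH118.WC

noncomputable section

variable {K : Type*} [Field K] [CharZero K]
  {I : Type*} [Fintype I] [DecidableEq I] {E : I → Type*} [∀ i, AddCommGroup (E i)]
  [∀ i, Module K (E i)] [∀ i, FiniteDimensional K (E i)] {G : Type*} [Group G]
  {r : ∀ i, Representation K G (E i)} {χ : G →* K} {st : I → I}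

variable (ω : (∀ i, E i) →ₗ[K] (∀ i, E i) →ₗ[K] K) (halt : ∀ u, ω u u = 0)
  (hnd : ∀ u, (∀ w, ω u w = 0) → u = 0)
  (hωρ : ∀ g u v, ω (piRep r g u) (piRep r g v) = χ g * ω u v)
  (hst : ∀ i, st (st i) = i)
  (hor : ∀ i j, j ≠ st i → ∀ (u : E i) (v : E j), ω (Pi.single i u) (Pi.single j v) = 0)
  (hel : ∀ i, 2 ≤ finrank K (E i) → ∀ (u : E i) (φ : Dual K (E i)),
    Ty (K := K) (fun i => st i = i) (fun i => par ω i i) i u φ →
    ∃ X ∈ hh r χ, X i = φ.smulRight u ∧ ∀ j, j ≠ i → j ≠ st i → X j = 0)
  (hirr : ∀ i, Irr (r i))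
  (hpos : ∀ i, 0 < finrank K (E i))

include halt hnd hωρ hst hor hel hirr hpos in
theorem main_rt [IsAlgClosed K] {m : ℕ}
    (φ : MultilinearMap K (fun _ : Fin m × Fin 2 => ∀ i, E i) K)
    (hφ : IsTate (piRep (rt r st)) (ct χ st) m φ) :
    φ ∈ Submodule.span K (PT (piRep (rt r st)) (ct χ st) m) := by
  have hirr' : ∀ i, Irr (rt r st i) := by
    intro i Δ hΔ U hU
    refine hirr i (Δ.comap (MonoidHom.inl G (Tor K st))) (fi_comap _ _ hΔ) U fun g hg u hu => ?_
    have h1 := hU (g, 1) hg u hu
    rwa [rt_one] at h1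
  refine Pi.main_pi ω halt hnd (form_rt ω hωρ hor) st hst hor ?_ ?_ (hasProj_pi hirr') φ hφ
  · intro i hi u φ hT
    obtain ⟨N, hN, h1⟩ := hel i hi u φ hT
    exact ⟨N, fun m φ hφ => hN m φ (tate_small hφ), h1⟩
  · intro a ha h
    funext i
    by_cases hi : st i = i
    · have h1 := ha i
      rw [hi] at h1
      change a i = 0
      omega
    · have h20 : (2 : K) ≠ 0 := two_ne_zero
      let x : Kˣ := Units.mk0 2 h20
      let c : Tor K st := ⟨fun l => if l = i then x else if l = st i then x⁻¹ else 1, fun l => by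
        change (if st l = i then x else if st l = st i then x⁻¹ else 1) =
          (if l = i then x else if l = st i then x⁻¹ else 1)⁻¹
        by_cases h1 : l = i
        · subst h1
          rw [if_neg hi, if_pos rfl, if_pos rfl]
        · by_cases h2 : l = st i
          · subst h2
            rw [hst, if_pos rfl, if_neg hi, if_pos rfl, inv_inv]
          · rw [if_neg (fun h3 => h2 (by rw [← h3, hst])), if_neg (fun h3 => h1 (by
              rw [← hst l, h3, hst])), if_neg h1, if_neg h2, inv_one]⟩
      have h1 := h (1, c)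
      have hdet : ∀ l, LinearMap.det (rt r st l (1, c)) = ((c.1 l : Kˣ) : K) ^ finrank K (E l) := by
        intro l
        have h2 : rt r st l (1, c) = ((c.1 l : Kˣ) : K) • (1 : Module.End K (E l)) := by
          refine LinearMap.ext fun u => ?_
          rw [rt_apply, map_one]
          rfl
        rw [h2, LinearMap.det_smul, map_one, mul_one]
      rw [← Finset.mul_prod_erase _ _ (Finset.mem_univ i), ← Finset.mul_prod_erase _ _
        (Finset.mem_erase.2 ⟨hi, Finset.mem_univ (st i)⟩), Finset.prod_eq_one, mul_one] at h1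
      · have c1 : c.1 i = x := if_pos rfl
        have c2 : c.1 (st i) = x⁻¹ := by
          change (if st i = i then x else if st i = st i then x⁻¹ else 1) = x⁻¹
          rw [if_neg hi, if_pos rfl]
        have hfr : finrank K (E (st i)) = finrank K (E i) := finrank_st ω hnd st hst hor i
        rw [hdet, hdet, c1, c2, ha, hfr, Units.val_inv_eq_inv_val, inv_pow, inv_zpow, zpow_neg,
          inv_inv, ← zpow_add₀ (pow_ne_zero _ (Units.ne_zero x))] at h1
        have hx : ((x : Kˣ) : K) = 2 := rfl
        rw [hx, ← zpow_natCast, ← zpow_mul] at h1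
        have h3 : ((2 : ℚ) : K) = 2 := by norm_num
        have h4 : (2 : ℚ) ^ ((finrank K (E i) : ℤ) * (a i + a i)) = 1 := by
          have h5 : (((2 : ℚ) ^ ((finrank K (E i) : ℤ) * (a i + a i)) : ℚ) : K) = ((1 : ℚ) : K) := by
            rw [Rat.cast_zpow, h3, h1, Rat.cast_one]
          exact_mod_cast h5
        have h6 := (zpow_eq_one_iff_right₀ (by norm_num : (0 : ℚ) ≤ 2) (by norm_num)).1 h4
        have h7 : (finrank K (E i) : ℤ) ≠ 0 := by
          have := hpos i
          omega
        have h8 := (mul_eq_zero.1 h6).resolve_left h7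
        change a i = 0
        omega
      · intro l hl
        rw [Finset.mem_erase, Finset.mem_erase] at hl
        have c3 : c.1 l = 1 := by
          change (if l = i then x else if l = st i then x⁻¹ else 1) = 1
          rw [if_neg hl.2.1, if_neg hl.1]
        rw [hdet, c3, Units.val_one, one_pow, one_zpow]

end

end Pool.Agent.H62CT
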