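import Mathlib
import Pool.Agent.TH118.WC.Exp
import Pool.Agent.H62CT.PEnl

/-!
# The exponents of the determinants
-/

set_option linter.unusedSectionVars false

namespace Pool.Agent.H62CT

open Module Pool.Agent.H204R3.SP Pool.Agent.H204R3.GP Pool.Agent.W522.U Pool.Agent.TH118.WC

noncomputable section

variable {K : Type*} [Field K] [CharZero K]
  {I : Type*} [Fintype I] [DecidableEq I] {E : I → Type*} [∀ i, AddCommGroup (E i)]
  [∀ i, Module K (E i)] [∀ i, FiniteDimensional K (E i)] {G : Type*} [Group G]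
  {r : ∀ i, Representation K G (E i)} {χ : G →* K} {st : I → I}
  (ω : (∀ i, E i) →ₗ[K] (∀ i, E i) →ₗ[K] K) (halt : ∀ u, ω u u = 0)
  (hnd : ∀ u, (∀ w, ω u w = 0) → u = 0)
  (hωρ : ∀ g u v, ω (piRep r g u) (piRep r g v) = χ g * ω u v)
  (hst : ∀ i, st (st i) = i)
  (hor : ∀ i j, j ≠ st i → ∀ (u : E i) (v : E j), ω (Pi.single i u) (Pi.single j v) = 0)
  (hel : ∀ i, 2 ≤ finrank K (E i) → ∀ (u : E i) (φ : Dual K (E i)),
    Ty (K := K) (fun i => st i = i) (fun i => par ω i i) i u φ →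
    ∃ X ∈ hh r χ, X i = φ.smulRight u ∧ ∀ j, j ≠ i → j ≠ st i → X j = 0)
  (hirr : ∀ i, Irr (r i))
  (hpos : ∀ i, 0 < finrank K (E i))

include halt hnd hωρ hst hor hel hirr hpos in
theorem exists_exponents [IsAlgClosed K] {m : ℕ}
    (φ : MultilinearMap K (fun _ : Fin m × Fin 2 => ∀ i, E i) K) (hφ : IsTate (piRep r) χ m φ)
    (t : Fin m × Fin 2 → I) (v : ∀ k, E (t k)) (hv : φ (fun k => Pi.single (t k) (v k)) ≠ 0) :
    ∃ a : I → ℤ, (∀ i, (finrank K (E i) : ℤ) * a i = (cnt t i : ℤ) - cnt t (st i)) ∧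
      (∀ i, a (st i) = -a i) ∧ Even (∑ i, (-a i).toNat * finrank K (E i)) := by
  classical
  obtain ⟨n, e, lab, α, hlab, hlab', he0, he1, -, -⟩ :=
    exists_graded (r := r) (χ := χ) ω halt hnd hωρ st hst hor 1
  obtain ⟨J, hJt, hJ⟩ := exists_type e lab hlab φ t v hv
  have hW := Pi.weight_one ω halt hnd hωρ st hst hor hel e lab hlab hlab'
    he0 he1 φ hφ J hJ
  have hJt' : (fun k => lab (J k)) = t := funext hJt
  rw [hJt'] at hW
  have hex : ∀ i, ∃ y, lab y = i := by
    intro i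
    have h1 := hpos i
    rw [finrank_lab e lab hlab, Finset.card_pos] at h1
    obtain ⟨y, hy⟩ := h1
    exact ⟨y, (Finset.mem_filter.1 hy).2⟩
  choose y hy using hex
  have hfr := finrank_st ω hnd st hst hor
  let a : I → ℤ := fun i => (cnt J (y i) : ℤ) - cnt J (y i).swap
  have ha : ∀ i, (finrank K (E i) : ℤ) * a i = (cnt t i : ℤ) - cnt t (st i) := by
    intro i
    have h1 := hW (y i)
    rwa [hy] at h1
  have hne : ∀ i, (finrank K (E i) : ℤ) ≠ 0 := fun i => by
    have := hpos i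
    omega
  have hast : ∀ i, a (st i) = -a i := by
    intro i
    apply mul_left_cancel₀ (hne i)
    have h1 := ha (st i)
    rw [hfr, hst] at h1
    rw [h1, mul_neg, ha]
    ring
  have hay : ∀ z, a (lab z) = (cnt J z : ℤ) - cnt J z.swap := by
    intro z
    apply mul_left_cancel₀ (hne (lab z))
    rw [ha, ← hW z]
  refine ⟨a, ha, hast, ?_⟩
  -- the sum over the basis
  have h1 : ∑ i, (-a i).toNat * finrank K (E i) = ∑ z : Fin n ⊕ Fin n, (-a (lab z)).toNat := by
    rw [← Finset.sum_fiberwise (g := lab)]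
    refine Finset.sum_congr rfl fun i _ => ?_
    rw [finrank_lab e lab hlab, Finset.sum_congr rfl (g := fun _ => (-a i).toNat), Finset.sum_const,
      smul_eq_mul, mul_comm]
    intro z hz
    rw [(Finset.mem_filter.1 hz).2]
  have h2 : ∑ z : Fin n ⊕ Fin n, cnt J z = 2 * m := by
    unfold cnt
    rw [Finset.sum_comm]
    simp [mul_comm]
  rw [h1, Fintype.sum_sum_type, ← Finset.sum_add_distrib]
  rw [Fintype.sum_sum_type, ← Finset.sum_add_distrib] at h2
  have h3 : Even (∑ x : Fin n, (cnt J (Sum.inl x) + cnt J (Sum.inr x))) := by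
    rw [h2]
    exact even_two_mul m
  rw [Finset.even_sum_iff_even_card_odd] at h3 ⊢
  convert h3 using 3
  rename_i x _
  have h4 := hay (Sum.inl x)
  have h5 : (Sum.inl x : Fin n ⊕ Fin n).swap = Sum.inr x := rfl
  rw [h5] at h4
  have h6 : a (lab (Sum.inr x)) = -a (lab (Sum.inl x)) := by
    rw [← h5, hlab', hast]
  rw [h6, h4]
  rw [Nat.odd_iff, Nat.odd_iff]
  omega

end

end Pool.Agent.H62CT
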