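import Mathlib
import Pool.Agent.H62CT.Cas
import Pool.Agent.H62CT.PPi

/-!
# Elements of the Lie algebra of the Tate forms if the forms of degree four are decomposable
-/

set_option autoImplicit false
set_option linter.unusedSectionVars false

namespace Pool.Agent.H62CT

open Module Pool.Agent.H204R3.SP Pool.Agent.H204R3.GP Pool.Agent.W522.U Pool.Agent.H204R3.CM

noncomputable section

section sym

variable {K : Type} [Field K] [CharZero K] {X : Type} [AddCommGroup X] [Module K X]

/-- The operators `v ↦ ω (a, v) b + ω (b, v) a`. -/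
def ss (ω : X →ₗ[K] X →ₗ[K] K) (a b : X) : End K X :=
  (ω a).smulRight b + (ω b).smulRight a

theorem ss_apply (ω : X →ₗ[K] X →ₗ[K] K) (a b v : X) : ss ω a b v = ω a v • b + ω b v • a := rfl

variable (ω : X →ₗ[K] X →ₗ[K] K) (halt : ∀ u, ω u u = 0)

include halt in
theorem om_sk (u v : X) : ω u v = -ω v u := by
  have h1 := halt (u + v)
  simp only [map_add, LinearMap.add_apply, halt, zero_add, add_zero] at h1
  linear_combination h1

include halt in
theorem ss_skew (a b u v : X) : ω (ss ω a b u) v + ω u (ss ω a b v) = 0 := by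
  rw [ss_apply, ss_apply]
  simp only [map_add, map_smul, LinearMap.add_apply, LinearMap.smul_apply, smul_eq_mul]
  rw [om_sk ω halt u b, om_sk ω halt u a]
  ring

theorem ss_bracket {x : End K X} (hx : ∀ u v, ω (x u) v + ω u (x v) = 0) (a b : X) :
    x * ss ω a b - ss ω a b * x = ss ω (x a) b + ss ω a (x b) := by
  ext v
  simp only [LinearMap.sub_apply, LinearMap.add_apply, Module.End.mul_apply, ss_apply, map_add,
    map_smul]
  have h1 : ω a (x v) = -ω (x a) v := by linear_combination hx a v
  have h2 : ω b (x v) = -ω (x b) v := by linear_combination hx b v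
  rw [h1, h2]
  module

/-- An operator that kills the factors of a product kills the product. -/
theorem kills_mmG {m : ℕ} (σ : Equiv.Perm (Fin m × Fin 2)) (B : Fin m → (X →ₗ[K] X →ₗ[K] K))
    {x : End K X} (hx : ∀ l u v, B l (x u) v + B l u (x v) = 0) : Kills x (mmG σ B) := by
  classical
  intro v
  have h1 : ∑ k, mmG σ B (Function.update v k (x (v k))) =
      ∑ k, mmG σ B (Function.update v (σ k) (x (v (σ k)))) :=
    (Equiv.sum_comp σ (fun k => mmG σ B (Function.update v k (x (v k))))).symm
  rw [h1, Fintype.sum_prod_type]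
  refine Finset.sum_eq_zero fun l _ => ?_
  rw [Fin.sum_univ_two, mmG_apply, mmG_apply, ← Finset.mul_prod_erase _ _ (Finset.mem_univ l),
    ← Finset.mul_prod_erase _ _ (Finset.mem_univ l)]
  have h2 : ∀ (c : Fin 2) (s : Fin m), s ∈ Finset.univ.erase l → ∀ y : X,
      B s (Function.update v (σ (l, c)) y (σ (s, 0))) (Function.update v (σ (l, c)) y (σ (s, 1))) =
      B s (v (σ (s, 0))) (v (σ (s, 1))) := by
    intro c s hs y
    have hsl := Finset.ne_of_mem_erase hs
    rw [Function.update_of_ne, Function.update_of_ne]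
    · intro h
      exact hsl (congrArg Prod.fst (σ.injective h))
    · intro h
      exact hsl (congrArg Prod.fst (σ.injective h))
  rw [Finset.prod_congr rfl (fun s hs => h2 0 s hs _), Finset.prod_congr rfl
    (fun s hs => h2 1 s hs _), ← add_mul, Function.update_self, Function.update_self,
    Function.update_of_ne, Function.update_of_ne, hx, zero_mul]
  · intro h
    have := congrArg Prod.snd (σ.injective h)
    exact absurd this (by simp)
  · intro h
    have := congrArg Prod.snd (σ.injective h)
    exact absurd this (by simp)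

theorem kills_span {Γ : Type} [Group Γ] {R : Representation K Γ X} {χ : Γ →* K} {m : ℕ}
    {x : End K X} (hx : ∀ B, IsTate2 R χ B → ∀ u v, B (x u) v + B u (x v) = 0)
    {φ : MultilinearMap K (fun _ : Fin m × Fin 2 => X) K}
    (hφ : φ ∈ Submodule.span K (PT R χ m)) : Kills x φ := by
  induction hφ using Submodule.span_induction with
  | mem φ hφ =>
    obtain ⟨σ, B, hB, rfl⟩ := hφ
    exact kills_mmG σ B fun l => hx _ (hB l)
  | zero =>
    intro v
    exact Finset.sum_eq_zero fun k _ => rfl
  | add φ ψ _ _ h1 h2 =>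
    intro v
    have h3 : ∑ k, (φ + ψ) (Function.update v k (x (v k))) =
        ∑ k, φ (Function.update v k (x (v k))) + ∑ k, ψ (Function.update v k (x (v k))) :=
      Finset.sum_add_distrib
    rw [h3, h1, h2, add_zero]
  | smul c φ _ h1 =>
    intro v
    have h3 : ∑ k, (c • φ) (Function.update v k (x (v k))) =
        c * ∑ k, φ (Function.update v k (x (v k))) := (Finset.mul_sum _ _ _).symm
    rw [h3, h1, mul_zero]

end sym

section pi

variable {K : Type} [Field K] [CharZero K] [IsAlgClosed K]
  {I : Type} [Fintype I] [DecidableEq I] {E : I → Type} [∀ i, AddCommGroup (E i)]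
  [∀ i, Module K (E i)] [∀ i, FiniteDimensional K (E i)] {G : Type} [Group G]
  {r : ∀ i, Representation K G (E i)} {χ : G →* K} {st : I → I}
  (ω : (∀ i, E i) →ₗ[K] (∀ i, E i) →ₗ[K] K) (halt : ∀ u, ω u u = 0)
  (hnd : ∀ u, (∀ w, ω u w = 0) → u = 0)
  (hωρ : ∀ g u v, ω (piRep r g u) (piRep r g v) = χ g * ω u v)
  (hst : ∀ i, st (st i) = i)
  (hor : ∀ i j, j ≠ st i → ∀ (u : E i) (v : E j), ω (Pi.single i u) (Pi.single j v) = 0)
  (hirr : ∀ i, Irr (r i))
  (hdist : ∀ i j, i ≠ j → ∀ (Δ : Subgroup G), Δ.FiniteIndex → ∀ T : E i →ₗ[K] E j,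
    (∀ g ∈ Δ, ∀ u, T (r i g u) = r j g (T u)) → T = 0)
  (hlog : ∀ (m : ℕ) (φ : MultilinearMap K (fun _ : Fin m × Fin 2 => ∀ i, E i) K),
    (∀ x ∈ lieT (piRep r) χ, Kills x φ) → IsTate (piRep r) χ m φ)
  (h4 : ∀ φ : MultilinearMap K (fun _ : Fin 2 × Fin 2 => ∀ i, E i) K,
    IsTate (piRep r) χ 2 φ → φ ∈ Submodule.span K (PT (piRep r) χ 2))

/-- Schur's lemma. -/
theorem schur_irr {U : Type} [AddCommGroup U] [Module K U] [FiniteDimensional K U]
    {ρ : Representation K G U} (h : Irr ρ) (Δ : Subgroup G) (hΔ : Δ.FiniteIndex) (T : End K U)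
    (hT : ∀ g ∈ Δ, ∀ u, T (ρ g u) = ρ g (T u)) : ∃ c : K, ∀ u, T u = c • u := by
  by_cases h0 : Nontrivial U
  · obtain ⟨c, hc⟩ := Module.End.exists_eigenvalue T
    refine ⟨c, ?_⟩
    rcases h Δ hΔ (T.eigenspace c) (fun s hs u hu => by
      rw [Module.End.mem_eigenspace_iff] at hu ⊢
      rw [hT s hs, hu, map_smul]) with h1 | h1
    · exact absurd h1 hc
    · intro u
      have h2 : u ∈ T.eigenspace c := by
        rw [h1]
        trivial
      exact Module.End.mem_eigenspace_iff.1 h2
  · rw [not_nontrivial_iff_subsingleton] at h0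
    exact ⟨0, fun u => Subsingleton.elim _ _⟩

/-- The block scalar operators. -/
def bs (c : I → K) : End K (∀ i, E i) := LinearMap.pi fun i => c i • LinearMap.proj i

theorem bs_apply (c : I → K) (u : ∀ i, E i) (i : I) : bs c u i = c i • u i := rfl

theorem bs_single (c : I → K) (i : I) (u : E i) :
    bs c (Pi.single i u) = c i • (Pi.single i u : ∀ i, E i) := by
  funext j
  rw [bs_apply, Pi.smul_apply]
  by_cases h : j = i
  · subst h
    rfl
  · rw [Pi.single_eq_of_ne h, smul_zero, smul_zero]

include hirr hdist in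
/-- Potentially equivariant operators are block scalar. -/
theorem eq_bs (Δ : Subgroup G) (hΔ : Δ.FiniteIndex) (P : End K (∀ i, E i))
    (hP : ∀ g ∈ Δ, ∀ v, P (piRep r g v) = piRep r g (P v)) : ∃ c : I → K, P = bs c := by
  let T : ∀ i j, E i →ₗ[K] E j := fun i j =>
    (LinearMap.proj j).comp (P.comp (LinearMap.single K E i))
  have hT : ∀ i j g, g ∈ Δ → ∀ u, T i j (r i g u) = r j g (T i j u) := by
    intro i j g hg u
    change P (Pi.single i (r i g u)) j = r j g (P (Pi.single i u) j)
    rw [← piRep_single, hP g hg]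
    rfl
  choose c hc using fun i => schur_irr (hirr i) Δ hΔ (T i i) (hT i i)
  refine ⟨c, LinearMap.pi_ext fun i u => ?_⟩
  rw [bs_single]
  funext j
  rw [Pi.smul_apply]
  by_cases h : j = i
  · subst h
    rw [Pi.single_eq_same]
    exact hc j u
  · rw [Pi.single_eq_of_ne h, smul_zero]
    have h1 := hdist i j (Ne.symm h) Δ hΔ (T i j) (hT i j)
    exact congrArg (fun f : E i →ₗ[K] E j => f u) h1

include hnd hωρ hirr hdist in
/-- The bilinear Tate forms. -/
theorem tate2_bs {B : (∀ i, E i) →ₗ[K] (∀ i, E i) →ₗ[K] K} (hB : IsTate2 (piRep r) χ B) :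
    ∃ c : I → K, ∀ u v, B u v = ω (bs c u) v := by
  obtain ⟨Δ, hΔ, hB⟩ := hB
  have hinj : Function.Injective ω := by
    rw [injective_iff_map_eq_zero]
    intro u hu
    exact hnd u fun v => by rw [hu, LinearMap.zero_apply]
  have hbij : Function.Bijective ω := ⟨hinj,
    (LinearMap.injective_iff_surjective_of_finrank_eq_finrank
      (Subspace.dual_finrank_eq).symm).1 hinj⟩
  let e := LinearEquiv.ofBijective ω hbij
  let P : End K (∀ i, E i) := e.symm.toLinearMap.comp B
  have hPB : ∀ u v, ω (P u) v = B u v := fun u v =>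
    congrArg (fun f : (∀ i, E i) →ₗ[K] K => f v) (e.apply_symm_apply (B u))
  obtain ⟨c, hc⟩ := eq_bs hirr hdist Δ hΔ P (by
    intro g hg v
    rw [← sub_eq_zero]
    apply hnd
    intro w
    rw [map_sub, LinearMap.sub_apply, hPB]
    have h1 : w = piRep r g (piRep r g⁻¹ w) := (rho_inv' (piRep r) g w).symm
    rw [h1, hB g hg, hωρ, hPB, sub_self])
  exact ⟨c, fun u v => by rw [← hc, hPB]⟩

/-- Block diagonal skew operators. -/
def BD (ω : (∀ i, E i) →ₗ[K] (∀ i, E i) →ₗ[K] K) (x : End K (∀ i, E i)) : Prop :=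
  (∀ u v, ω (x u) v + ω u (x v) = 0) ∧ ∀ c : I → K, x * bs c = bs c * x

include hnd hωρ hirr hdist in
/-- Block diagonal skew operators kill the bilinear Tate forms. -/
theorem bd_tate2 {x : End K (∀ i, E i)} (hx : BD ω x)
    {B : (∀ i, E i) →ₗ[K] (∀ i, E i) →ₗ[K] K} (hB : IsTate2 (piRep r) χ B) (u v : ∀ i, E i) :
    B (x u) v + B u (x v) = 0 := by
  obtain ⟨c, hc⟩ := tate2_bs ω hnd hωρ hirr hdist hB
  have h1 : bs c (x u) = x (bs c u) :=
    congrArg (fun f : End K (∀ i, E i) => f u) (hx.2 c).symm
  rw [hc, hc, h1, hx.1]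

include hnd hωρ hirr hdist hlog in
/-- Operators that commute with the Lie algebra are block scalar. -/
theorem bs_of_comm {z : End K (∀ i, E i)}
    (hz : ∀ y ∈ lieT (piRep r) χ, z * y = y * z) : ∃ c : I → K, z = bs c := by
  have hT : IsTate (piRep r) χ 1 (prodMap (fun _ : Fin 1 => bil2 (ω.comp z))) := by
    refine hlog 1 _ fun y hy v => ?_
    rw [Fintype.sum_prod_type, Fin.sum_univ_one, Fin.sum_univ_two]
    simp only [prodMap_apply, Fin.prod_univ_one, bil2_apply, LinearMap.comp_apply]
    rw [Function.update_self, Function.update_self, Function.update_of_ne (by simp),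
      Function.update_of_ne (by simp)]
    have h1 : z (y (v (0, 0))) = y (z (v (0, 0))) :=
      congrArg (fun f : End K (∀ i, E i) => f (v (0, 0))) (hz y hy)
    rw [h1]
    exact lieT_sp (piRep r) χ ω hωρ hy _ _
  have hB : IsTate2 (piRep r) χ (ω.comp z) := by
    obtain ⟨Δ, hΔ, h⟩ := hT
    refine ⟨Δ, hΔ, fun s hs u v => ?_⟩
    have h1 := h s hs (fun k => if k.2 = 0 then u else v)
    simp only [prodMap_apply, Fin.prod_univ_one, bil2_apply, pow_one] at h1
    simpa using h1
  obtain ⟨c, hc⟩ := tate2_bs ω hnd hωρ hirr hdist hB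
  refine ⟨c, LinearMap.ext fun u => ?_⟩
  rw [← sub_eq_zero]
  apply hnd
  intro w
  rw [map_sub, LinearMap.sub_apply, sub_eq_zero]
  exact hc u w

include hnd hωρ hirr hdist hlog h4 in
/-- The commutators of block diagonal skew operators are in the Lie algebra. -/
theorem bd_bracket (hss : HasProj (piRep r)) {x y : End K (∀ i, E i)} (hx : BD ω x)
    (hy : BD ω y) : x * y - y * x ∈ lieT (piRep r) χ := by
  obtain ⟨π, h1, -, hT, h2⟩ := exists_decomp ω hnd hωρ hss
  have key : ∀ x, BD ω x → ∃ c : I → K, x - π x = bs c := fun x hx =>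
    bs_of_comm ω hnd hωρ hirr hdist hlog (h2 x hx.1 (kills_span
      (fun B hB => bd_tate2 ω hnd hωρ hirr hdist hx hB) (h4 _ hT)))
  obtain ⟨c, hc⟩ := key x hx
  obtain ⟨d, hd⟩ := key y hy
  have hc' := h2 x hx.1 (kills_span
      (fun B hB => bd_tate2 ω hnd hωρ hirr hdist hx hB) (h4 _ hT))
  have hd' := h2 y hy.1 (kills_span
      (fun B hB => bd_tate2 ω hnd hωρ hirr hdist hy hB) (h4 _ hT))
  have e1 : x = π x + bs c := by rw [← hc]; abel
  have e2 : y = π y + bs d := by rw [← hd]; abel
  have e3 : bs (E := E) c * bs d = bs d * bs c := by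
    refine LinearMap.ext fun u => ?_
    funext i
    rw [Module.End.mul_apply, Module.End.mul_apply, bs_apply, bs_apply, bs_apply, bs_apply,
      smul_smul, smul_smul, mul_comm]
  have e4 := hc' _ (h1 y)
  have e5 := hd' _ (h1 x)
  rw [hc] at e4
  rw [hd] at e5
  have e6 : x * y - y * x = π x * π y - π y * π x := by
    conv_lhs => rw [e1, e2]
    simp only [mul_add, add_mul]
    rw [e3, e4, e5]
    abel
  rw [e6]
  exact lieT_bracket (piRep r) χ (h1 x) (h1 y)

include halt hor in
/-- The basic block diagonal operators. -/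
theorem bd_ss (i j : I) (hj : j = st i) (hst : ∀ i, st (st i) = i) (a : E i) (b : E j) :
    BD ω (ss ω (Pi.single i a) (Pi.single j b)) := by
  refine ⟨fun u v => ss_skew ω halt _ _ u v, fun c => ?_⟩
  refine LinearMap.pi_ext fun k w => ?_
  rw [Module.End.mul_apply, Module.End.mul_apply, bs_single, map_smul, ss_apply, map_add, map_smul,
    map_smul, bs_single, bs_single, smul_add, smul_comm (c k), smul_comm (c k)]
  congr 1
  · by_cases h : k = j
    · rw [congrArg c h]
    · have h1 : ω (Pi.single i a) (Pi.single k w) = 0 := hor i k (by rw [← hj]; exact h) a w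
      rw [h1, zero_smul, zero_smul]
  · by_cases h : k = i
    · rw [congrArg c h]
    · have h1 : ω (Pi.single j b) (Pi.single k w) = 0 := hor j k (by
        rw [hj, hst]
        exact h) b w
      rw [h1, zero_smul, zero_smul]

include halt hnd hωρ hst hor hirr hdist hlog h4 in
/-- All rank one operators of one component. -/
theorem hel_of_four (hss : HasProj (piRep r)) : ∀ i, 2 ≤ finrank K (E i) →
    ∀ (u : E i) (φ : Dual K (E i)), Ty (K := K) (fun i => st i = i) (fun i => par ω i i) i u φ →
    ∃ X ∈ hh r χ, X i = φ.smulRight u ∧ ∀ j, j ≠ i → j ≠ st i → X j = 0 := by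
  intro i _ u φ hT
  by_cases hu0 : u = 0
  · subst hu0
    refine ⟨0, Submodule.zero_mem _, ?_, fun j _ _ => rfl⟩
    ext v
    simp
  -- the functional is given by `b`
  obtain ⟨b, hb⟩ : ∃ b : E (st i), ∀ v, ω (Pi.single (st i) b) (Pi.single i v) = φ v := by
    obtain ⟨b, hb⟩ := (par_bij ω hnd st hst hor (st i) i (hst i).symm).2 φ
    exact ⟨b, fun v => congrArg (fun f : Dual K (E i) => f v) hb⟩
  obtain ⟨b', hb'⟩ : ∃ b' : E (st i), ω (Pi.single i u) (Pi.single (st i) b') = 1 := by
    have h1 : (Pi.single i u : ∀ i, E i) ≠ 0 := by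
      intro h
      apply hu0
      have h2 := congrFun h i
      rwa [Pi.single_eq_same] at h2
    obtain ⟨w, hw⟩ : ∃ w, ω (Pi.single i u) w ≠ 0 := by
      by_contra hcon
      push Not at hcon
      exact h1 (hnd _ hcon)
    have h2 : ω (Pi.single i u) (Pi.single (st i) (w (st i))) = ω (Pi.single i u) w := by
      conv_rhs => rw [← Finset.univ_sum_single w, map_sum]
      rw [Finset.sum_eq_single (st i)]
      · intro k _ hk
        exact hor i k hk _ _
      · intro h
        exact absurd (Finset.mem_univ _) h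
    refine ⟨(ω (Pi.single i u) w)⁻¹ • w (st i), ?_⟩
    rw [Pi.single_smul, map_smul, smul_eq_mul, h2, inv_mul_cancel₀ hw]
  set a : ∀ i, E i := Pi.single i u with ha
  set B : ∀ i, E i := Pi.single (st i) b with hB
  set B' : ∀ i, E i := Pi.single (st i) b' with hB'
  have hsk := om_sk ω halt
  set h : End K (∀ i, E i) := ss ω a B' with hhd
  have hbd : BD ω h := bd_ss ω halt hor i (st i) rfl hst u b'
  have hbdN : BD ω (ss ω a B) := bd_ss ω halt hor i (st i) rfl hst u b
  have hha : h a = -a := by
    rw [hhd, ss_apply, halt, zero_smul, zero_add, hsk B' a, hb', neg_smul, one_smul]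
  have hBa : ω B a = 0 := by
    rw [hB, ha, hb]
    exact hT.1
  have hwB : ∀ w, ω B w = φ (w i) := by
    intro w
    conv_lhs => rw [← Finset.univ_sum_single w, map_sum]
    rw [Finset.sum_eq_single i, hB, hb]
    · intro k _ hk
      exact hor (st i) k (by rw [hst]; exact hk) _ _
    · intro h
      exact absurd (Finset.mem_univ _) h
  have hwa : ∀ w, ω a w = ω a (Pi.single (st i) (w (st i))) := by
    intro w
    conv_lhs => rw [← Finset.univ_sum_single w, map_sum]
    rw [Finset.sum_eq_single (st i)]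
    · intro k _ hk
      exact hor i k hk _ _
    · intro h
      exact absurd (Finset.mem_univ _) h
  have hbr := bd_bracket ω hnd hωρ hirr hdist hlog h4 hss hbd hbdN
  rw [ss_bracket ω hbd.1, hha] at hbr
  -- from a multiple of `ss ω a B` in the Lie algebra to the family
  have fin : ∀ t : K, t • ss ω a B ∈ lieT (piRep r) χ →
      (∀ x : E i, t • ss ω a B (Pi.single i x) = φ x • a) →
      ∃ X ∈ hh r χ, X i = φ.smulRight u ∧ ∀ j, j ≠ i → j ≠ st i → X j = 0 := by
    intro t ht hx
    obtain ⟨X', hX', hXN⟩ := lieT_block ω hnd hωρ ht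
    refine ⟨X', hX', ?_, fun j hj hj' => ?_⟩
    · ext x
      have h1 := congrArg (fun f : End K (∀ i, E i) => f (Pi.single i x) i) hXN
      simp only [LinearMap.smul_apply, blk_single, Pi.single_eq_same] at h1
      rw [← h1, hx, LinearMap.smulRight_apply, Pi.smul_apply, ha, Pi.single_eq_same]
    · ext x
      have h1 := congrArg (fun f : End K (∀ i, E i) => f (Pi.single j x) j) hXN
      simp only [LinearMap.smul_apply, blk_single, Pi.single_eq_same] at h1
      have h2 : ω a (Pi.single j x) = 0 := hor i j hj' _ _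
      have h3 : ω B (Pi.single j x) = 0 := hor (st i) j (by rw [hst]; exact hj) _ _
      rw [← h1, ss_apply, h2, h3, zero_smul, zero_smul, add_zero, smul_zero]
      rfl
  by_cases hi : st i = i
  · -- the symplectic case
    obtain ⟨c, hc⟩ := hT.2 hi
    have hca : ∀ x : E i, c * ω a (Pi.single i x) = φ x := by
      intro x
      rw [hc]
      rfl
    have hB1 : B = c • a := by
      rw [← sub_eq_zero]
      apply hnd
      intro w
      rw [map_sub, LinearMap.sub_apply, map_smul, LinearMap.smul_apply, hwB, ← hca, smul_eq_mul]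
      have h2 : ω a w = ω a (Pi.single i (w i)) := by
        conv_lhs => rw [← Finset.univ_sum_single w, map_sum]
        rw [Finset.sum_eq_single i]
        · intro k _ hk
          exact hor i k (by rw [hi]; exact hk) _ _
        · intro h
          exact absurd (Finset.mem_univ _) h
      rw [h2, sub_self]
    have hhB : h B = -B := by
      rw [hB1, map_smul, hha, smul_neg]
    refine fin (1 / 2) ?_ fun x => ?_
    · have h5 : (1 / 2 : K) • ss ω a B = (-(1 / 4) : K) • (ss ω (-a) B + ss ω a (h B)) := by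
        rw [hhB]
        refine LinearMap.ext fun v => ?_
        simp only [LinearMap.smul_apply, LinearMap.add_apply, ss_apply, map_neg,
          LinearMap.neg_apply]
        module
      rw [h5]
      exact Submodule.smul_mem _ _ hbr
    · have h6 : ω B (Pi.single i x) = φ x := by rw [hwB, Pi.single_eq_same]
      rw [ss_apply, h6, hB1, smul_smul (ω a (Pi.single i x)), mul_comm (ω a (Pi.single i x)), hca]
      module
  · have hne : st i ≠ i := hi
    have hhB : h B = 0 := by
      rw [hhd, ss_apply, hsk a B, hBa, neg_zero, zero_smul, zero_add]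
      have h7 : ω B' B = 0 := hor (st i) (st i) (by rw [hst]; exact hne) _ _
      rw [h7, zero_smul]
    refine fin 1 ?_ fun x => ?_
    · have h5 : (1 : K) • ss ω a B = (-1 : K) • (ss ω (-a) B + ss ω a (h B)) := by
        rw [hhB]
        refine LinearMap.ext fun v => ?_
        simp only [LinearMap.smul_apply, LinearMap.add_apply, ss_apply, map_neg,
          LinearMap.neg_apply, map_zero, LinearMap.zero_apply, smul_zero, zero_smul]
        module
      rw [h5]
      exact Submodule.smul_mem _ _ hbr
    · have h6 : ω B (Pi.single i x) = φ x := by rw [hwB, Pi.single_eq_same]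
      have h7 : ω a (Pi.single i x) = 0 := hor i i (Ne.symm hne) _ _
      rw [one_smul, ss_apply, h6, h7, zero_smul, zero_add]

end pi

end

end Pool.Agent.H62CT
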