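import Mathlib
import Pool.Agent.H62CT.El

/-!
# Elements of the Lie algebra of the Tate forms if the forms of degree four are killed by the block
# diagonal operators without traces
-/

set_option autoImplicit false
set_option linter.unusedSectionVars false

namespace Pool.Agent.H62CT.El2

open Module Pool.Agent.H204R3.SP Pool.Agent.H204R3.GP Pool.Agent.W522.U Pool.Agent.H204R3.CM
open Pool.Agent.H62CT

noncomputable section

variable {K : Type} [Field K] [CharZero K] [IsAlgClosed K]
  {I : Type} [Fintype I] [DecidableEq I] {E : I → Type} [∀ i, AddCommGroup (E i)]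
  [∀ i, Module K (E i)] [∀ i, FiniteDimensional K (E i)] {G : Type} [Group G]
  {r : ∀ i, Representation K G (E i)} {χ : G →* K} {st : I → I}

/-- The blocks of an operator. -/
def bl (x : End K (∀ i, E i)) (i : I) : End K (E i) :=
  (LinearMap.proj i).comp (x.comp (LinearMap.single K E i))

theorem bl_apply (x : End K (∀ i, E i)) (i : I) (u : E i) : bl x i u = x (Pi.single i u) i := rfl

variable
  (ω : (∀ i, E i) →ₗ[K] (∀ i, E i) →ₗ[K] K) (halt : ∀ u, ω u u = 0)
  (hnd : ∀ u, (∀ w, ω u w = 0) → u = 0)
  (hωρ : ∀ g u v, ω (piRep r g u) (piRep r g v) = χ g * ω u v)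
  (hst : ∀ i, st (st i) = i)
  (hor : ∀ i j, j ≠ st i → ∀ (u : E i) (v : E j), ω (Pi.single i u) (Pi.single j v) = 0)
  (hirr : ∀ i, Irr (r i))
  (hdist : ∀ i j, i ≠ j → ∀ (Δ : Subgroup G), Δ.FiniteIndex → ∀ T : E i →ₗ[K] E j,
    (∀ g ∈ Δ, ∀ u, T (r i g u) = r j g (T u)) → T = 0)
  (hlog : ∀ (m : ℕ) (φ : MultilinearMap K (fun _ : Fin m × Fin 2 => ∀ i, E i) K),
    (∀ x ∈ lieT (piRep r) χ, Kills x φ) → IsTate (piRep r) χ m φ)
  (hpos : ∀ i, 0 < finrank K (E i))
  (hk : ∀ x, BD ω x → (∀ i, LinearMap.trace K (E i) (bl x i) = 0) →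
    ∀ φ : MultilinearMap K (fun _ : Fin 2 × Fin 2 => ∀ i, E i) K, IsTate (piRep r) χ 2 φ →
      Kills x φ)

/-- Operators that commute with the block scalars are block diagonal. -/
theorem bd_single {x : End K (∀ i, E i)} (hx : ∀ c : I → K, x * bs c = bs c * x) (i : I)
    (u : E i) : x (Pi.single i u) = Pi.single i (bl x i u) := by
  have h1 := congrArg (fun f : End K (∀ i, E i) => f (Pi.single i u)) (hx (Pi.single i 1))
  simp only [Module.End.mul_apply] at h1
  rw [bs_single, Pi.single_eq_same, one_smul] at h1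
  funext j
  by_cases h : j = i
  · subst h
    rw [Pi.single_eq_same]
    rfl
  · rw [h1, bs_apply, Pi.single_eq_of_ne h, Pi.single_eq_of_ne h, zero_smul]

include hnd hst hor in
/-- Dual blocks have opposite traces. -/
theorem trace_st {x : End K (∀ i, E i)} (hx : BD ω x) (i : I) :
    LinearMap.trace K (E (st i)) (bl x (st i)) = -LinearMap.trace K (E i) (bl x i) := by
  let e : E i ≃ₗ[K] Dual K (E (st i)) :=
    LinearEquiv.ofBijective (par ω i (st i)) (par_bij ω hnd st hst hor i (st i) rfl)
  have he : ∀ u v, e u v = ω (Pi.single i u) (Pi.single (st i) v) := fun u v => rfl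
  have h1 : e.conj (bl x i) = (-1 : K) • (Module.Dual.transpose (R := K) (bl x (st i))) := by
    refine LinearMap.ext fun φ => ?_
    obtain ⟨u, rfl⟩ := e.surjective φ
    refine LinearMap.ext fun v => ?_
    rw [LinearEquiv.conj_apply_apply, e.symm_apply_apply, he, ← bd_single hx.2]
    have h2 := hx.1 (Pi.single i u) (Pi.single (st i) v)
    rw [bd_single hx.2 (st i) v] at h2
    change _ = (-1 : K) * (e u (bl x (st i) v))
    rw [he]
    linear_combination h2
  rw [← LinearMap.trace_conj' (bl x i) e, h1, map_smul, LinearMap.trace_transpose', smul_eq_mul]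
  ring

include hor in
/-- Block scalars that are skew. -/
theorem bd_bs {c : I → K} (hc : ∀ i, c (st i) = -c i) : BD ω (bs c) := by
  refine ⟨fun u v => ?_, fun d => ?_⟩
  · have h1 : ω.comp (bs c) = -(ω.compl₂ (bs c)) := by
      refine LinearMap.pi_ext fun i a => LinearMap.pi_ext fun j b => ?_
      rw [LinearMap.comp_apply, LinearMap.neg_apply, LinearMap.neg_apply, LinearMap.compl₂_apply,
        bs_single, bs_single, map_smul, LinearMap.smul_apply, map_smul, smul_eq_mul, smul_eq_mul]
      by_cases h : j = st i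
      · subst h
        rw [hc]
        ring
      · rw [hor i j h]
        ring
    have h2 := congrArg (fun f : (∀ i, E i) →ₗ[K] (∀ i, E i) →ₗ[K] K => f u v) h1
    simp only [LinearMap.comp_apply, LinearMap.neg_apply, LinearMap.compl₂_apply] at h2
    rw [h2, neg_add_cancel]
  · refine LinearMap.ext fun u => ?_
    funext i
    rw [Module.End.mul_apply, Module.End.mul_apply, bs_apply, bs_apply, bs_apply, bs_apply,
      smul_smul, smul_smul, mul_comm]

theorem bd_sub {x y : End K (∀ i, E i)} (hx : BD ω x) (hy : BD ω y) : BD ω (x - y) := by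
  refine ⟨fun u v => ?_, fun c => ?_⟩
  · have h1 := hx.1 u v
    have h2 := hy.1 u v
    simp only [LinearMap.sub_apply, map_sub]
    linear_combination h1 - h2
  · rw [sub_mul, mul_sub, hx.2, hy.2]

include hnd hst hor hpos in
/-- Splitting off the traces. -/
theorem split_trace {x : End K (∀ i, E i)} (hx : BD ω x) : ∃ (c : I → K) (x' : End K (∀ i, E i)),
    BD ω x' ∧ (∀ i, LinearMap.trace K (E i) (bl x' i) = 0) ∧ x = x' + bs c := by
  have hf : ∀ i, (finrank K (E i) : K) ≠ 0 := fun i => Nat.cast_ne_zero.2 (hpos i).ne'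
  let c : I → K := fun i => LinearMap.trace K (E i) (bl x i) / finrank K (E i)
  have hc : ∀ i, c (st i) = -c i := by
    intro i
    change LinearMap.trace K (E (st i)) (bl x (st i)) / finrank K (E (st i)) =
      -(LinearMap.trace K (E i) (bl x i) / finrank K (E i))
    rw [trace_st ω hnd hst hor hx, finrank_st ω hnd st hst hor i, neg_div]
  refine ⟨c, x - bs c, bd_sub ω hx (bd_bs ω hor hc), fun i => ?_, by abel⟩
  have h1 : bl (x - bs c) i = bl x i - c i • (1 : End K (E i)) := by
    refine LinearMap.ext fun u => ?_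
    rw [bl_apply, LinearMap.sub_apply, Pi.sub_apply, bs_single, Pi.smul_apply, Pi.single_eq_same,
      LinearMap.sub_apply, bl_apply, LinearMap.smul_apply, Module.End.one_apply]
  rw [h1, map_sub, map_smul, LinearMap.trace_one, smul_eq_mul]
  change _ - LinearMap.trace K (E i) (bl x i) / finrank K (E i) * _ = 0
  rw [div_mul_cancel₀ _ (hf i), sub_self]

include hnd hωρ hst hor hirr hdist hlog hpos hk in
/-- The commutators of block diagonal skew operators are in the Lie algebra. -/
theorem bd_bracket' (hss : HasProj (piRep r)) {x y : End K (∀ i, E i)} (hx : BD ω x)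
    (hy : BD ω y) : x * y - y * x ∈ lieT (piRep r) χ := by
  obtain ⟨π, h1, -, hT, h2⟩ := exists_decomp ω hnd hωρ hss
  have hbb : ∀ c d : I → K, bs (E := E) c * bs d = bs d * bs c := by
    intro c d
    refine LinearMap.ext fun u => ?_
    funext i
    rw [Module.End.mul_apply, Module.End.mul_apply, bs_apply, bs_apply, bs_apply, bs_apply,
      smul_smul, smul_smul, mul_comm]
  obtain ⟨c₀, x', hx', htx, rfl⟩ := split_trace ω hnd hst hor hpos hx
  obtain ⟨d₀, y', hy', hty, rfl⟩ := split_trace ω hnd hst hor hpos hy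
  have e0 : (x' + bs c₀) * (y' + bs d₀) - (y' + bs d₀) * (x' + bs c₀) = x' * y' - y' * x' := by
    simp only [mul_add, add_mul]
    rw [hx'.2, hy'.2, hbb c₀ d₀]
    abel
  rw [e0]
  have hc' := h2 x' hx'.1 (hk x' hx' htx _ hT)
  have hd' := h2 y' hy'.1 (hk y' hy' hty _ hT)
  obtain ⟨c, hc⟩ := bs_of_comm ω hnd hωρ hirr hdist hlog hc'
  obtain ⟨d, hd⟩ := bs_of_comm ω hnd hωρ hirr hdist hlog hd'
  have e1 : x' = π x' + bs c := by rw [← hc]; abel
  have e2 : y' = π y' + bs d := by rw [← hd]; abel
  have e4 := hc' _ (h1 y')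
  have e5 := hd' _ (h1 x')
  rw [hc] at e4
  rw [hd] at e5
  have e6 : x' * y' - y' * x' = π x' * π y' - π y' * π x' := by
    conv_lhs => rw [e1, e2]
    simp only [mul_add, add_mul]
    rw [hbb c d, e4, e5]
    abel
  rw [e6]
  exact lieT_bracket (piRep r) χ (h1 x') (h1 y')

include halt hnd hωρ hst hor hirr hdist hlog hpos hk in
/-- All rank one operators of one component. -/
theorem hel_of_kills (hss : HasProj (piRep r)) : ∀ i, 2 ≤ finrank K (E i) →
    ∀ (u : E i) (φ : Dual K (E i)), Ty (K := K) (fun i => st i = i) (fun i => par ω i i) i u φ →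
    ∃ X ∈ hh r χ, X i = φ.smulRight u ∧ ∀ j, j ≠ i → j ≠ st i → X j = 0 := by
  intro i _ u φ hT
  by_cases hu0 : u = 0
  · subst hu0
    refine ⟨0, Submodule.zero_mem _, ?_, fun j _ _ => rfl⟩
    ext v
    simp
  -- the functional is given by `b`
  obtain ⟨b, hb⟩ : ∃ b : E (st i), ∀ v, ω (Pi.single (st i) b) (Pi.single i v) = φ v := by
    obtain ⟨b, hb⟩ := (par_bij ω hnd st hst hor (st i) i (hst i).symm).2 φ
    exact ⟨b, fun v => congrArg (fun f : Dual K (E i) => f v) hb⟩
  obtain ⟨b', hb'⟩ : ∃ b' : E (st i), ω (Pi.single i u) (Pi.single (st i) b') = 1 := by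
    have h1 : (Pi.single i u : ∀ i, E i) ≠ 0 := by
      intro h
      apply hu0
      have h2 := congrFun h i
      rwa [Pi.single_eq_same] at h2
    obtain ⟨w, hw⟩ : ∃ w, ω (Pi.single i u) w ≠ 0 := by
      by_contra hcon
      push Not at hcon
      exact h1 (hnd _ hcon)
    have h2 : ω (Pi.single i u) (Pi.single (st i) (w (st i))) = ω (Pi.single i u) w := by
      conv_rhs => rw [← Finset.univ_sum_single w, map_sum]
      rw [Finset.sum_eq_single (st i)]
      · intro k _ hk
        exact hor i k hk _ _
      · intro h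
        exact absurd (Finset.mem_univ _) h
    refine ⟨(ω (Pi.single i u) w)⁻¹ • w (st i), ?_⟩
    rw [Pi.single_smul, map_smul, smul_eq_mul, h2, inv_mul_cancel₀ hw]
  set a : ∀ i, E i := Pi.single i u with ha
  set B : ∀ i, E i := Pi.single (st i) b with hB
  set B' : ∀ i, E i := Pi.single (st i) b' with hB'
  have hsk := om_sk ω halt
  set h : End K (∀ i, E i) := ss ω a B' with hhd
  have hbd : BD ω h := bd_ss ω halt hor i (st i) rfl hst u b'
  have hbdN : BD ω (ss ω a B) := bd_ss ω halt hor i (st i) rfl hst u b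
  have hha : h a = -a := by
    rw [hhd, ss_apply, halt, zero_smul, zero_add, hsk B' a, hb', neg_smul, one_smul]
  have hBa : ω B a = 0 := by
    rw [hB, ha, hb]
    exact hT.1
  have hwB : ∀ w, ω B w = φ (w i) := by
    intro w
    conv_lhs => rw [← Finset.univ_sum_single w, map_sum]
    rw [Finset.sum_eq_single i, hB, hb]
    · intro k _ hk
      exact hor (st i) k (by rw [hst]; exact hk) _ _
    · intro h
      exact absurd (Finset.mem_univ _) h
  have hwa : ∀ w, ω a w = ω a (Pi.single (st i) (w (st i))) := by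
    intro w
    conv_lhs => rw [← Finset.univ_sum_single w, map_sum]
    rw [Finset.sum_eq_single (st i)]
    · intro k _ hk
      exact hor i k hk _ _
    · intro h
      exact absurd (Finset.mem_univ _) h
  have hbr := bd_bracket' ω hnd hωρ hst hor hirr hdist hlog hpos hk hss hbd hbdN
  rw [ss_bracket ω hbd.1, hha] at hbr
  -- from a multiple of `ss ω a B` in the Lie algebra to the family
  have fin : ∀ t : K, t • ss ω a B ∈ lieT (piRep r) χ →
      (∀ x : E i, t • ss ω a B (Pi.single i x) = φ x • a) →
      ∃ X ∈ hh r χ, X i = φ.smulRight u ∧ ∀ j, j ≠ i → j ≠ st i → X j = 0 := by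
    intro t ht hx
    obtain ⟨X', hX', hXN⟩ := lieT_block ω hnd hωρ ht
    refine ⟨X', hX', ?_, fun j hj hj' => ?_⟩
    · ext x
      have h1 := congrArg (fun f : End K (∀ i, E i) => f (Pi.single i x) i) hXN
      simp only [LinearMap.smul_apply, blk_single, Pi.single_eq_same] at h1
      rw [← h1, hx, LinearMap.smulRight_apply, Pi.smul_apply, ha, Pi.single_eq_same]
    · ext x
      have h1 := congrArg (fun f : End K (∀ i, E i) => f (Pi.single j x) j) hXN
      simp only [LinearMap.smul_apply, blk_single, Pi.single_eq_same] at h1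
      have h2 : ω a (Pi.single j x) = 0 := hor i j hj' _ _
      have h3 : ω B (Pi.single j x) = 0 := hor (st i) j (by rw [hst]; exact hj) _ _
      rw [← h1, ss_apply, h2, h3, zero_smul, zero_smul, add_zero, smul_zero]
      rfl
  by_cases hi : st i = i
  · -- the symplectic case
    obtain ⟨c, hc⟩ := hT.2 hi
    have hca : ∀ x : E i, c * ω a (Pi.single i x) = φ x := by
      intro x
      rw [hc]
      rfl
    have hB1 : B = c • a := by
      rw [← sub_eq_zero]
      apply hnd
      intro w
      rw [map_sub, LinearMap.sub_apply, map_smul, LinearMap.smul_apply, hwB, ← hca, smul_eq_mul]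
      have h2 : ω a w = ω a (Pi.single i (w i)) := by
        conv_lhs => rw [← Finset.univ_sum_single w, map_sum]
        rw [Finset.sum_eq_single i]
        · intro k _ hk
          exact hor i k (by rw [hi]; exact hk) _ _
        · intro h
          exact absurd (Finset.mem_univ _) h
      rw [h2, sub_self]
    have hhB : h B = -B := by
      rw [hB1, map_smul, hha, smul_neg]
    refine fin (1 / 2) ?_ fun x => ?_
    · have h5 : (1 / 2 : K) • ss ω a B = (-(1 / 4) : K) • (ss ω (-a) B + ss ω a (h B)) := by
        rw [hhB]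
        refine LinearMap.ext fun v => ?_
        simp only [LinearMap.smul_apply, LinearMap.add_apply, ss_apply, map_neg,
          LinearMap.neg_apply]
        module
      rw [h5]
      exact Submodule.smul_mem _ _ hbr
    · have h6 : ω B (Pi.single i x) = φ x := by rw [hwB, Pi.single_eq_same]
      rw [ss_apply, h6, hB1, smul_smul (ω a (Pi.single i x)), mul_comm (ω a (Pi.single i x)), hca]
      module
  · have hne : st i ≠ i := hi
    have hhB : h B = 0 := by
      rw [hhd, ss_apply, hsk a B, hBa, neg_zero, zero_smul, zero_add]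
      have h7 : ω B' B = 0 := hor (st i) (st i) (by rw [hst]; exact hne) _ _
      rw [h7, zero_smul]
    refine fin 1 ?_ fun x => ?_
    · have h5 : (1 : K) • ss ω a B = (-1 : K) • (ss ω (-a) B + ss ω a (h B)) := by
        rw [hhB]
        refine LinearMap.ext fun v => ?_
        simp only [LinearMap.smul_apply, LinearMap.add_apply, ss_apply, map_neg,
          LinearMap.neg_apply, map_zero, LinearMap.zero_apply, smul_zero, zero_smul]
        module
      rw [h5]
      exact Submodule.smul_mem _ _ hbr
    · have h6 : ω B (Pi.single i x) = φ x := by rw [hwB, Pi.single_eq_same]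
      have h7 : ω a (Pi.single i x) = 0 := hor i i (Ne.symm hne) _ _
      rw [one_smul, ss_apply, h6, h7, zero_smul, zero_add]

end

end Pool.Agent.H62CT.El2
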