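import Mathlib
import Pool.Agent.H62CT.El
import Pool.Agent.TH118.CR.Nil

/-!
# Tate forms of all degrees if the forms of degree four are decomposable
-/

set_option autoImplicit false
set_option linter.unusedSectionVars false

namespace Pool.Agent.H62CT

open Module Pool.Agent.H204R3.SP Pool.Agent.H204R3.GP Pool.Agent.W522.U Pool.Agent.W529.Ta
open Pool.Agent.W528.Odd Pool.Agent.TH118.WC Pool.Agent.TH118.CR
open Pool.Agent.W528.Tor (AltDual)

noncomputable section

variable {K : Type} [Field K] [CharZero K] {X : Type} [AddCommGroup X] [Module K X]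
  [FiniteDimensional K X] {Γ : Type} [Group Γ] {R : Representation K Γ X} {χ : Γ →* K}

variable (ω : X →ₗ[K] X →ₗ[K] K) (hnd : ∀ u, (∀ v, ω u v = 0) → u = 0)
  (hωR : ∀ g u v, ω (R g u) (R g v) = χ g * ω u v)
  (hss : HasProj R)
  (hsymp : ∀ U, SI R U → Du R χ U U → AltDual R χ U)
  (hlog : ∀ (m : ℕ) (φ : MultilinearMap K (fun _ : Fin m × Fin 2 => X) K),
    (∀ x ∈ lieT R χ, Kills x φ) → IsTate R χ m φ)
  (h4 : ∀ φ : MultilinearMap K (fun _ : Fin 2 × Fin 2 => X) K,
    IsTate R χ 2 φ → φ ∈ Submodule.span K (PT R χ 2))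

include hnd hωR hss hsymp hlog h4 in
theorem four_reps [IsAlgClosed K] {s : ℕ} (W : Fin s → Submodule K X) (hW : ∀ i, SI R (W i))
    (hWW : ∀ i j, Tw R (fun _ => 1) (W i) (W j) → i = j)
    (st : Fin s → Fin s) (hst : ∀ i, st (st i) = i) (hDu : ∀ i, Du R χ (W i) (W (st i)))
    (hDu' : ∀ i j, Du R χ (W i) (W j) → j = st i) :
    ∃ (Δ : Subgroup Γ) (_ : Δ.FiniteIndex) (hWΔ : ∀ i, ∀ g ∈ Δ, ∀ u ∈ W i, R g u ∈ W i),
      ∀ (m : ℕ) (φ : MultilinearMap K (fun _ : Fin m × Fin 2 => ∀ i, W i) K),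
        IsTate (piRep (fun i => resR R Δ (W i) (hWΔ i))) (χ.comp Δ.subtype) m φ →
        φ ∈ Submodule.span K (PiDet (fun i => resR R Δ (W i) (hWΔ i))
          (χ.comp Δ.subtype) st m) := by
  classical
  choose D hDfi hDs using fun i => (hW i).2.1
  have hpos : ∀ i, 0 < finrank K (W i) := by
    intro i
    rw [Nat.pos_iff_ne_zero, ne_eq, Submodule.finrank_eq_zero]
    exact (hW i).1
  have hDuA : ∀ i, ∃ D' : Subgroup Γ, D'.FiniteIndex ∧ ∃ B : X →ₗ[K] X →ₗ[K] K,
      (∃ u ∈ W i, ∃ v ∈ W (st i), B u v ≠ 0) ∧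
      (∀ g ∈ D', ∀ u ∈ W i, ∀ v ∈ W (st i), B (R g u) (R g v) = χ g * B u v) ∧
      (st i = i → ∀ u ∈ W i, B u u = 0) := by
    intro i
    obtain ⟨D', hD', B, hB0, hB⟩ := hDu i
    by_cases hi : st i = i
    · rw [hi] at hB hB0 ⊢
      obtain ⟨D2, hD2, B2, hB20, hB2a, hB2⟩ := hsymp _ (hW i) ⟨D', hD', B, hB0, hB⟩
      exact ⟨D2, hD2, B2, hB20, hB2, fun _ => hB2a⟩
    · exact ⟨D', hD', B, hB0, hB, fun h => absurd h hi⟩
  choose D' hD' B hB0 hB hBA using hDuA
  let Δ : Subgroup Γ := ⨅ i, D i ⊓ D' i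
  have hΔ : Δ.FiniteIndex := Subgroup.finiteIndex_iInf (fun i => inferInstance)
  have hm : ∀ g ∈ Δ, ∀ i, g ∈ D i ∧ g ∈ D' i := fun g hg i => Subgroup.mem_iInf.1 hg i
  have hWΔ : ∀ i, ∀ g ∈ Δ, ∀ u ∈ W i, R g u ∈ W i := fun i g hg u hu => hDs i g (hm g hg i).1 u hu
  have hBalt : ∀ i, st i = i → ∀ u ∈ W i, B i u u = 0 := hBA
  have hBl : ∀ i j, j = st i → ∀ u ∈ W i, (∀ v ∈ W j, B i u v = 0) → u = 0 := by
    rintro i _ rfl
    exact du_left (hW i) (hW _).2.1 (hD' i) (hB0 i) (hB i)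
  have hBr : ∀ i j, j = st i → ∀ v ∈ W j, (∀ u ∈ W i, B i u v = 0) → v = 0 := by
    rintro i _ rfl
    exact du_right (hW i).2.1 (hW _) (hD' i) (hB0 i) (hB i)
  have hBs : ∀ i j, j = st i → ∀ g ∈ Δ, ∀ u ∈ W i, ∀ v ∈ W j,
      B i (R g u) (R g v) = χ g * B i u v := by
    rintro i _ rfl g hg
    exact hB i g (hm g hg i).2
  let r : ∀ i, Representation K Δ (W i) := fun i => resR R Δ (W i) (hWΔ i)
  have hr : ∀ (i : Fin s) (g : Δ) (u : W i), ((r i g u : W i) : X) = R g.1 u := fun _ _ _ => rfl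
  -- the conditions
  have hsim : ∀ (g : Δ) u v, pf W st B (piRep r g u) (piRep r g v) =
      (χ.comp Δ.subtype) g * pf W st B u v := by
    intro g u v
    rw [pf_apply, pf_apply, Finset.mul_sum]
    refine Finset.sum_congr rfl fun i _ => ?_
    rw [Finset.mul_sum]
    refine Finset.sum_congr rfl fun j _ => ?_
    rw [piRep_apply, piRep_apply, hr, hr]
    change _ = χ g.1 * _
    unfold cf
    by_cases h : j = st i
    · rw [if_pos h]
      rcases lt_trichotomy i j with h1 | h1 | h1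
      · rw [if_pos h1]
        exact hBs i j h g.1 g.2 _ (u i).2 _ (v j).2
      · rw [if_neg (not_lt.2 h1.ge), if_neg (not_lt.2 h1.le)]
        exact hBs i j h g.1 g.2 _ (u i).2 _ (v j).2
      · rw [if_neg (not_lt.2 h1.le), if_pos h1, LinearMap.neg_apply, LinearMap.neg_apply,
          LinearMap.neg_apply, LinearMap.neg_apply, LinearMap.flip_apply, LinearMap.flip_apply,
          hBs j i (by rw [h, hst]) g.1 g.2 _ (v j).2 _ (u i).2, mul_neg]
    · rw [if_neg h, LinearMap.zero_apply, LinearMap.zero_apply, LinearMap.zero_apply,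
        LinearMap.zero_apply, mul_zero]
  have hor : ∀ i j, j ≠ st i → ∀ (u : W i) (v : W j),
      pf W st B (Pi.single i u) (Pi.single j v) = 0 := by
    intro i j hij u v
    rw [pf_single]
    unfold cf
    rw [if_neg hij, LinearMap.zero_apply, LinearMap.zero_apply]
  have hdist : ∀ i j, i ≠ j → ∀ (Δ' : Subgroup Δ), Δ'.FiniteIndex → ∀ T : W i →ₗ[K] W j,
      (∀ g ∈ Δ', ∀ u, T (r i g u) = r j g (T u)) → T = 0 := by
    intro i j hij Δ' hΔ' T hT
    by_contra hT0
    obtain ⟨p, hp⟩ := exists_pr (W i)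
    refine hij (hWW _ _ ⟨Δ'.map Δ.subtype, fi_map hΔ Δ' hΔ', (W j).subtype.comp (T.comp p),
      fun u _ => SetLike.coe_mem _, ?_, ?_⟩)
    · by_contra hcon
      push Not at hcon
      apply hT0
      ext u
      have h1 := hcon u u.2
      rw [LinearMap.comp_apply, LinearMap.comp_apply, hp] at h1
      exact h1
    · rintro _ ⟨g, hg, rfl⟩ u hu
      have h1 := hT g hg ⟨u, hu⟩
      have h2 : p (R g.1 u) = r i g ⟨u, hu⟩ := hp (r i g ⟨u, hu⟩)
      have h3 : p u = ⟨u, hu⟩ := hp ⟨u, hu⟩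
      change ((T (p (R g.1 u)) : W j) : X) = (1 : K) • R g.1 ((T (p u) : W j) : X)
      rw [h2, h3, h1, one_smul]
      rfl
  have hirr : ∀ i, Irr (r i) := by
    intro i Δ' hΔ' U hU
    have h1 : Pot R (U.map (W i).subtype) := by
      refine ⟨Δ'.map Δ.subtype, fi_map hΔ Δ' hΔ', ?_⟩
      rintro _ ⟨g, hg, rfl⟩ _ ⟨u, hu, rfl⟩
      exact ⟨r i g u, hU g hg u hu, rfl⟩
    rcases (hW i).2.2 _ (Submodule.map_subtype_le _ _) h1 with h2 | h2
    · left
      rw [eq_bot_iff]
      intro u hu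
      have h3 : (u : X) ∈ U.map (W i).subtype := ⟨u, hu, rfl⟩
      rw [h2, Submodule.mem_bot] at h3
      rw [Submodule.mem_bot]
      exact Subtype.ext h3
    · right
      rw [eq_top_iff]
      intro u _
      have h3 : (u : X) ∈ U.map (W i).subtype := by
        rw [h2]
        exact u.2
      obtain ⟨u', hu', huu⟩ := h3
      have h4 : u' = u := Subtype.ext huu
      rw [← h4]
      exact hu'
  -- the projection and the section
  choose p hp1 hp2 hp3 using fun i => hss Δ hΔ (W i) (hWΔ i)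
  have hzero : ∀ i j, j ≠ i → ∀ u ∈ W j, p i u = 0 := by
    intro i j hij u hu
    by_contra hc
    apply hij
    apply hWW j i
    refine ⟨Δ, hΔ, p i, fun u _ => hp1 i u, ⟨u, hu, hc⟩, fun g hg u _ => ?_⟩
    rw [one_smul]
    exact hp3 i g hg u
  let Q : X →ₗ[K] (∀ i, W i) := LinearMap.pi fun i => (p i).codRestrict (W i) (hp1 i)
  have hQ : ∀ x i, ((Q x i : W i) : X) = p i x := fun x i => rfl
  have hQR : ∀ (g : Δ) (x : X), Q (R g.1 x) = piRep r g (Q x) := by
    intro g x
    funext i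
    apply Subtype.ext
    rw [hQ, hp3 i g.1 g.2]
    rfl
  let sec : (∀ i, W i) →ₗ[K] X := ∑ i, (W i).subtype.comp (LinearMap.proj i)
  have hsec : ∀ y, sec y = ∑ i, (y i : X) := by
    intro y
    change (∑ i, (W i).subtype.comp (LinearMap.proj i)) y = _
    rw [LinearMap.sum_apply]
    rfl
  have hQsec : ∀ y, Q (sec y) = y := by
    intro y
    funext i
    apply Subtype.ext
    rw [hQ, hsec, map_sum, Finset.sum_eq_single i]
    · exact hp2 i _ (y i).2
    · intro j _ hj
      exact hzero i j hj _ (y j).2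
    · intro h; exact absurd (Finset.mem_univ i) h
  have hsecR : ∀ (g : Δ) (y : ∀ i, W i), sec (piRep r g y) = R g.1 (sec y) := by
    intro g y
    rw [hsec, hsec, map_sum]
    rfl
  have hpull : ∀ {m : ℕ} (φ : MultilinearMap K (fun _ : Fin m × Fin 2 => ∀ i, W i) K),
      IsTate R χ m (φ.compLinearMap (fun _ => Q)) → IsTate (piRep r) (χ.comp Δ.subtype) m φ := by
    rintro m φ ⟨Δ', hΔ', h⟩
    refine ⟨Δ'.comap Δ.subtype, Pool.Agent.TH118.WC.fi_comap _ _ hΔ', fun g hg v => ?_⟩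
    have h1 := h g.1 hg (fun k => sec (v k))
    rw [MultilinearMap.compLinearMap_apply, MultilinearMap.compLinearMap_apply] at h1
    simp only [← hsecR, hQsec] at h1
    exact h1
  have hlog' : ∀ (m : ℕ) (φ : MultilinearMap K (fun _ : Fin m × Fin 2 => ∀ i, W i) K),
      (∀ x ∈ lieT (piRep r) (χ.comp Δ.subtype), Kills x φ) →
      IsTate (piRep r) (χ.comp Δ.subtype) m φ := by
    intro m φ hφ
    refine hpull φ (hlog m _ fun x₀ hx₀ v => ?_)
    obtain ⟨Y, hY, hYx⟩ := Pool.Agent.W839.OT.HTFam.main K X Γ R χ ω hnd hωR hss s W hW hWW Δ hΔ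
      hWΔ x₀ hx₀
    have hQx : ∀ x, Q (x₀ x) = blk Y (Q x) := by
      intro x
      funext i
      apply Subtype.ext
      have h1 := Pool.Agent.W839.OT.HTFam.comm R χ ω hnd hωR Δ hΔ (p i) (hp3 i) x₀ hx₀ x
      rw [hQ, ← h1, blk_apply, hYx]
      rfl
    rw [← hφ (blk Y) hY (fun k => Q (v k))]
    refine Finset.sum_congr rfl fun k _ => ?_
    rw [MultilinearMap.compLinearMap_apply]
    congr 1
    funext k'
    by_cases h : k' = k
    · subst h
      rw [Function.update_self, Function.update_self, hQx]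
    · rw [Function.update_of_ne h, Function.update_of_ne h]
  have h4' : ∀ φ : MultilinearMap K (fun _ : Fin 2 × Fin 2 => ∀ i, W i) K,
      IsTate (piRep r) (χ.comp Δ.subtype) 2 φ →
      φ ∈ Submodule.span K (PT (piRep r) (χ.comp Δ.subtype) 2) := by
    rintro φ ⟨Δ', hΔ', h⟩
    have hT : IsTate R χ 2 (φ.compLinearMap (fun _ => Q)) := by
      refine ⟨Δ'.map Δ.subtype, fi_map hΔ Δ' hΔ', ?_⟩
      rintro _ ⟨g, hg, rfl⟩ v
      rw [MultilinearMap.compLinearMap_apply, MultilinearMap.compLinearMap_apply]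
      have h1 := h g hg (fun k => Q (v k))
      rw [MonoidHom.comp_apply] at h1
      rw [← h1]
      congr 1
      funext k
      exact hQR g (v k)
    have key : ∀ ψ ∈ Submodule.span K (PT R χ 2), (ψ.compLinearMap (fun _ => sec)) ∈
        Submodule.span K (PT (piRep r) (χ.comp Δ.subtype) 2) := by
      intro ψ hψ
      induction hψ using Submodule.span_induction with
      | mem ψ hψ =>
        obtain ⟨σ, C, hC, rfl⟩ := hψ
        refine Submodule.subset_span ⟨σ, fun l => (C l).compl₁₂ sec sec, fun l => ?_, rfl⟩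
        obtain ⟨D₁, hD₁, h1⟩ := hC l
        refine ⟨D₁.comap Δ.subtype, Pool.Agent.TH118.WC.fi_comap _ _ hD₁, fun g hg u v => ?_⟩
        rw [LinearMap.compl₁₂_apply, LinearMap.compl₁₂_apply, hsecR, hsecR]
        exact h1 g.1 hg _ _
      | zero =>
        have h1 : (0 : MultilinearMap K (fun _ : Fin 2 × Fin 2 => X) K).compLinearMap
            (fun _ => sec) = 0 := rfl
        rw [h1]
        exact Submodule.zero_mem _
      | add a b _ _ ha hb =>
        have h1 : (a + b).compLinearMap (fun _ => sec) = a.compLinearMap (fun _ => sec) +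
          b.compLinearMap (fun _ => sec) := rfl
        rw [h1]
        exact Submodule.add_mem _ ha hb
      | smul c a _ ha =>
        have h1 : (c • a).compLinearMap (fun _ => sec) = c • a.compLinearMap (fun _ => sec) := rfl
        rw [h1]
        exact Submodule.smul_mem _ _ ha
    have h1 := key _ (h4 _ hT)
    have h2 : (φ.compLinearMap (fun _ => Q)).compLinearMap (fun _ => sec) = φ := by
      refine MultilinearMap.ext fun v => ?_
      rw [MultilinearMap.compLinearMap_apply, MultilinearMap.compLinearMap_apply]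
      simp only [hQsec]
    rwa [h2] at h1
  have hnd' := pf_nondeg W st B hst hBl hBr
  have halt' := pf_alt W st B hst hBalt
  refine ⟨Δ, hΔ, hWΔ, fun m φ hφ => ?_⟩
  exact H62CT.main_pi_det (pf W st B) halt' hnd' hsim hst hor
    (hel_of_four (pf W st B) halt' hnd' hsim hst hor hirr hdist hlog' h4' (hasProj_pi hirr))
    hirr hpos φ hφ

include hnd hωR hss hsymp hlog h4 in
/-- **The theorem over an algebraically closed field.** -/
theorem four_det [IsAlgClosed K] {m : ℕ}
    (φ : MultilinearMap K (fun _ : Fin m × Fin 2 => X) K) (hφ : IsTate R χ m φ) :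
    φ ∈ Submodule.span K (DetProd R χ m) := by
  obtain ⟨s, W, hW, hWW, hall⟩ := exists_reps hss
  obtain ⟨st, hst, hDu, hDu'⟩ := exists_st hss ω hnd hωR W hW hWW hall
  obtain ⟨Δ, hΔ, hWΔ, hE⟩ := four_reps ω hnd hωR hss hsymp hlog h4 W hW hWW st hst hDu hDu'
  exact det_of_reps hss W hW hall st hDu' Δ hΔ hWΔ m (hE m) φ hφ

end

end Pool.Agent.H62CT
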