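import Mathlib
import Pool.Agent.TH118.WC.Wedge

/-!
# Derivations of exterior products
-/

set_option autoImplicit false
set_option linter.unusedSectionVars false

namespace Pool.Agent.H62CT.KW

open Module Pool.Agent.TH118.WC

noncomputable section

variable {K : Type} [Field K] [CharZero K] {Y : Type} [AddCommGroup Y] [Module K Y]
  {N S P : Type} [Fintype N] [DecidableEq N] [Fintype S] [Fintype P]

/-- The product of one permutation. -/
def term (e : (P × Fin 2) ⊕ S ≃ N) (B : P → Y →ₗ[K] Y →ₗ[K] K) (a : S → Dual K Y)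
    (σ : Equiv.Perm N) (v : N → Y) : K :=
  (∏ p, B p (v (σ (e (Sum.inl (p, 0))))) (v (σ (e (Sum.inl (p, 1)))))) *
    ∏ s, a s (v (σ (e (Sum.inr s))))

/-- The derivative of one product. -/
theorem der_term [DecidableEq S] [DecidableEq P] (e : (P × Fin 2) ⊕ S ≃ N)
    (B : P → Y →ₗ[K] Y →ₗ[K] K) (a : S → Dual K Y) (D : End K Y)
    (hB : ∀ p u v, B p (D u) v + B p u (D v) = 0) (M : S → S → K)
    (ha : ∀ s u, a s (D u) = ∑ t, M s t * a t u) (σ : Equiv.Perm N) (v : N → Y) :
    ∑ k, term e B a σ (Function.update v k (D (v k))) =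
      ∑ s, ∑ t, M s t * term e B (Function.update a s (a t)) σ v := by
  classical
  have h1 : ∑ k, term e B a σ (Function.update v k (D (v k))) =
      ∑ x : (P × Fin 2) ⊕ S, term e B a σ (Function.update v (σ (e x)) (D (v (σ (e x))))) :=
    (Equiv.sum_comp (e.trans σ) (fun k => term e B a σ (Function.update v k (D (v k))))).symm
  rw [h1, Fintype.sum_sum_type]
  have hinj : ∀ {x y : (P × Fin 2) ⊕ S}, σ (e x) = σ (e y) → x = y := fun h =>
    e.injective (σ.injective h)
  have hP : ∑ x : P × Fin 2, term e B a σ
      (Function.update v (σ (e (Sum.inl x))) (D (v (σ (e (Sum.inl x)))))) = 0 := by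
    rw [Fintype.sum_prod_type]
    refine Finset.sum_eq_zero fun p _ => ?_
    rw [Fin.sum_univ_two]
    unfold term
    have hs : ∀ (c : Fin 2) (y : Y) (s : S),
        Function.update v (σ (e (Sum.inl (p, c)))) y (σ (e (Sum.inr s))) = v (σ (e (Sum.inr s))) := by
      intro c y s
      rw [Function.update_of_ne]
      intro h
      have h2 := hinj h
      simp at h2
    have hp : ∀ (c : Fin 2) (y : Y) (p' : P), p' ∈ Finset.univ.erase p →
        B p' (Function.update v (σ (e (Sum.inl (p, c)))) y (σ (e (Sum.inl (p', 0)))))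
          (Function.update v (σ (e (Sum.inl (p, c)))) y (σ (e (Sum.inl (p', 1))))) =
        B p' (v (σ (e (Sum.inl (p', 0))))) (v (σ (e (Sum.inl (p', 1))))) := by
      intro c y p' hp'
      have hne := Finset.ne_of_mem_erase hp'
      rw [Function.update_of_ne, Function.update_of_ne]
      · intro h
        have h2 := hinj h
        simp only [Sum.inl.injEq, Prod.mk.injEq] at h2
        exact hne h2.1
      · intro h
        have h2 := hinj h
        simp only [Sum.inl.injEq, Prod.mk.injEq] at h2
        exact hne h2.1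
    simp only [hs]
    rw [← Finset.mul_prod_erase _ _ (Finset.mem_univ p),
      ← Finset.mul_prod_erase _ _ (Finset.mem_univ p), Finset.prod_congr rfl (hp 0 _),
      Finset.prod_congr rfl (hp 1 _), ← add_mul, ← add_mul, Function.update_self,
      Function.update_self, Function.update_of_ne, Function.update_of_ne, hB, zero_mul, zero_mul]
    · intro h
      have h2 := hinj h
      simp at h2
    · intro h
      have h2 := hinj h
      simp at h2
  rw [hP, zero_add]
  refine Finset.sum_congr rfl fun s _ => ?_
  unfold term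
  have hp : ∀ (y : Y) (x : P × Fin 2),
      Function.update v (σ (e (Sum.inr s))) y (σ (e (Sum.inl x))) = v (σ (e (Sum.inl x))) := by
    intro y x
    rw [Function.update_of_ne]
    intro h
    have h2 := hinj h
    simp at h2
  simp only [hp]
  rw [← Finset.mul_prod_erase _ _ (Finset.mem_univ s), Function.update_self, ha, Finset.sum_mul,
    Finset.mul_sum]
  refine Finset.sum_congr rfl fun t _ => ?_
  rw [← Finset.mul_prod_erase _ (fun s' => Function.update a s (a t) s' _) (Finset.mem_univ s),
    Function.update_self]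
  have h3 : ∀ s' ∈ Finset.univ.erase s,
      a s' (Function.update v (σ (e (Sum.inr s))) (D (v (σ (e (Sum.inr s))))) (σ (e (Sum.inr s')))) =
      Function.update a s (a t) s' (v (σ (e (Sum.inr s')))) := by
    intro s' hs'
    have hne := Finset.ne_of_mem_erase hs'
    rw [Function.update_of_ne, Function.update_of_ne hne]
    intro h
    have h2 := hinj h
    simp only [Sum.inr.injEq] at h2
    exact hne h2
  rw [Finset.prod_congr rfl h3]
  ring

/-- The exterior product vanishes if two linear forms are equal. -/
theorem wedge_eq_zero [DecidableEq S] [DecidableEq P] (e : (P × Fin 2) ⊕ S ≃ N)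
    (B : P → Y →ₗ[K] Y →ₗ[K] K) (a : S → Dual K Y) {s t : S} (hst : s ≠ t) (h : a s = a t) :
    wedge e B a = 0 := by
  have h1 := wedge_perm e B a (Equiv.swap s t)
  have h2 : (fun x => a (Equiv.swap s t x)) = a := by
    funext x
    by_cases h3 : x = s
    · rw [h3, Equiv.swap_apply_left, h]
    · by_cases h4 : x = t
      · rw [h4, Equiv.swap_apply_right, h]
      · rw [Equiv.swap_apply_of_ne_of_ne h3 h4]
  rw [h2, Equiv.Perm.sign_swap hst] at h1
  have h5 : (((-1 : ℤˣ) : ℤ) : K) = -1 := by simp
  rw [h5, neg_smul, one_smul] at h1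
  have h6 : (2 : K) • wedge e B a = 0 := by
    rw [two_smul]
    nth_rewrite 1 [h1]
    rw [neg_add_cancel]
  exact (smul_eq_zero.1 h6).resolve_left two_ne_zero

/-- **The derivative of an exterior product.** -/
theorem der_wedge (e : (P × Fin 2) ⊕ S ≃ N)
    (B : P → Y →ₗ[K] Y →ₗ[K] K) (a : S → Dual K Y) (D : End K Y)
    (hB : ∀ p u v, B p (D u) v + B p u (D v) = 0) (M : S → S → K)
    (ha : ∀ s u, a s (D u) = ∑ t, M s t * a t u) (v : N → Y) :
    ∑ k, wedge e B a (Function.update v k (D (v k))) = (∑ s, M s s) * wedge e B a v := by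
  classical
  have h1 : ∀ (a : S → Dual K Y) v, wedge e B a v =
      ∑ σ : Equiv.Perm N, ((Equiv.Perm.sign σ : ℤ) : K) * term e B a σ v := fun _ _ => rfl
  simp only [h1]
  rw [Finset.sum_comm]
  have h2 : ∀ σ : Equiv.Perm N, ∑ k, ((Equiv.Perm.sign σ : ℤ) : K) *
      term e B a σ (Function.update v k (D (v k))) =
      ∑ s, ∑ t, M s t * (((Equiv.Perm.sign σ : ℤ) : K) *
        term e B (Function.update a s (a t)) σ v) := by
    intro σ
    rw [← Finset.mul_sum, der_term e B a D hB M ha, Finset.mul_sum]
    refine Finset.sum_congr rfl fun s _ => ?_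
    rw [Finset.mul_sum]
    refine Finset.sum_congr rfl fun t _ => ?_
    ring
  rw [Finset.sum_congr rfl fun σ _ => h2 σ, Finset.sum_comm, Finset.sum_mul]
  refine Finset.sum_congr rfl fun s _ => ?_
  rw [Finset.sum_comm, Finset.sum_eq_single s]
  · rw [Function.update_eq_self, ← Finset.mul_sum]
  · intro t _ hts
    rw [← Finset.mul_sum, ← h1]
    have h3 := wedge_eq_zero e B (Function.update a s (a t)) (Ne.symm hts) (by
      rw [Function.update_self, Function.update_of_ne hts])
    rw [h3, Pi.zero_apply, mul_zero]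
  · intro h
    exact absurd (Finset.mem_univ _) h

end

end Pool.Agent.H62CT.KW
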