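import Mathlib
import Pool.Agent.Y126.Notions
import Pool.Agent.TH118.WC.Trans
import Pool.Agent.W522.U.C7
import Pool.Agent.H62CT.KW
import Pool.Agent.H62CT.El2

/-!
# Block diagonal operators without traces kill the products of Tate forms and Weil classes
-/

set_option autoImplicit false
set_option linter.unusedSectionVars false

namespace Pool.Agent.H62CT.WT

open Module Pool.Agent.H204R3.SP Pool.Agent.H204R3.GP Pool.Agent.W522.U
open Pool.Agent.TH118.WC Pool.Agent.H62CT.El2 Pool.Agent.H62CT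

noncomputable section

variable {K : Type} [Field K] [CharZero K] [IsAlgClosed K] {X : Type} [AddCommGroup X] [Module K X]
  [FiniteDimensional K X] {Γ : Type} [Group Γ] {R : Representation K Γ X} {χ : Γ →* K}

theorem diag_apply (n : ℕ) (g : Γ) (x : Fin n → X) (i : Fin n) :
    Pool.Agent.Y126.Notions.diagonal R n g x i = R g (x i) := rfl

theorem diag_single (n : ℕ) (g : Γ) (i : Fin n) (x : X) :
    Pool.Agent.Y126.Notions.diagonal R n g (Pi.single i x) = Pi.single i (R g x) := by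
  funext j
  rw [diag_apply]
  by_cases h : j = i
  · subst h
    rw [Pi.single_eq_same, Pi.single_eq_same]
  · rw [Pi.single_eq_of_ne h, Pi.single_eq_of_ne h, map_zero]

theorem sumForm_apply (ω : X →ₗ[K] X →ₗ[K] K) (n : ℕ) (x y : Fin n → X) :
    Pool.Agent.Y126.Notions.sumForm ω n x y = ∑ i, ω (x i) (y i) := by
  unfold Pool.Agent.Y126.Notions.sumForm
  rw [LinearMap.sum_apply, LinearMap.sum_apply]
  rfl

/-- A strongly irreducible subspace of a power is isomorphic to a representative. -/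
theorem exists_iso {n s : ℕ} {W : Fin s → Submodule K X} (hW : ∀ i, SI R (W i))
    (hall : ∀ U, SI R U → ∃ i, Tw R (fun _ => 1) U (W i)) {L : Submodule K (Fin n → X)}
    (hL : SI (Pool.Agent.Y126.Notions.diagonal R n) L) :
    ∃ (j : Fin s) (E : L ≃ₗ[K] W j) (Δ : Subgroup Γ), Δ.FiniteIndex ∧
      ∀ g ∈ Δ, ∀ u u' : L, (u' : Fin n → X) = Pool.Agent.Y126.Notions.diagonal R n g u →
        ((E u' : W j) : X) = R g (E u : W j) := by
  obtain ⟨i, u, hu, hui⟩ : ∃ (i : Fin n) (u : Fin n → X), u ∈ L ∧ u i ≠ 0 := by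
    by_contra hcon
    push Not at hcon
    exact hL.1 ((Submodule.eq_bot_iff L).2 fun u hu => funext fun i => hcon i u hu)
  let T₁ : (Fin n → X) →ₗ[K] X := LinearMap.proj i
  have hT₁ : ∀ g ∈ (⊤ : Subgroup Γ), ∀ x, T₁ (Pool.Agent.Y126.Notions.diagonal R n g x) =
      R g (T₁ x) := fun _ _ _ => rfl
  have h0 : ∃ u ∈ L, T₁ u ≠ 0 := ⟨u, hu, hui⟩
  obtain ⟨e₁, he₁⟩ := exists_equiv_map hL (Δ := ⊤) inferInstance hT₁ h0
  have hSI := si_map hL (Δ := ⊤) inferInstance hT₁ h0
  obtain ⟨j, Δ, hΔ, T₂, hTU, h1, hT₂⟩ := hall _ hSI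
  obtain ⟨e₂, he₂⟩ := tw_equiv hSI (hW j) hΔ hTU h1 hT₂
  refine ⟨j, e₁.trans e₂, Δ, hΔ, fun g hg u u' huu => ?_⟩
  rw [LinearEquiv.trans_apply, LinearEquiv.trans_apply, he₂, he₂, he₁, he₁, huu,
    hT₁ g (Subgroup.mem_top g)]
  have h2 := hT₂ g hg (T₁ u) (Submodule.mem_map_of_mem u.2)
  rwa [one_smul] at h2

section

variable {s : ℕ} {W : Fin s → Submodule K X} (hW : ∀ i, SI R (W i))
  (hall : ∀ U, SI R U → ∃ i, Tw R (fun _ => 1) U (W i))
  {Δ : Subgroup Γ} (hΔ : Δ.FiniteIndex) (hWΔ : ∀ i, ∀ g ∈ Δ, ∀ u ∈ W i, R g u ∈ W i)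
  (sec : (∀ i, W i) →ₗ[K] X)
  (hsec : ∀ (g : Δ) (y : ∀ i, W i), sec (piRep (fun i => resR R Δ (W i) (hWΔ i)) g y) =
    R g.1 (sec y))
  (ω : X →ₗ[K] X →ₗ[K] K) (hωR : ∀ g u v, ω (R g u) (R g v) = χ g * ω u v)
  {x : End K (∀ i, W i)}
  (hx2 : ∀ B, IsTate2 (piRep (fun i => resR R Δ (W i) (hWΔ i))) (χ.comp Δ.subtype) B →
    ∀ u v, B (x u) v + B u (x v) = 0)
  (hxc : ∀ c : Fin s → K, x * bs c = bs c * x)
  (htr : ∀ i, LinearMap.trace K (W i) (bl x i) = 0)

include hsec hx2 in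
/-- Tate forms on a power are killed. -/
theorem kill_form {n : ℕ} {B : (Fin n → X) →ₗ[K] (Fin n → X) →ₗ[K] K}
    (hB : ∃ Δ' : Subgroup Γ, Δ'.FiniteIndex ∧ ∀ g ∈ Δ', ∀ u v,
      B (Pool.Agent.Y126.Notions.diagonal R n g u) (Pool.Agent.Y126.Notions.diagonal R n g v) =
      χ g * B u v) (u v : Fin n → ∀ i, W i) :
    B (fun l => sec (x (u l))) (fun l => sec (v l)) +
      B (fun l => sec (u l)) (fun l => sec (x (v l))) = 0 := by
  classical
  obtain ⟨Δ', hΔ', hB⟩ := hB
  have h1 : ∀ i k (u v : ∀ i, W i), B (Pi.single i (sec (x u))) (Pi.single k (sec v)) +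
      B (Pi.single i (sec u)) (Pi.single k (sec (x v))) = 0 := by
    intro i k u v
    refine hx2 (B.compl₁₂ ((LinearMap.single K (fun _ : Fin n => X) i).comp sec)
      ((LinearMap.single K (fun _ : Fin n => X) k).comp sec)) ⟨Δ'.comap Δ.subtype,
        Pool.Agent.TH118.WC.fi_comap _ _ hΔ', fun g hg u v => ?_⟩ u v
    change B (Pi.single i (sec (piRep _ g u))) (Pi.single k (sec (piRep _ g v))) =
      χ g.1 * B (Pi.single i (sec u)) (Pi.single k (sec v))
    rw [hsec, hsec, ← diag_single, ← diag_single]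
    exact hB g.1 hg _ _
  have h2 : ∀ u v : Fin n → X, B u v = ∑ i, ∑ k, B (Pi.single i (u i)) (Pi.single k (v k)) := by
    intro u v
    conv_lhs => rw [← Finset.univ_sum_single u]
    rw [map_sum, LinearMap.sum_apply]
    refine Finset.sum_congr rfl fun i _ => ?_
    conv_lhs => rw [← Finset.univ_sum_single v]
    rw [map_sum]
  rw [h2, h2 (fun l => sec (u l)), ← Finset.sum_add_distrib]
  refine Finset.sum_eq_zero fun i _ => ?_
  rw [← Finset.sum_add_distrib]
  exact Finset.sum_eq_zero fun k _ => h1 i k (u i) (v k)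

include hW hall hΔ hsec hωR hx2 hxc htr in
/-- The action on the linear forms of a strongly irreducible subspace of a power. -/
theorem kill_line {n d : ℕ} {L : Submodule K (Fin n → X)}
    (hL : SI (Pool.Agent.Y126.Notions.diagonal R n) L) (b : Basis (Fin d) K L) :
    ∃ M : Fin d → Fin d → K, ∑ s, M s s = 0 ∧ ∀ (s : Fin d) (u : Fin n → ∀ i, W i),
      Pool.Agent.Y126.Notions.sumForm ω n (b s : Fin n → X) (fun l => sec (x (u l))) =
        ∑ t, M s t * Pool.Agent.Y126.Notions.sumForm ω n (b t : Fin n → X)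
          (fun l => sec (u l)) := by
  classical
  obtain ⟨j, E, Δ₁, hΔ₁, hE⟩ := exists_iso hW hall hL
  obtain ⟨Δ₂, hΔ₂, hLs⟩ := hL.2.1
  -- the bilinear forms
  let C : Fin n → (∀ i, W i) →ₗ[K] (∀ i, W i) →ₗ[K] K := fun i =>
    ω.compl₁₂ ((LinearMap.proj i).comp (L.subtype.comp (E.symm.toLinearMap.comp
      (LinearMap.proj j)))) sec
  have hC : ∀ i w v, C i w v = ω ((E.symm (w j) : Fin n → X) i) (sec v) := fun _ _ _ => rfl
  have hCT : ∀ i, IsTate2 (piRep (fun i => resR R Δ (W i) (hWΔ i))) (χ.comp Δ.subtype) (C i) := by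
    intro i
    refine ⟨(Δ₁ ⊓ Δ₂).comap Δ.subtype, Pool.Agent.TH118.WC.fi_comap _ _ inferInstance,
      fun g hg w v => ?_⟩
    have hg' : g.1 ∈ Δ₁ ⊓ Δ₂ := hg
    rw [hC, hC, hsec]
    have h1 : E.symm (piRep (fun i => resR R Δ (W i) (hWΔ i)) g w j) =
        ⟨Pool.Agent.Y126.Notions.diagonal R n g.1 (E.symm (w j) : L), hLs g.1 hg'.2 _
          (E.symm (w j)).2⟩ := by
      rw [LinearEquiv.symm_apply_eq]
      apply Subtype.ext
      rw [hE g.1 hg'.1 (E.symm (w j)) _ rfl, E.apply_symm_apply]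
      rfl
    rw [h1]
    change ω (R g.1 ((E.symm (w j) : Fin n → X) i)) (R g.1 (sec v)) = χ g.1 * _
    exact hωR _ _ _
  let A : End K L := E.symm.conj (bl x j)
  have hA : ∀ u, A u = E.symm (bl x j (E u)) := fun u => by
    change E.symm.conj (bl x j) u = _
    rw [LinearEquiv.conj_apply_apply, LinearEquiv.symm_symm]
  have htrA : LinearMap.trace K L A = 0 := by
    rw [← htr j]
    exact LinearMap.trace_conj' _ _
  have hkey : ∀ (i : Fin n) (u : L) (v : ∀ i, W i), ω ((A u : Fin n → X) i) (sec v) +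
      ω ((u : Fin n → X) i) (sec (x v)) = 0 := by
    intro i u v
    have h1 := hx2 (C i) (hCT i) (Pi.single j (E u)) v
    rw [hC, hC, Pi.single_eq_same, E.symm_apply_apply, bd_single hxc, Pi.single_eq_same] at h1
    rw [hA]
    exact h1
  let Mx := LinearMap.toMatrix b b A
  have hM : ∀ s, A (b s) = ∑ t, Mx t s • b t := by
    intro s
    have h1 := b.sum_repr (A (b s))
    rw [← h1]
    refine Finset.sum_congr rfl fun t _ => ?_
    change _ = (LinearMap.toMatrix b b A t s) • b t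
    rw [LinearMap.toMatrix_apply]
  refine ⟨fun s t => -Mx t s, ?_, fun s u => ?_⟩
  · rw [Finset.sum_neg_distrib, neg_eq_zero, ← htrA, LinearMap.trace_eq_matrix_trace K b]
    rfl
  · rw [sumForm_apply]
    simp only [sumForm_apply, Finset.mul_sum]
    rw [Finset.sum_comm]
    refine Finset.sum_congr rfl fun i _ => ?_
    have h1 := hkey i (b s) (u i)
    have h2 : ω ((A (b s) : Fin n → X) i) (sec (u i)) =
        ∑ t, Mx t s * ω ((b t : Fin n → X) i) (sec (u i)) := by
      rw [hM, Submodule.coe_sum, Finset.sum_apply, map_sum, LinearMap.sum_apply]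
      refine Finset.sum_congr rfl fun t _ => ?_
      rw [Submodule.coe_smul, Pi.smul_apply, map_smul, LinearMap.smul_apply, smul_eq_mul]
    rw [h2] at h1
    have h3 : ω ((b s : Fin n → X) i) (sec (x (u i))) =
        -∑ t, Mx t s * ω ((b t : Fin n → X) i) (sec (u i)) := by
      linear_combination h1
    rw [h3, ← Finset.sum_neg_distrib]
    refine Finset.sum_congr rfl fun t _ => ?_
    ring

include hW hall hΔ hsec hωR hx2 hxc htr in
/-- **Products of Tate forms and Weil classes are killed.** -/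
theorem kill_weil {n m : ℕ} {g : (Fin m × Fin 2 → Fin n → X) → K}
    (hg : g ∈ Pool.Agent.Y126.Notions.weilProducts R χ ω n m)
    (v : Fin m × Fin 2 → Fin n → ∀ i, W i) :
    ∑ k, g (fun l i => sec (Function.update v k (fun i => x (v k i)) l i)) = 0 := by
  classical
  obtain ⟨P, Q, hP, hQ, d, L, b, e, B, hB, hL, rfl⟩ := hg
  let J : (Fin n → ∀ i, W i) →ₗ[K] (Fin n → X) := LinearMap.pi fun i => sec.comp (LinearMap.proj i)
  have hJ : ∀ u, J u = fun i => sec (u i) := fun _ => rfl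
  let D : End K (Fin n → ∀ i, W i) := LinearMap.pi fun i => x.comp (LinearMap.proj i)
  have hD : ∀ u, D u = fun i => x (u i) := fun _ => rfl
  choose M hM0 hM using fun q => kill_line hW hall hΔ hWΔ sec hsec ω hωR hx2 hxc htr (hL.1 q) (b q)
  let B' : P → (Fin n → ∀ i, W i) →ₗ[K] (Fin n → ∀ i, W i) →ₗ[K] K := fun p =>
    (B p).compl₁₂ J J
  let a' : (Σ q, Fin (d q)) → Dual K (Fin n → ∀ i, W i) := fun s =>
    (Pool.Agent.Y126.Notions.sumForm ω n (b s.1 s.2 : Fin n → X)).comp J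
  let N : (Σ q, Fin (d q)) → (Σ q, Fin (d q)) → K := fun s t =>
    if h : t.1 = s.1 then M s.1 s.2 (h ▸ t.2) else 0
  have h1 : ∀ w : Fin m × Fin 2 → Fin n → ∀ i, W i,
      Pool.Agent.Y126.Notions.wedge e B (fun s =>
        Pool.Agent.Y126.Notions.sumForm ω n (b s.1 s.2 : Fin n → X)) (fun l i => sec (w l i)) =
      Pool.Agent.TH118.WC.wedge e B' a' w := fun w => rfl
  have h2 := Pool.Agent.H62CT.KW.der_wedge e B' a' D (fun p u v => ?_) N (fun s u => ?_) v
  · have h3 : ∑ s, N s s = 0 := by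
      rw [Fintype.sum_sigma]
      refine Finset.sum_eq_zero fun q _ => ?_
      rw [← hM0 q]
      refine Finset.sum_congr rfl fun s _ => ?_
      change (if h : q = q then M q s (h ▸ s) else 0) = _
      rw [dif_pos rfl]
    rw [h3, zero_mul] at h2
    exact h2
  · exact kill_form hWΔ sec hsec hx2 (hB p).1 u v
  · change Pool.Agent.Y126.Notions.sumForm ω n (b s.1 s.2 : Fin n → X)
      (fun l => sec (x (u l))) = _
    rw [hM s.1 s.2 u, Fintype.sum_sigma, Finset.sum_eq_single s.1]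
    · refine Finset.sum_congr rfl fun t _ => ?_
      change _ = (if h : s.1 = s.1 then M s.1 s.2 (h ▸ t) else 0) * _
      rw [dif_pos rfl]
      rfl
    · intro q _ hq
      refine Finset.sum_eq_zero fun t _ => ?_
      change (if h : q = s.1 then M s.1 s.2 (h ▸ t) else 0) * _ = 0
      rw [dif_neg hq, zero_mul]
    · intro h
      exact absurd (Finset.mem_univ _) h

end

end

end Pool.Agent.H62CT.WT
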