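import Mathlib
import Pool.Agent.H62CT.Cas
import Pool.Agent.H62CT.Dt
import Pool.Agent.W522.U.C2
import Pool.Agent.H204R3.GP.TateG
import Pool.Agent.W528.Odd.Core

/-!
# The Lie algebra of the Tate forms is determined by forms of degree four and determinants
-/

set_option autoImplicit false
set_option linter.unusedSectionVars false
set_option linter.deprecated false

namespace Pool.Agent.H62CT.Sc

open Module Pool.Agent.H204R3.SP Pool.Agent.H204R3.GP Pool.Agent.W522.U Pool.Agent.H62CT.Dt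

noncomputable section

variable {K : Type} [Field K] [CharZero K] {X : Type} [AddCommGroup X] [Module K X]
  [FiniteDimensional K X] {Γ : Type} [Group Γ] {R : Representation K Γ X} {χ : Γ →* K}

/-- A family of strongly irreducible subspaces such that a subgroup of finite index acts on the
tensor product of the determinants by the power of `χ` whose exponent is half of the dimension. -/
def DetRel (R : Representation K Γ X) (χ : Γ →* K) {Q : Type} [Fintype Q]
    (L : Q → Submodule K X) : Prop :=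
  (∀ q, SI R (L q)) ∧
    ∃ (c : ℕ) (Δ : Subgroup Γ) (h : ∀ q, ∀ g ∈ Δ, ∀ u ∈ L q, R g u ∈ L q), Δ.FiniteIndex ∧
      2 * c = ∑ q, finrank K (L q) ∧
      ∀ (g : Γ) (hg : g ∈ Δ), ∏ q, LinearMap.det ((R g).restrict (h q g hg)) = χ g ^ c

theorem isTate_two {B C : X →ₗ[K] X →ₗ[K] K} (hB : IsTate2 R χ B) (hC : IsTate2 R χ C) :
    IsTate R χ 2 (mmG 1 ![B, C]) := by
  obtain ⟨Δ, hΔ, hB⟩ := hB
  obtain ⟨Δ', hΔ', hC⟩ := hC
  refine ⟨Δ ⊓ Δ', inferInstance, fun g hg v => ?_⟩
  rw [mmG_apply, mmG_apply, Fin.prod_univ_two, Fin.prod_univ_two]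
  simp only [Equiv.Perm.one_apply, Matrix.cons_val_zero, Matrix.cons_val_one]
  rw [hB g hg.1, hC g hg.2]
  ring

theorem der_two (x : End K X) (B C : X →ₗ[K] X →ₗ[K] K) (a b c d : X)
    (h : Kills x (mmG 1 ![B, C])) :
    (B (x a) b + B a (x b)) * C c d + B a b * (C (x c) d + C c (x d)) = 0 := by
  have h1 := h (fun k => if k = (0, 0) then a else if k = (0, 1) then b else
    if k = (1, 0) then c else d)
  rw [Fintype.sum_prod_type, Fin.sum_univ_two, Fin.sum_univ_two, Fin.sum_univ_two] at h1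
  simp only [mmG_apply, Fin.prod_univ_two, Equiv.Perm.one_apply, Matrix.cons_val_zero,
    Matrix.cons_val_one, Function.update_apply] at h1
  simp at h1
  linear_combination h1

variable (ω : X →ₗ[K] X →ₗ[K] K) (hnd : ∀ u, (∀ v, ω u v = 0) → u = 0)
  (hωR : ∀ g u v, ω (R g u) (R g v) = χ g * ω u v)

include hnd hωR in
/-- An operator that kills the Tate forms of degree four kills those of degree two. -/
theorem skew_of_four {x : End K X}
    (h2 : ∀ φ : MultilinearMap K (fun _ : Fin 2 × Fin 2 => X) K, IsTate R χ 2 φ → Kills x φ)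
    {B : X →ₗ[K] X →ₗ[K] K} (hB : IsTate2 R χ B) (u v : X) : B (x u) v + B u (x v) = 0 := by
  have hω : IsTate2 R χ ω := ⟨⊤, inferInstance, fun g _ u v => hωR g u v⟩
  by_cases h0 : ∃ a b, ω a b ≠ 0
  · obtain ⟨a, b, hab⟩ := h0
    have e1 := der_two x ω ω a b a b (h2 _ (isTate_two hω hω))
    have e2 : ω (x a) b + ω a (x b) = 0 := by
      have h3 : (2 * ω a b) * (ω (x a) b + ω a (x b)) = 0 := by linear_combination e1
      exact (mul_eq_zero.1 h3).resolve_left (mul_ne_zero two_ne_zero hab)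
    have e3 := der_two x ω B a b u v (h2 _ (isTate_two hω hB))
    rw [e2, zero_mul, zero_add] at e3
    exact (mul_eq_zero.1 e3).resolve_left hab
  · push Not at h0
    have hx : ∀ w : X, w = 0 := fun w => hnd w (fun v => h0 w v)
    rw [hx u, hx v]
    simp

include hnd hωR in
/-- Operators that are skew for all Tate forms commute with the commutant. -/
theorem comm_of_skew {x : End K X}
    (hx : ∀ B, IsTate2 R χ B → ∀ u v, B (x u) v + B u (x v) = 0)
    {T : End K X} {Δ : Subgroup Γ} (hΔ : Δ.FiniteIndex)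
    (hT : ∀ g ∈ Δ, ∀ u, T (R g u) = R g (T u)) : T * x = x * T := by
  have hB : IsTate2 R χ (ω.comp T) := by
    refine ⟨Δ, hΔ, fun g hg u v => ?_⟩
    rw [LinearMap.comp_apply, LinearMap.comp_apply, hT g hg, hωR]
  have hω : IsTate2 R χ ω := ⟨⊤, inferInstance, fun g _ u v => hωR g u v⟩
  ext u
  rw [Module.End.mul_apply, Module.End.mul_apply, ← sub_eq_zero]
  apply hnd
  intro v
  have h1 := hx _ hB u v
  have h2 := hx _ hω (T u) v
  rw [LinearMap.comp_apply, LinearMap.comp_apply] at h1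
  rw [map_sub, LinearMap.sub_apply]
  linear_combination h1 - h2

theorem exists_P (hss : HasProj R) {U : Submodule K X} (hU : Pot R U) :
    ∃ P : End K X, (∀ v, P v ∈ U) ∧ (∀ u ∈ U, P u = u) ∧
      ∃ Δ : Subgroup Γ, Δ.FiniteIndex ∧ ∀ g ∈ Δ, ∀ v, P (R g v) = R g (P v) := by
  obtain ⟨Δ, hΔ, h⟩ := hU
  obtain ⟨P, h1, h2, h3⟩ := hss Δ hΔ U h
  exact ⟨P, h1, h2, Δ, hΔ, h3⟩

theorem mem_of_comm {x P : End K X} {U : Submodule K X} (hP : ∀ v, P v ∈ U)
    (hP' : ∀ u ∈ U, P u = u) (h : P * x = x * P) : ∀ u ∈ U, x u ∈ U := by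
  intro u hu
  have h1 : x u = P (x u) := by
    have h2 := congrArg (fun f : End K X => f u) h
    rw [Module.End.mul_apply, Module.End.mul_apply, hP' u hu] at h2
    exact h2.symm
  rw [h1]
  exact hP _

theorem trace_P {y P : End K X} {U : Submodule K X} (hy : ∀ u ∈ U, y u ∈ U)
    (hP : ∀ v, P v ∈ U) (hP' : ∀ u ∈ U, P u = u) :
    LinearMap.trace K U (y.restrict hy) = LinearMap.trace K X (y * P) := by
  have h1 : ∀ v, (y * P) v ∈ U := fun v => hy _ (hP v)
  rw [← LinearMap.trace_restrict_eq_of_forall_mem U (y * P) h1]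
  congr 1
  ext u
  change y u = y (P u)
  rw [hP' u u.2]

theorem trace_scalar {y P : End K X} {U : Submodule K X} (hP : ∀ v, P v ∈ U)
    (hP' : ∀ u ∈ U, P u = u) {c : K} (hc : ∀ u ∈ U, y u = c • u) :
    LinearMap.trace K X (y * P) = c * (finrank K U : K) := by
  have hy : ∀ u ∈ U, y u ∈ U := fun u hu => by
    rw [hc u hu]
    exact U.smul_mem _ hu
  rw [← trace_P hy hP hP']
  have h1 : y.restrict hy = c • (1 : End K U) := by
    ext u
    change y u = ((c • (1 : End K U)) u : U)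
    rw [hc u u.2]
    rfl
  rw [h1, map_smul, LinearMap.trace_one, smul_eq_mul]

theorem scalar_on [IsAlgClosed K] {z : End K X} {Δ : Subgroup Γ} (hΔ : Δ.FiniteIndex)
    (hz : ∀ g ∈ Δ, ∀ u, z (R g u) = R g (z u)) {U : Submodule K X} (hU : SI R U)
    (hzU : ∀ u ∈ U, z u ∈ U) : ∃ c : K, ∀ u ∈ U, z u = c • u := by
  have hnt : Nontrivial U := Submodule.nontrivial_iff_ne_bot.2 hU.1
  obtain ⟨c, hc⟩ := Module.End.exists_eigenvalue (z.restrict hzU)
  obtain ⟨w, hw⟩ := hc.exists_hasEigenvector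
  refine ⟨c, ?_⟩
  let W : Submodule K X := U ⊓ LinearMap.ker (z - c • 1)
  have hmem : ∀ u, u ∈ W ↔ u ∈ U ∧ z u = c • u := by
    intro u
    rw [Submodule.mem_inf, LinearMap.mem_ker, LinearMap.sub_apply, LinearMap.smul_apply,
      Module.End.one_apply, sub_eq_zero]
  have hW : Pot R W := by
    obtain ⟨Δ', hΔ', h'⟩ := hU.2.1
    refine ⟨Δ ⊓ Δ', inferInstance, fun g hg u hu => ?_⟩
    rw [hmem] at hu ⊢
    exact ⟨h' g hg.2 u hu.1, by rw [hz g hg.1, hu.2, map_smul]⟩
  rcases hU.2.2 W inf_le_left hW with h | h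
  · exfalso
    apply hw.2
    apply Subtype.ext
    have h1 : (w : X) ∈ W := by
      rw [hmem]
      exact ⟨w.2, congrArg Subtype.val (Module.End.mem_eigenspace_iff.1 hw.1)⟩
    rw [h, Submodule.mem_bot] at h1
    exact h1
  · intro u hu
    rw [← h] at hu
    exact ((hmem u).1 hu).2

variable (hss : HasProj R)
  (hlog : ∀ (m : ℕ) (φ : MultilinearMap K (fun _ : Fin m × Fin 2 => X) K),
    (∀ x ∈ lieT R χ, Kills x φ) → IsTate R χ m φ)

include hnd hωR hlog in
/-- Operators that commute with the Lie algebra commute with a subgroup of finite index. -/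
theorem comm_fin {T : End K X} (hT : ∀ y ∈ lieT R χ, T * y = y * T) :
    ∃ Δ : Subgroup Γ, Δ.FiniteIndex ∧ ∀ g ∈ Δ, ∀ u, T (R g u) = R g (T u) := by
  have h1 : ∀ y ∈ lieT R χ,
      Kills y (Pool.Agent.H204R3.CM.prodMap (fun _ : Fin 1 => bil2 (ω.comp T))) := by
    intro y hy v
    have e1 := lieT_sp R χ ω hωR hy (T (v (0, 0))) (v (0, 1))
    have e2 : T (y (v (0, 0))) = y (T (v (0, 0))) := congrArg (fun f : End K X => f _) (hT y hy)
    rw [Fintype.sum_prod_type, Fin.sum_univ_one, Fin.sum_univ_two]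
    simp only [Pool.Agent.H204R3.CM.prodMap_apply, Fin.prod_univ_one, bil2_apply,
      LinearMap.comp_apply]
    simp only [Function.update_apply]
    simp
    rw [e2]
    exact e1
  obtain ⟨Δ, hΔ, h⟩ := hlog 1 _ h1
  refine ⟨Δ, hΔ, fun g hg u => ?_⟩
  rw [← sub_eq_zero]
  apply hnd
  intro w
  have h3 := h g hg (fun k => if k = (0, 0) then u else R g⁻¹ w)
  simp only [Pool.Agent.H204R3.CM.prodMap_apply, Fin.prod_univ_one, bil2_apply,
      LinearMap.comp_apply] at h3
  simp at h3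
  have h4 := hωR g (T u) (R g⁻¹ w)
  have h5 : R g (R g⁻¹ w) = w := Rinv' g w
  rw [h5] at h4
  rw [map_sub, LinearMap.sub_apply, h3, h4, sub_self]

end

end Pool.Agent.H62CT.Sc
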