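import Mathlib
import Pool.Agent.H62CT.Sc

/-!
# The Lie algebra of the Tate forms is determined by forms of degree four and determinants, II
-/

set_option autoImplicit false
set_option linter.unusedSectionVars false
set_option linter.deprecated false

namespace Pool.Agent.H62CT.Sc

open Module Pool.Agent.H204R3.SP Pool.Agent.H204R3.GP Pool.Agent.W522.U Pool.Agent.H62CT.Dt

noncomputable section

variable {K : Type} [Field K] [CharZero K] {X : Type} [AddCommGroup X] [Module K X]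
  [FiniteDimensional K X] {Γ : Type} [Group Γ] {R : Representation K Γ X} {χ : Γ →* K}

/-- The trace form on the Lie algebra. -/
def tf (R : Representation K Γ X) (χ : Γ →* K) : LinearMap.BilinForm K (lieT R χ) :=
  LinearMap.mk₂ K (fun a b => LinearMap.trace K X (a.1 * b.1))
    (fun a a' b => by
      rw [Submodule.coe_add, add_mul, map_add])
    (fun c a b => by
      rw [Submodule.coe_smul, smul_mul_assoc, map_smul])
    (fun a b b' => by
      rw [Submodule.coe_add, mul_add, map_add])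
    (fun c a b => by
      rw [Submodule.coe_smul, mul_smul_comm, map_smul])

theorem tf_apply (a b : lieT R χ) : tf R χ a b = LinearMap.trace K X (a.1 * b.1) := rfl

theorem tf_refl : (tf R χ).IsRefl := by
  intro a b h
  rw [tf_apply] at h ⊢
  rw [LinearMap.trace_mul_comm]
  exact h

/-- The span of the brackets. -/
def brk (R : Representation K Γ X) (χ : Γ →* K) : Submodule K (lieT R χ) :=
  Submodule.span K {w | ∃ a ∈ lieT R χ, ∃ b ∈ lieT R χ, (w : End K X) = a * b - b * a}

theorem brk_trace {P : End K X} (hP : ∀ w ∈ lieT R χ, w * P = P * w) {y : lieT R χ}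
    (hy : y ∈ brk R χ) : LinearMap.trace K X (y.1 * P) = 0 := by
  induction hy using Submodule.span_induction with
  | mem y hy =>
    obtain ⟨a, ha, b, hb, h⟩ := hy
    rw [h, sub_mul, map_sub, mul_assoc b a P, hP a ha, ← mul_assoc b P a,
      LinearMap.trace_mul_comm K (b * P) a, mul_assoc, sub_self]
  | zero => rw [Submodule.coe_zero, zero_mul, map_zero]
  | add a b _ _ ha hb => rw [Submodule.coe_add, add_mul, map_add, ha, hb, add_zero]
  | smul c a _ ha => rw [Submodule.coe_smul, smul_mul_assoc, map_smul, ha, smul_zero]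

variable (ω : X →ₗ[K] X →ₗ[K] K) (hnd : ∀ u, (∀ v, ω u v = 0) → u = 0)
  (hωR : ∀ g u v, ω (R g u) (R g v) = χ g * ω u v) (hss : HasProj R)
  (hlog : ∀ (m : ℕ) (φ : MultilinearMap K (fun _ : Fin m × Fin 2 => X) K),
    (∀ x ∈ lieT R χ, Kills x φ) → IsTate R χ m φ)

include hnd hωR in
theorem lieT_comm {T : End K X} {Δ : Subgroup Γ} (hΔ : Δ.FiniteIndex)
    (hT : ∀ g ∈ Δ, ∀ u, T (R g u) = R g (T u)) {y : End K X} (hy : y ∈ lieT R χ) :
    T * y = y * T :=
  comm_of_skew ω hnd hωR (fun _ hB => lieT_bil R χ hB hy) hΔ hT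

include hnd hωR hss hlog in
/-- The Lie algebra is the sum of the brackets and of the center. -/
theorem split [IsAlgClosed K] {y : End K X} (hy : y ∈ lieT R χ) :
    ∃ y₁ ∈ lieT R χ, ∃ y₂ ∈ lieT R χ, y = y₁ + y₂ ∧
      (∀ P : End K X, (∀ w ∈ lieT R χ, w * P = P * w) → LinearMap.trace K X (y₁ * P) = 0) ∧
      ∀ w ∈ lieT R χ, y₂ * w = w * y₂ := by
  have hcen : ∀ m ∈ (tf R χ).orthogonal (brk R χ), ∀ w ∈ lieT R χ, m.1 * w = w * m.1 := by
    intro m hm w hw
    rw [LinearMap.BilinForm.mem_orthogonal_iff] at hm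
    have h1 : w * m.1 - m.1 * w ∈ radL R χ := by
      refine ⟨lieT_bracket R χ hw m.2, fun a ha => ?_⟩
      have h2 := hm ⟨a * w - w * a, lieT_bracket R χ ha hw⟩
        (Submodule.subset_span ⟨a, ha, w, hw, rfl⟩)
      rw [tf_apply] at h2
      rw [LinearMap.trace_mul_comm, ← trace_cyc]
      exact h2
    have h2 := radL_eq ω hnd hωR hss h1
    exact (sub_eq_zero.1 h2).symm
  have hdis : Disjoint (brk R χ) ((tf R χ).orthogonal (brk R χ)) := by
    rw [Submodule.disjoint_def]
    intro y hy hy'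
    have h1 := hcen y hy'
    obtain ⟨Δ, hΔ, h2⟩ := comm_fin ω hnd hωR hlog h1
    apply Subtype.ext
    rw [Submodule.coe_zero]
    have h3 : ∀ U ∈ {U | SI R U}, U ≤ LinearMap.ker y.1 := by
      intro U hU u hu
      obtain ⟨P, hP1, hP2, Δ', hΔ', hP3⟩ := exists_P hss hU.2.1
      have h4 : ∀ w ∈ lieT R χ, w * P = P * w := fun w hw =>
        (lieT_comm ω hnd hωR hΔ' hP3 hw).symm
      obtain ⟨c, hc⟩ := scalar_on hΔ h2 hU (mem_of_comm hP1 hP2 (h4 _ y.2).symm)
      have h5 := brk_trace h4 hy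
      rw [trace_scalar hP1 hP2 hc] at h5
      have h6 : (finrank K U : K) ≠ 0 := by
        rw [Nat.cast_ne_zero, ne_eq, Submodule.finrank_eq_zero]
        exact hU.1
      rw [LinearMap.mem_ker, hc u hu, (mul_eq_zero.1 h5).resolve_right h6, zero_smul]
    have h4 := sSup_le h3
    rw [sup_SI hss] at h4
    ext v
    exact h4 (Submodule.mem_top (x := v))
  have hcompl := (LinearMap.BilinForm.isCompl_orthogonal_iff_disjoint tf_refl).2 hdis
  have h1 : (⟨y, hy⟩ : lieT R χ) ∈ brk R χ ⊔ (tf R χ).orthogonal (brk R χ) := by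
    rw [hcompl.sup_eq_top]
    trivial
  obtain ⟨y₁, h₁, y₂, h₂, h⟩ := Submodule.mem_sup.1 h1
  refine ⟨y₁.1, y₁.2, y₂.1, y₂.2, ?_, fun P hP => brk_trace hP h₁, hcen y₂ h₂⟩
  exact (congrArg Subtype.val h).symm

include hnd hωR hss hlog in
/-- A nonzero value of a Tate form gives a determinant relation. -/
theorem exists_rel [IsAlgClosed K] {m : ℕ} {φ : MultilinearMap K (fun _ : Fin m × Fin 2 => X) K}
    (hφ : IsTate R χ m φ) {U : Fin m × Fin 2 → Submodule K X} (hU : ∀ k, SI R (U k))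
    {P : Fin m × Fin 2 → End K X} (hP1 : ∀ k v, P k v ∈ U k) (hP2 : ∀ k, ∀ u ∈ U k, P k u = u)
    {D' : Fin m × Fin 2 → Subgroup Γ} (hD' : ∀ k, (D' k).FiniteIndex)
    (hP3 : ∀ k, ∀ g ∈ D' k, ∀ v, P k (R g v) = R g (P k v))
    {u : Fin m × Fin 2 → X} (hu : ∀ k, u k ∈ U k) (h0 : φ u ≠ 0) :
    ∃ (D : Fin m × Fin 2 → ℕ) (N : ℕ), N ≠ 0 ∧ (∀ k, D k * finrank K (U k) = N) ∧
      DetRel R χ (fun q : Σ k, Fin (D k) => U q.1) ∧
      ∀ y ∈ lieT R χ, ∑ k, (D k : K) * LinearMap.trace K X (y * P k) = 0 := by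
  classical
  have hcomm : ∀ k, ∀ w ∈ lieT R χ, P k * w = w * P k := fun k w hw =>
    lieT_comm ω hnd hωR (hD' k) (hP3 k) hw
  let N : ℕ := ∏ k, finrank K (U k)
  let D : Fin m × Fin 2 → ℕ := fun k => ∏ l ∈ Finset.univ.erase k, finrank K (U l)
  have hN : N ≠ 0 := Finset.prod_ne_zero_iff.2 fun k _ => by
    rw [ne_eq, Submodule.finrank_eq_zero]
    exact (hU k).1
  have hDN : ∀ k, D k * finrank K (U k) = N := fun k =>
    Finset.prod_erase_mul _ _ (Finset.mem_univ k)
  have htr : ∀ y ∈ lieT R χ, ∑ k, (D k : K) * LinearMap.trace K X (y * P k) = 0 := by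
    intro y hy
    obtain ⟨y₁, hy₁, y₂, hy₂, hyy, h1, h2⟩ := split ω hnd hωR hss hlog hy
    obtain ⟨Δ, hΔ, h3⟩ := comm_fin ω hnd hωR hlog h2
    choose a ha using fun k => scalar_on hΔ h3 (hU k)
      (mem_of_comm (hP1 k) (hP2 k) (hcomm k y₂ hy₂))
    have h4 : ∀ k, (D k : K) * LinearMap.trace K X (y * P k) = (N : K) * a k := by
      intro k
      rw [hyy, add_mul, map_add, h1 (P k) (fun w hw => (hcomm k w hw).symm), zero_add,
        trace_scalar (hP1 k) (hP2 k) (ha k), ← hDN k]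
      push_cast
      ring
    rw [Finset.sum_congr rfl fun k _ => h4 k, ← Finset.mul_sum]
    have h5 := hy₂ m φ hφ u
    have h6 : ∀ k, φ (Function.update u k (y₂ (u k))) = a k * φ u := by
      intro k
      rw [ha k _ (hu k), MultilinearMap.map_update_smul, Function.update_eq_self, smul_eq_mul]
    rw [Finset.sum_congr rfl fun k _ => h6 k, ← Finset.sum_mul] at h5
    rw [(mul_eq_zero.1 h5).resolve_right h0, mul_zero]
  refine ⟨D, N, hN, hDN, ?_, htr⟩
  let L : (Σ k, Fin (D k)) → Submodule K X := fun q => U q.1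
  have hcard : ∑ q : (Σ k, Fin (D k)), finrank K (L q) = 2 * (m * N) := by
    rw [Fintype.sum_sigma]
    have h1 : ∀ k, ∑ j : Fin (D k), finrank K (L ⟨k, j⟩) = N := by
      intro k
      change ∑ _j : Fin (D k), finrank K (U k) = N
      rw [Finset.sum_const, Finset.card_univ, Fintype.card_fin, smul_eq_mul]
      exact hDN k
    rw [Finset.sum_congr rfl fun k _ => h1 k, Finset.sum_const, Finset.card_univ,
      Fintype.card_prod, Fintype.card_fin, Fintype.card_fin, smul_eq_mul]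
    ring
  let b : ∀ q : (Σ k, Fin (D k)), Basis (Fin (finrank K (L q))) K (L q) := fun q =>
    Module.finBasis K (L q)
  let p : ∀ q : (Σ k, Fin (D k)), X →ₗ[K] L q := fun q => (P q.1).codRestrict (U q.1) (hP1 q.1)
  have e : (Σ q : (Σ k, Fin (D k)), Fin (finrank K (L q))) ≃ Fin (m * N) × Fin 2 := by
    apply Fintype.equivOfCardEq
    rw [Fintype.card_sigma, Fintype.card_prod, Fintype.card_fin, Fintype.card_fin]
    simp only [Fintype.card_fin]
    rw [hcard, mul_comm]
  have hT : IsTate R χ (m * N) (psiE b p e) := by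
    refine hlog _ _ fun y hy => ?_
    have hyU : ∀ q, ∀ u ∈ L q, y u ∈ L q := fun q =>
      mem_of_comm (hP1 q.1) (hP2 q.1) (hcomm q.1 y hy)
    refine psiE_kills b p e y (fun q => y.restrict (hyU q)) (fun q u => ?_) ?_
    · apply Subtype.ext
      exact congrArg (fun f : End K X => f u) (hcomm q.1 y hy)
    · have h1 : ∀ q : (Σ k, Fin (D k)), LinearMap.trace K (L q) (y.restrict (hyU q)) =
          LinearMap.trace K X (y * P q.1) := fun q => trace_P (hyU q) (hP1 q.1) (hP2 q.1)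
      rw [Finset.sum_congr rfl fun q _ => h1 q, Fintype.sum_sigma]
      have h2 : ∀ k, ∑ j : Fin (D k), LinearMap.trace K X (y * P k) =
          (D k : K) * LinearMap.trace K X (y * P k) := by
        intro k
        rw [Finset.sum_const, Finset.card_univ, Fintype.card_fin, nsmul_eq_mul]
      rw [Finset.sum_congr rfl fun k _ => h2 k]
      exact htr y hy
  obtain ⟨Δ, h1, hΔ, h2⟩ := rel_of_tate b p e
    (fun q u => Subtype.ext (hP2 q.1 u u.2)) hT (fun q => (hU q.1).2.1)
  exact ⟨fun q => hU q.1, m * N, Δ, h1, hΔ, hcard.symm, h2⟩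

include hnd hωR hss hlog in
/-- **The Lie algebra of the Tate forms is the annihilator of the Tate forms of degree four and of the
determinants that are Tate.** -/
theorem mem_lieT [IsAlgClosed K] {x : End K X}
    (h2 : ∀ φ : MultilinearMap K (fun _ : Fin 2 × Fin 2 => X) K, IsTate R χ 2 φ → Kills x φ)
    (h3 : ∀ (Q : Type) [Fintype Q] (L : Q → Submodule K X), DetRel R χ L →
      ∀ h : ∀ q, ∀ u ∈ L q, x u ∈ L q, ∑ q, LinearMap.trace K (L q) (x.restrict (h q)) = 0) :
    x ∈ lieT R χ := by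
  classical
  have hsk : ∀ B, IsTate2 R χ B → ∀ u v, B (x u) v + B u (x v) = 0 := fun B hB u v =>
    skew_of_four ω hnd hωR h2 hB u v
  have hω : IsTate2 R χ ω := ⟨⊤, inferInstance, fun g _ u v => hωR g u v⟩
  obtain ⟨π, hπ1, -, hπ3, hπ4⟩ := exists_decomp ω hnd hωR hss
  have hzL := hπ4 x (hsk ω hω) (h2 _ hπ3)
  obtain ⟨z, hz⟩ : ∃ z, z = x - π x := ⟨_, rfl⟩
  rw [← hz] at hzL
  have hx : x = z + π x := by rw [hz, sub_add_cancel]
  obtain ⟨Δ, hΔ, hzΔ⟩ := comm_fin ω hnd hωR hlog hzL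
  have hzsk : ∀ B, IsTate2 R χ B → ∀ u v, B (z u) v + B u (z v) = 0 := by
    intro B hB u v
    have e1 := hsk B hB u v
    have e2 := lieT_bil R χ hB (hπ1 x) u v
    rw [hz, LinearMap.sub_apply, LinearMap.sub_apply, map_sub, map_sub, LinearMap.sub_apply]
    linear_combination e1 - e2
  rw [hx]
  refine Submodule.add_mem _ ?_ (hπ1 x)
  intro m φ hφ
  have hspan : ⊤ ≤ Submodule.span K {v : X | ∃ U, SI R U ∧ v ∈ U} := by
    rw [← sup_SI hss]
    exact sSup_le fun U hU v hv => Submodule.subset_span ⟨U, hU, hv⟩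
  let b := Basis.ofSpan hspan
  have hb : ∀ i, ∃ U, SI R U ∧ b i ∈ U := fun i => Basis.ofSpan_subset hspan ⟨i, rfl⟩
  have : Fintype _ := FiniteDimensional.fintypeBasisIndex b
  refine kills_of_basis b z φ fun I => ?_
  choose U hU hbU using fun k => hb (I k)
  choose P hP1 hP2 D' hD' hP3 using fun k => exists_P hss (hU k).2.1
  choose c hc using fun k => scalar_on hΔ hzΔ (hU k)
    (mem_of_comm (hP1 k) (hP2 k) (comm_of_skew ω hnd hωR hzsk (hD' k) (hP3 k)))
  have h6 : ∀ k, φ (Function.update (fun l => b (I l)) k (z (b (I k)))) =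
      c k * φ (fun l => b (I l)) := by
    intro k
    rw [hc k _ (hbU k), MultilinearMap.map_update_smul, smul_eq_mul,
      Function.update_eq_self k (fun l => b (I l))]
  rw [Finset.sum_congr rfl fun k _ => h6 k, ← Finset.sum_mul]
  by_cases h0 : φ (fun l => b (I l)) = 0
  · rw [h0, mul_zero]
  obtain ⟨D, N, hN, hDN, hrel, htr⟩ := exists_rel ω hnd hωR hss hlog hφ hU hP1 hP2 hD' hP3 hbU h0
  have hxU : ∀ k, ∀ u ∈ U k, x u ∈ U k := fun k =>
    mem_of_comm (hP1 k) (hP2 k) (comm_of_skew ω hnd hωR hsk (hD' k) (hP3 k))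
  have e1 := h3 _ _ hrel (fun q => hxU q.1)
  have e2 : ∀ q : (Σ k, Fin (D k)), LinearMap.trace K (U q.1) (x.restrict (hxU q.1)) =
      LinearMap.trace K X (x * P q.1) := fun q => trace_P (hxU q.1) (hP1 q.1) (hP2 q.1)
  rw [Finset.sum_congr rfl fun q _ => e2 q, Fintype.sum_sigma] at e1
  have e3 : ∀ k, ∑ j : Fin (D k), LinearMap.trace K X (x * P k) =
      (D k : K) * LinearMap.trace K X (x * P k) := by
    intro k
    rw [Finset.sum_const, Finset.card_univ, Fintype.card_fin, nsmul_eq_mul]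
  rw [Finset.sum_congr rfl fun k _ => e3 k] at e1
  have e4 := htr _ (hπ1 x)
  have e5 : ∀ k, (N : K) * c k = (D k : K) * LinearMap.trace K X (x * P k) -
      (D k : K) * LinearMap.trace K X (π x * P k) := by
    intro k
    rw [← mul_sub, ← map_sub, ← sub_mul, ← hz, trace_scalar (hP1 k) (hP2 k) (hc k), ← hDN k]
    push_cast
    ring
  have e6 : (N : K) * ∑ k, c k = 0 := by
    rw [Finset.mul_sum, Finset.sum_congr rfl fun k _ => e5 k, Finset.sum_sub_distrib, e1, e4,
      sub_zero]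
  rw [(mul_eq_zero.1 e6).resolve_left (Nat.cast_ne_zero.2 hN), zero_mul]

end

end Pool.Agent.H62CT.Sc
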