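import Mathlib
import Pool.Agent.H67FP.Log
import Pool.Agent.H204R3.SP.Descent
import Pool.Agent.W522.U.C4

/-!
# Forms killed by the Lie algebra of the Tate forms are Tate forms
-/

set_option autoImplicit false
set_option linter.unusedSectionVars false

namespace Pool.Agent.H62CT

open Module TensorProduct Pool.Agent.H204R3.SP Pool.Agent.H67FP

noncomputable section

variable {ℓ : ℕ} [Fact ℓ.Prime] {V Γ ι : Type} [AddCommGroup V] [Module ℚ_[ℓ] V] [Group Γ]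
  [Fintype ι] [DecidableEq ι] (b : Basis ι ℚ_[ℓ] V) (ρ : Representation ℚ_[ℓ] Γ V)
  (χ : Γ →* ℚ_[ℓ])

/-- The transposed matrix of the action. -/
def Mt (g : Γ) : Matrix ι ι ℚ_[ℓ] := Matrix.of fun i j => b.repr (ρ g (b i)) j

theorem Mt_sum (g : Γ) (i : ι) : ρ g (b i) = ∑ j, Mt b ρ g i j • b j := (b.sum_repr _).symm

theorem Mt_one : Mt b ρ 1 = 1 := by
  ext i j
  rw [Mt, Matrix.of_apply, map_one, Module.End.one_apply, b.repr_self, Finsupp.single_apply,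
    Matrix.one_apply]

theorem Mt_mul (g h : Γ) : Mt b ρ (g * h) = Mt b ρ h * Mt b ρ g := by
  ext i k
  rw [Matrix.mul_apply]
  change b.repr (ρ (g * h) (b i)) k = _
  rw [map_mul, Module.End.mul_apply, Mt_sum b ρ h, map_sum, map_sum, Finsupp.finsetSum_apply]
  refine Finset.sum_congr rfl fun j _ => ?_
  rw [map_smul, map_smul, Finsupp.smul_apply, smul_eq_mul]
  rfl

theorem Mt_pow (g : Γ) (n : ℕ) : Mt b ρ (g ^ n) = Mt b ρ g ^ n := by
  induction n with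
  | zero => rw [pow_zero, pow_zero, Mt_one]
  | succ n ih => rw [pow_succ, pow_succ', Mt_mul, ih]

/-- The coefficients of a form. -/
def cf {m : ℕ} (φ : MultilinearMap ℚ_[ℓ] (fun _ : Fin m × Fin 2 => V) ℚ_[ℓ]) :
    Ten ℚ_[ℓ] ι (m * 2) := fun I => φ (fun k => b (I (finProdFinEquiv k)))

theorem cf_ext {m : ℕ} {φ ψ : MultilinearMap ℚ_[ℓ] (fun _ : Fin m × Fin 2 => V) ℚ_[ℓ]}
    (h : cf b φ = cf b ψ) : φ = ψ := by
  refine Basis.ext_multilinear (fun _ => b) fun I => ?_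
  have h1 := congrFun h (fun r => I (finProdFinEquiv.symm r))
  simpa [cf] using h1

theorem tp_cf {m : ℕ} (φ : MultilinearMap ℚ_[ℓ] (fun _ : Fin m × Fin 2 => V) ℚ_[ℓ]) (g : Γ)
    (I : Fin (m * 2) → ι) : (tp (m * 2) (Mt b ρ g)).mulVec (cf b φ) I =
      φ (fun k => ρ g (b (I (finProdFinEquiv k)))) := by
  have h1 : (fun k : Fin m × Fin 2 => ρ g (b (I (finProdFinEquiv k)))) =
      fun k => ∑ j, Mt b ρ g (I (finProdFinEquiv k)) j • b j := by
    funext k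
    exact Mt_sum b ρ g _
  rw [h1, MultilinearMap.map_sum]
  change ∑ J : Fin (m * 2) → ι, (∏ r, Mt b ρ g (I r) (J r)) * cf b φ J = _
  refine Fintype.sum_equiv (Equiv.arrowCongr finProdFinEquiv.symm (Equiv.refl ι)) _ _ fun J => ?_
  rw [MultilinearMap.map_smul_univ, smul_eq_mul]
  congr 1
  exact (Fintype.prod_equiv finProdFinEquiv _ _ fun k => rfl).symm

/-- The operator of a matrix. -/
def opM (x : Matrix ι ι ℚ_[ℓ]) : End ℚ_[ℓ] V := b.constr ℚ_[ℓ] fun i => ∑ j, x i j • b j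

theorem opM_basis (x : Matrix ι ι ℚ_[ℓ]) (i : ι) : opM b x (b i) = ∑ j, x i j • b j := by
  rw [opM, Basis.constr_basis]

theorem der_cf {m : ℕ} (φ : MultilinearMap ℚ_[ℓ] (fun _ : Fin m × Fin 2 => V) ℚ_[ℓ])
    (x : Matrix ι ι ℚ_[ℓ]) (I : Fin (m * 2) → ι) : der x (cf b φ) I =
      ∑ k, φ (Function.update (fun l => b (I (finProdFinEquiv l))) k
        (opM b x (b (I (finProdFinEquiv k))))) := by
  change ∑ r, ∑ s : ι, x (I r) s * cf b φ (Function.update I r s) = _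
  refine (Fintype.sum_equiv finProdFinEquiv _ _ fun k => ?_).symm
  rw [opM_basis, MultilinearMap.map_update_sum]
  refine Finset.sum_congr rfl fun s _ => ?_
  rw [MultilinearMap.map_update_smul, smul_eq_mul]
  congr 1
  change _ = φ (fun l => b (Function.update I (finProdFinEquiv k) s (finProdFinEquiv l)))
  congr 1
  funext l
  by_cases hl : l = k
  · subst hl
    rw [Function.update_self, Function.update_self]
  · rw [Function.update_of_ne hl, Function.update_of_ne (fun h => hl (finProdFinEquiv.injective h))]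

theorem cf_wt {m : ℕ} (a : Ten ℚ_[ℓ] ι (m * 2)) (i : Fin (m * 2) → ι) (_ : a i ≠ 0) :
    ∑ r, (fun _ : ι => 1) (i r) = 2 * m := by
  rw [Finset.sum_const, Finset.card_univ, Fintype.card_fin, smul_eq_mul, mul_one, mul_comm]

/-- The logarithm of an element of the group. -/
theorem exists_log_form (g : Γ) (hg : Near (Mt b ρ g)) (hg1 : ∀ i s, ‖Mt b ρ g i s‖ ≤ 1)
    (hc : ‖χ g⁻¹ - 1‖ ≤ ((ℓ : ℝ)⁻¹) ^ 2) (hc1 : ‖χ g⁻¹‖ ≤ 1) :
    ∃ x ∈ lieT ρ χ, ∀ (m : ℕ) (φ : MultilinearMap ℚ_[ℓ] (fun _ : Fin m × Fin 2 => V) ℚ_[ℓ]),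
      Kills x φ → ∀ v, φ (fun k => ρ g (v k)) = χ g ^ m * φ v := by
  obtain ⟨x, hx1, hx2⟩ := exists_log (fun _ : ι => 1) hg hg1 hc hc1
  have hχ : χ g⁻¹ * χ g = 1 := by rw [← map_mul, inv_mul_cancel, map_one]
  refine ⟨opM b x, ?_, ?_⟩
  · intro m φ hφ
    obtain ⟨Δ, hΔ, hφ⟩ := hφ
    obtain ⟨n, hn0, hn⟩ := Pool.Agent.W522.U.exists_pow_mem Δ hΔ g
    have h1 : ((χ g⁻¹ ^ m • tp (m * 2) (Mt b ρ g)) ^ n).mulVec (cf b φ) = cf b φ := by
      rw [smul_pow, ← tp_pow, ← Mt_pow, Matrix.smul_mulVec]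
      funext I
      rw [Pi.smul_apply, tp_cf, hφ _ hn, smul_eq_mul, ← mul_assoc]
      have h2 : (χ g⁻¹ ^ m) ^ n * χ (g ^ n) ^ m = 1 := by
        rw [map_pow, ← pow_mul, ← pow_mul, mul_comm n m, ← mul_pow, hχ, one_pow]
      rw [h2, one_mul]
      rfl
    have h2 := hx1 m (m * 2) (cf b φ) (cf_wt _) n hn0 h1
    refine kills_of_basis b _ _ fun I => ?_
    have h3 := congrFun h2 (fun r => I (finProdFinEquiv.symm r))
    rw [der_cf] at h3
    simpa using h3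
  · intro m φ hφ
    have h1 : der x (cf b φ) = 0 := by
      funext I
      rw [der_cf]
      exact hφ _
    have h2 := hx2 m (m * 2) (cf b φ) (cf_wt _) h1
    have h3 : φ.compLinearMap (fun _ => ρ g) = (χ g ^ m) • φ := by
      refine cf_ext b ?_
      funext I
      have h4 := congrFun h2 I
      rw [Matrix.smul_mulVec, Pi.smul_apply, tp_cf, smul_eq_mul] at h4
      change φ (fun k => ρ g (b (I (finProdFinEquiv k)))) =
        χ g ^ m * φ (fun k => b (I (finProdFinEquiv k)))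
      have h5 : χ g ^ m * χ g⁻¹ ^ m = 1 := by rw [← mul_pow, mul_comm, hχ, one_pow]
      change _ = χ g ^ m * cf b φ I
      rw [← h4, ← mul_assoc, h5, one_mul]
    intro v
    exact congrArg (fun F : MultilinearMap ℚ_[ℓ] (fun _ : Fin m × Fin 2 => V) ℚ_[ℓ] => F v) h3

theorem norm_le_of_toZModPow {z : ℤ_[ℓ]} (h : PadicInt.toZModPow 2 z = 0) :
    ‖(z : ℚ_[ℓ])‖ ≤ ((ℓ : ℝ)⁻¹) ^ 2 := by
  have h1 : z ∈ RingHom.ker (PadicInt.toZModPow (p := ℓ) 2) := h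
  rw [PadicInt.ker_toZModPow, ← PadicInt.norm_le_pow_iff_mem_span_pow] at h1
  rw [← PadicInt.norm_def]
  refine h1.trans (le_of_eq ?_)
  rw [_root_.zpow_neg, inv_pow]
  norm_cast

variable (hlat : ∀ g i j, ‖b.repr (ρ g (b j)) i‖ ≤ 1) (hχ : ∀ g, ‖χ g‖ ≤ 1)

/-- The matrices of the action, over the ring of integers. -/
def matZ : Γ →* Matrix ι ι ℤ_[ℓ] where
  toFun g := Matrix.of fun i j => ⟨b.repr (ρ g (b j)) i, hlat g i j⟩
  map_one' := by
    ext i j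
    apply Subtype.ext
    change b.repr (ρ 1 (b j)) i = (((1 : Matrix ι ι ℤ_[ℓ]) i j : ℤ_[ℓ]) : ℚ_[ℓ])
    rw [map_one, Module.End.one_apply, b.repr_self, Finsupp.single_apply, Matrix.one_apply]
    by_cases h : i = j
    · rw [if_pos h, if_pos h.symm, PadicInt.coe_one]
    · rw [if_neg h, if_neg (Ne.symm h), PadicInt.coe_zero]
  map_mul' g h := by
    ext i j
    apply Subtype.ext
    change b.repr (ρ (g * h) (b j)) i = ((_ : ℤ_[ℓ]) : ℚ_[ℓ])
    rw [Matrix.mul_apply, PadicInt.coe_sum, map_mul, Module.End.mul_apply, Mt_sum b ρ h, map_sum,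
      map_sum, Finsupp.finsetSum_apply]
    refine Finset.sum_congr rfl fun k _ => ?_
    rw [map_smul, map_smul, Finsupp.smul_apply, smul_eq_mul, PadicInt.coe_mul, mul_comm]
    rfl

/-- The character, over the ring of integers. -/
def chiZ : Γ →* ℤ_[ℓ] where
  toFun g := ⟨χ g, hχ g⟩
  map_one' := by
    apply Subtype.ext
    exact map_one χ
  map_mul' g h := by
    apply Subtype.ext
    exact map_mul χ g h

include hlat hχ in
/-- A subgroup of finite index consists of elements congruent to one. -/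
theorem exists_near : ∃ Δ : Subgroup Γ, Δ.FiniteIndex ∧ ∀ g ∈ Δ, Near (Mt b ρ g) ∧
    ‖χ g⁻¹ - 1‖ ≤ ((ℓ : ℝ)⁻¹) ^ 2 := by
  have : NeZero (ℓ ^ 2) := ⟨pow_ne_zero _ (Fact.out : ℓ.Prime).ne_zero⟩
  let f₁ : Γ →* (Matrix ι ι (ZMod (ℓ ^ 2)))ˣ :=
    (((PadicInt.toZModPow (p := ℓ) 2).mapMatrix (m := ι)).toMonoidHom.comp
      (matZ b ρ hlat)).toHomUnits
  let f₂ : Γ →* (ZMod (ℓ ^ 2))ˣ :=
    ((PadicInt.toZModPow (p := ℓ) 2).toMonoidHom.comp (chiZ χ hχ)).toHomUnits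
  refine ⟨f₁.ker ⊓ f₂.ker, inferInstance, fun g hg => ⟨fun i s => ?_, ?_⟩⟩
  · have h1 : f₁ g = 1 := (Subgroup.mem_inf.1 hg).1
    have h2 := congrArg (fun u : (Matrix ι ι (ZMod (ℓ ^ 2)))ˣ =>
      (u : Matrix ι ι (ZMod (ℓ ^ 2))) s i) h1
    have h3 : PadicInt.toZModPow 2 (matZ b ρ hlat g s i) =
        (1 : Matrix ι ι (ZMod (ℓ ^ 2))) s i := h2
    have h4 : (Mt b ρ g - 1) i s = (((matZ b ρ hlat g - 1) s i : ℤ_[ℓ]) : ℚ_[ℓ]) := by
      rw [Matrix.sub_apply, Matrix.sub_apply, PadicInt.coe_sub, Matrix.one_apply, Matrix.one_apply]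
      congr 1
      by_cases h : i = s
      · rw [if_pos h, if_pos h.symm, PadicInt.coe_one]
      · rw [if_neg h, if_neg (Ne.symm h), PadicInt.coe_zero]
    rw [h4]
    apply norm_le_of_toZModPow
    rw [Matrix.sub_apply, map_sub, h3, sub_eq_zero, Matrix.one_apply, Matrix.one_apply]
    split_ifs <;> simp
  · have h1 : f₂ g⁻¹ = 1 := f₂.ker.inv_mem (Subgroup.mem_inf.1 hg).2
    have h2 := congrArg (fun u : (ZMod (ℓ ^ 2))ˣ => (u : ZMod (ℓ ^ 2))) h1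
    have h3 : PadicInt.toZModPow 2 (chiZ χ hχ g⁻¹) = 1 := h2
    have h4 : χ g⁻¹ - 1 = ((chiZ χ hχ g⁻¹ - 1 : ℤ_[ℓ]) : ℚ_[ℓ]) := by
      rw [PadicInt.coe_sub, PadicInt.coe_one]
      rfl
    rw [h4]
    apply norm_le_of_toZModPow
    rw [map_sub, h3, map_one, sub_self]

section ext

variable {Ω : Type} [Field Ω] [CharZero Ω] [Algebra ℚ_[ℓ] Ω]

/-- A component of a form over the larger field. -/
def cmp {β : Type} (w : Basis β ℚ_[ℓ] Ω) (i : β) {κ : Type} [Fintype κ]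
    (φ : MultilinearMap Ω (fun _ : κ => Ω ⊗[ℚ_[ℓ]] V) Ω) :
    MultilinearMap ℚ_[ℓ] (fun _ : κ => V) ℚ_[ℓ] :=
  (w.coord i).compMultilinearMap
    ((φ.restrictScalars ℚ_[ℓ]).compLinearMap (fun _ => TensorProduct.mk ℚ_[ℓ] Ω V 1))

theorem cmp_apply {β : Type} (w : Basis β ℚ_[ℓ] Ω) (i : β) {κ : Type} [Fintype κ]
    (φ : MultilinearMap Ω (fun _ : κ => Ω ⊗[ℚ_[ℓ]] V) Ω) (v : κ → V) :
    cmp w i φ v = w.repr (φ (fun k => (1 : Ω) ⊗ₜ[ℚ_[ℓ]] v k)) i := rfl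

include b in
theorem kills_cmp {κ : Type} [Fintype κ] [DecidableEq κ] {β : Type} (w : Basis β ℚ_[ℓ] Ω)
    (φ : MultilinearMap Ω (fun _ : κ => Ω ⊗[ℚ_[ℓ]] V) Ω) (x : End ℚ_[ℓ] V) :
    Kills (x.baseChange Ω) φ ↔ ∀ i, Kills x (cmp w i φ) := by
  have h1 : ∀ (v : κ → V) (k : κ), (fun l => (1 : Ω) ⊗ₜ[ℚ_[ℓ]] Function.update v k (x (v k)) l) =
      Function.update (fun l => (1 : Ω) ⊗ₜ[ℚ_[ℓ]] v l) k
        (x.baseChange Ω ((1 : Ω) ⊗ₜ[ℚ_[ℓ]] v k)) := by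
    intro v k
    funext l
    by_cases hl : l = k
    · subst hl
      rw [Function.update_self, Function.update_self, LinearMap.baseChange_tmul]
    · rw [Function.update_of_ne hl, Function.update_of_ne hl]
  have h2 : ∀ (v : κ → V) (i : β), ∑ k, cmp w i φ (Function.update v k (x (v k))) =
      w.repr (∑ k, φ (Function.update (fun l => (1 : Ω) ⊗ₜ[ℚ_[ℓ]] v l) k
        (x.baseChange Ω ((1 : Ω) ⊗ₜ[ℚ_[ℓ]] v k)))) i := by
    intro v i
    rw [map_sum, Finsupp.finsetSum_apply]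
    refine Finset.sum_congr rfl fun k _ => ?_
    rw [cmp_apply, h1]
  constructor
  · intro h i v
    rw [h2, h, map_zero, Finsupp.zero_apply]
  · intro h
    refine kills_of_basis (b.baseChange Ω) _ _ fun I => ?_
    apply w.repr.injective
    ext i
    have h3 := h i (fun l => b (I l))
    rw [h2] at h3
    simp only [Basis.baseChange_apply]
    rw [h3, map_zero, Finsupp.zero_apply]

theorem tate_cmp {m : ℕ} {β : Type} (w : Basis β ℚ_[ℓ] Ω) (i : β)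
    (φ : MultilinearMap Ω (fun _ : Fin m × Fin 2 => Ω ⊗[ℚ_[ℓ]] V) Ω)
    (hφ : IsTate (bcr ρ Ω) (bcc χ Ω) m φ) : IsTate ρ χ m (cmp w i φ) := by
  obtain ⟨Δ, hΔ, h⟩ := hφ
  refine ⟨Δ, hΔ, fun s hs v => ?_⟩
  rw [cmp_apply, cmp_apply]
  have h1 := h s hs (fun k => (1 : Ω) ⊗ₜ[ℚ_[ℓ]] v k)
  simp only [bcr_tmul] at h1
  rw [h1, bcc_apply, ← map_pow, ← Algebra.smul_def, map_smul, Finsupp.smul_apply, smul_eq_mul]

include b in
/-- The extension of scalars of an element of the Lie algebra. -/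
theorem baseChange_mem {x : End ℚ_[ℓ] V} (hx : x ∈ lieT ρ χ) :
    x.baseChange Ω ∈ lieT (bcr ρ Ω) (bcc χ Ω) := by
  intro m φ hφ
  exact (kills_cmp b (Basis.ofVectorSpace ℚ_[ℓ] Ω) φ x).2 fun i =>
    hx m _ (tate_cmp ρ χ _ i φ hφ)

include hlat hχ in
/-- **Forms killed by the Lie algebra of the Tate forms are Tate forms.** -/
theorem tate_of_killed {m : ℕ} (φ : MultilinearMap Ω (fun _ : Fin m × Fin 2 => Ω ⊗[ℚ_[ℓ]] V) Ω)
    (hφ : ∀ x ∈ lieT (bcr ρ Ω) (bcc χ Ω), Kills x φ) : IsTate (bcr ρ Ω) (bcc χ Ω) m φ := by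
  obtain ⟨Δ, hΔ, hnear⟩ := exists_near b ρ χ hlat hχ
  refine ⟨Δ, hΔ, fun g hg => ?_⟩
  obtain ⟨x, hx, hlog⟩ := exists_log_form b ρ χ g (hnear g hg).1 (fun i s => hlat g s i)
    (hnear g hg).2 (hχ _)
  let w := Basis.ofVectorSpace ℚ_[ℓ] Ω
  have h1 := (kills_cmp b w φ x).1 (hφ _ (baseChange_mem b ρ χ hx))
  have h2 : φ.compLinearMap (fun _ => bcr ρ Ω g) = (bcc χ Ω g ^ m) • φ := by
    refine Basis.ext_multilinear (fun _ => b.baseChange Ω) fun I => ?_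
    change φ (fun l => bcr ρ Ω g (b.baseChange Ω (I l))) =
      bcc χ Ω g ^ m * φ (fun l => b.baseChange Ω (I l))
    simp only [Basis.baseChange_apply, bcr_tmul]
    apply w.repr.injective
    ext i
    have h3 := hlog m _ (h1 i) (fun l => b (I l))
    rw [cmp_apply, cmp_apply] at h3
    rw [h3, bcc_apply, ← map_pow (algebraMap ℚ_[ℓ] Ω), ← Algebra.smul_def, map_smul,
      Finsupp.smul_apply, smul_eq_mul]
  intro v
  exact congrArg (fun F : MultilinearMap Ω (fun _ : Fin m × Fin 2 => Ω ⊗[ℚ_[ℓ]] V) Ω => F v) h2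

end ext

end

end Pool.Agent.H62CT
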