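import Mathlib
import Pool.Agent.H62CT.Lg
import Pool.Agent.Y126.AV.Wedge
import Pool.Agent.H204R3.GP.TateG
import Pool.Agent.W522.U.C9

/-!
# Tate forms of degree four: from classes to tensors, and extension of scalars
-/

set_option autoImplicit false
set_option linter.unusedSectionVars false
set_option linter.deprecated false

namespace Pool.Agent.H62CT.Tr

open Module TensorProduct Pool.Agent.H204R3.SP Pool.Agent.H204R3.GP Pool.Agent.W522.U

noncomputable section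

section classes

variable {k : Type} [Field k] [CharZero k] {V : Type} [AddCommGroup V] [Module k V]
  {Γ : Type} [Group Γ] (ρ : Representation k Γ V) (χ : Γ →* k)

/-- The Tate classes of codimension two on the fourth power are combinations of cup products of Tate
classes of degree two. -/
def CodimTwo : Prop :=
  ∀ f : (Fin 4 → V) [⋀^Fin 2 × Fin 2]→ₗ[k] k,
    (∃ Δ : Subgroup Γ, Δ.FiniteIndex ∧ ∀ s ∈ Δ, ∀ v : Fin 2 × Fin 2 → Fin 4 → V,
      f (fun l i => ρ s (v l i)) = χ s ^ 2 * f v) →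
    f ∈ Submodule.span k {g : (Fin 4 → V) [⋀^Fin 2 × Fin 2]→ₗ[k] k |
      ∃ B : Fin 2 → (Fin 4 → V) [⋀^Fin 2]→ₗ[k] k,
        (∀ l, ∃ Δ : Subgroup Γ, Δ.FiniteIndex ∧ ∀ s ∈ Δ, ∀ v : Fin 2 → Fin 4 → V,
          B l (fun l i => ρ s (v l i)) = χ s * B l v) ∧
        ∀ v, g v = ∑ σ : Equiv.Perm (Fin 2 × Fin 2), ((Equiv.Perm.sign σ : ℤ) : k) *
          ∏ l, B l ![v (σ (l, 0)), v (σ (l, 1))]}

/-- The restriction of a form on the fourth power. -/
def resF (e : Fin 2 × Fin 2 ≃ Fin 4) :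
    ((Fin 4 → V) [⋀^Fin 2 × Fin 2]→ₗ[k] k) →ₗ[k]
      MultilinearMap k (fun _ : Fin 2 × Fin 2 => V) k where
  toFun g := g.toMultilinearMap.compLinearMap
    (fun l => LinearMap.single k (fun _ : Fin 4 => V) (e l))
  map_add' _ _ := rfl
  map_smul' _ _ := rfl

theorem resF_apply (e : Fin 2 × Fin 2 ≃ Fin 4) (g : (Fin 4 → V) [⋀^Fin 2 × Fin 2]→ₗ[k] k)
    (v : Fin 2 × Fin 2 → V) : resF (k := k) (V := V) e g v = g (fun l => Pi.single (e l) (v l)) := rfl

theorem single_act (s : Γ) (i : Fin 4) (x : V) :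
    (Pi.single i (ρ s x) : Fin 4 → V) = fun j => ρ s ((Pi.single i x : Fin 4 → V) j) := by
  funext j
  by_cases h : j = i
  · subst h
    rw [Pi.single_eq_same, Pi.single_eq_same]
  · rw [Pi.single_eq_of_ne h, Pi.single_eq_of_ne h, map_zero]

/-- From classes to tensors. -/
theorem tensors_of_classes (h : CodimTwo ρ χ)
    (φ : MultilinearMap k (fun _ : Fin 2 × Fin 2 => V) k) (hφ : IsTate ρ χ 2 φ) :
    φ ∈ Submodule.span k (PT ρ χ 2) := by
  classical
  let e : Fin 2 × Fin 2 ≃ Fin 4 := finProdFinEquiv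
  let F : MultilinearMap k (fun _ : Fin 2 × Fin 2 => Fin 4 → V) k :=
    φ.compLinearMap (fun l => LinearMap.proj (e l))
  have hF : ∀ v : Fin 2 × Fin 2 → Fin 4 → V, F v = φ (fun l => v l (e l)) := fun v => rfl
  let f : (Fin 4 → V) [⋀^Fin 2 × Fin 2]→ₗ[k] k := MultilinearMap.alternatization F
  have hf : ∀ v, f v = ∑ σ : Equiv.Perm (Fin 2 × Fin 2), Equiv.Perm.sign σ •
      φ (fun l => v (σ l) (e l)) := by
    intro v
    change MultilinearMap.alternatization F v = _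
    rw [MultilinearMap.alternatization_apply]
    rfl
  obtain ⟨Δ, hΔ, hφ⟩ := hφ
  have h1 := h f ⟨Δ, hΔ, fun s hs v => by
    rw [hf, hf, Finset.mul_sum]
    refine Finset.sum_congr rfl fun σ _ => ?_
    rw [hφ s hs, mul_smul_comm]⟩
  have h2 : resF (k := k) (V := V) e f = φ := by
    refine MultilinearMap.ext fun v => ?_
    rw [resF_apply, hf, Finset.sum_eq_single 1]
    · rw [Equiv.Perm.sign_one, one_smul]
      congr 1
      funext l
      rw [Equiv.Perm.one_apply, Pi.single_eq_same]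
    · intro σ _ hσ
      obtain ⟨l, hl⟩ : ∃ l, σ l ≠ l := by
        by_contra hcon
        push Not at hcon
        exact hσ (Equiv.ext hcon)
      rw [φ.map_coord_zero l, smul_zero]
      rw [Pi.single_eq_of_ne]
      exact fun h' => hl (e.injective h').symm
    · intro h'
      exact absurd (Finset.mem_univ _) h'
  rw [← h2]
  have key : ∀ g ∈ Submodule.span k {g : (Fin 4 → V) [⋀^Fin 2 × Fin 2]→ₗ[k] k |
      ∃ B : Fin 2 → (Fin 4 → V) [⋀^Fin 2]→ₗ[k] k,
        (∀ l, ∃ Δ : Subgroup Γ, Δ.FiniteIndex ∧ ∀ s ∈ Δ, ∀ v : Fin 2 → Fin 4 → V,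
          B l (fun l i => ρ s (v l i)) = χ s * B l v) ∧
        ∀ v, g v = ∑ σ : Equiv.Perm (Fin 2 × Fin 2), ((Equiv.Perm.sign σ : ℤ) : k) *
          ∏ l, B l ![v (σ (l, 0)), v (σ (l, 1))]}, resF (k := k) (V := V) e g ∈ Submodule.span k (PT ρ χ 2) := by
    intro g hg
    have hg' := Submodule.mem_map_of_mem (f := resF (k := k) (V := V) e) hg
    rw [Submodule.map_span] at hg'
    refine Submodule.span_le.2 ?_ hg'
    rintro _ ⟨g, ⟨B, hB, hg⟩, rfl⟩
    let C : Equiv.Perm (Fin 2 × Fin 2) → Fin 2 → (V →ₗ[k] V →ₗ[k] k) := fun σ l =>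
      (Pool.Agent.Y126.AV.toBil (B l)).compl₁₂
        (LinearMap.single k (fun _ : Fin 4 => V) (e (σ (l, 0))))
        (LinearMap.single k (fun _ : Fin 4 => V) (e (σ (l, 1))))
    have hC : ∀ σ l x y, C σ l x y =
        B l ![Pi.single (e (σ (l, 0))) x, Pi.single (e (σ (l, 1))) y] := fun _ _ _ _ => rfl
    have h3 : resF (k := k) (V := V) e g = ∑ σ : Equiv.Perm (Fin 2 × Fin 2), ((Equiv.Perm.sign σ : ℤ) : k) •
        mmG σ (C σ) := by
      refine MultilinearMap.ext fun v => ?_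
      rw [resF_apply, hg, MultilinearMap.sum_apply]
      refine Finset.sum_congr rfl fun σ _ => ?_
      rw [MultilinearMap.smul_apply, smul_eq_mul, mmG_apply]
      rfl
    rw [SetLike.mem_coe, h3]
    refine Submodule.sum_mem _ fun σ _ => Submodule.smul_mem _ _
      (Submodule.subset_span ⟨σ, C σ, fun l => ?_, rfl⟩)
    obtain ⟨Δ', hΔ', h4⟩ := hB l
    refine ⟨Δ', hΔ', fun s hs x y => ?_⟩
    rw [hC, hC, ← h4 s hs]
    congr 1
    funext j
    fin_cases j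
    · exact single_act ρ s _ x
    · exact single_act ρ s _ y
  exact key f h1

end classes

section ext

variable {ℓ : ℕ} [Fact ℓ.Prime] {V Γ ι : Type} [AddCommGroup V] [Module ℚ_[ℓ] V] [Group Γ]
  [Fintype ι] [DecidableEq ι] (b : Basis ι ℚ_[ℓ] V) (ρ : Representation ℚ_[ℓ] Γ V)
  (χ : Γ →* ℚ_[ℓ]) {Ω : Type} [Field Ω] [CharZero Ω] [Algebra ℚ_[ℓ] Ω]

/-- A form is a combination of the base changes of its components. -/
theorem eq_sum_cmp {κ β : Type} [Fintype κ] [DecidableEq κ] (w : Basis β ℚ_[ℓ] Ω)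
    (φ : MultilinearMap Ω (fun _ : κ => Ω ⊗[ℚ_[ℓ]] V) Ω) :
    ∃ S : Finset β, φ = ∑ i ∈ S, w i • bcm (Ω := Ω) b (cmp w i φ) := by
  classical
  let S : Finset β := Finset.univ.biUnion fun I : κ → ι =>
    (w.repr (φ (fun k => (1 : Ω) ⊗ₜ[ℚ_[ℓ]] b (I k)))).support
  refine ⟨S, ?_⟩
  refine Basis.ext_multilinear (fun _ => b.baseChange Ω) fun I => ?_
  rw [MultilinearMap.sum_apply]
  simp only [Basis.baseChange_apply]
  have h2 := w.linearCombination_repr (φ (fun k => (1 : Ω) ⊗ₜ[ℚ_[ℓ]] b (I k)))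
  have hsub : (w.repr (φ (fun k => (1 : Ω) ⊗ₜ[ℚ_[ℓ]] b (I k)))).support ⊆ S :=
    fun i hi => Finset.mem_biUnion.2 ⟨I, Finset.mem_univ _, hi⟩
  rw [Finsupp.linearCombination_apply, Finsupp.sum_of_support_subset _ hsub
    (fun i a => a • w i) (fun i _ => zero_smul _ _)] at h2
  nth_rewrite 1 [← h2]
  refine Finset.sum_congr rfl fun i _ => ?_
  rw [MultilinearMap.smul_apply, bcm_one, cmp_apply, smul_eq_mul, Algebra.smul_def, mul_comm]

/-- The base change is semilinear. -/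
theorem bcm_add {κ : Type} [Fintype κ] [DecidableEq κ]
    (φ ψ : MultilinearMap ℚ_[ℓ] (fun _ : κ => V) ℚ_[ℓ]) :
    bcm (Ω := Ω) b (φ + ψ) = bcm (Ω := Ω) b φ + bcm (Ω := Ω) b ψ := by
  refine Basis.ext_multilinear (fun _ => b.baseChange Ω) fun I => ?_
  rw [MultilinearMap.add_apply, bcm_basis, bcm_basis, bcm_basis, MultilinearMap.add_apply, map_add]

theorem bcm_zero {κ : Type} [Fintype κ] [DecidableEq κ] :
    bcm (Ω := Ω) b (0 : MultilinearMap ℚ_[ℓ] (fun _ : κ => V) ℚ_[ℓ]) = 0 := by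
  refine Basis.ext_multilinear (fun _ => b.baseChange Ω) fun I => ?_
  rw [bcm_basis, MultilinearMap.zero_apply, map_zero, MultilinearMap.zero_apply]

theorem bcm_smul {κ : Type} [Fintype κ] [DecidableEq κ] (c : ℚ_[ℓ])
    (φ : MultilinearMap ℚ_[ℓ] (fun _ : κ => V) ℚ_[ℓ]) :
    bcm (Ω := Ω) b (c • φ) = algebraMap ℚ_[ℓ] Ω c • bcm (Ω := Ω) b φ := by
  refine Basis.ext_multilinear (fun _ => b.baseChange Ω) fun I => ?_
  rw [MultilinearMap.smul_apply, bcm_basis, bcm_basis, MultilinearMap.smul_apply, smul_eq_mul,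
    map_mul, smul_eq_mul]

theorem bcm_mmG {m : ℕ} (σ : Equiv.Perm (Fin m × Fin 2))
    (B : Fin m → (V →ₗ[ℚ_[ℓ]] V →ₗ[ℚ_[ℓ]] ℚ_[ℓ])) :
    bcm (Ω := Ω) b (mmG σ B) = mmG σ (fun l => bcb Ω (B l)) := by
  refine Basis.ext_multilinear (fun _ => b.baseChange Ω) fun I => ?_
  rw [bcm_basis, mmG_apply, mmG_apply, map_prod]
  refine Finset.prod_congr rfl fun l _ => ?_
  rw [Basis.baseChange_apply, Basis.baseChange_apply, bcb_one]

theorem tate2_bcb {B : V →ₗ[ℚ_[ℓ]] V →ₗ[ℚ_[ℓ]] ℚ_[ℓ]} (hB : IsTate2 ρ χ B) :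
    IsTate2 (bcr ρ Ω) (bcc χ Ω) (bcb Ω B) := by
  obtain ⟨Δ, hΔ, h⟩ := hB
  refine ⟨Δ, hΔ, fun s hs u v => ?_⟩
  induction u with
  | zero => simp only [map_zero, LinearMap.zero_apply, mul_zero]
  | add u u' hu hu' => simp only [map_add, LinearMap.add_apply, hu, hu', mul_add]
  | tmul a u =>
    induction v with
    | zero => simp only [map_zero, mul_zero]
    | add v v' hv hv' => simp only [map_add, hv, hv', mul_add]
    | tmul c v =>
      rw [bcr_tmul, bcr_tmul, bcb_tmul, bcb_tmul, h s hs, bcc_apply, mul_smul,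
        Algebra.smul_def (χ s)]

include b in
/-- Extension of scalars of the hypothesis on forms of degree four. -/
theorem four_ext {m : ℕ}
    (h : ∀ φ : MultilinearMap ℚ_[ℓ] (fun _ : Fin m × Fin 2 => V) ℚ_[ℓ], IsTate ρ χ m φ →
      φ ∈ Submodule.span ℚ_[ℓ] (PT ρ χ m))
    (φ : MultilinearMap Ω (fun _ : Fin m × Fin 2 => Ω ⊗[ℚ_[ℓ]] V) Ω)
    (hφ : IsTate (bcr ρ Ω) (bcc χ Ω) m φ) :
    φ ∈ Submodule.span Ω (PT (bcr ρ Ω) (bcc χ Ω) m) := by
  classical
  let w := Basis.ofVectorSpace ℚ_[ℓ] Ω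
  obtain ⟨S, hS⟩ := eq_sum_cmp b w φ
  rw [hS]
  refine Submodule.sum_mem _ fun i _ => Submodule.smul_mem _ _ ?_
  have h1 := h _ (tate_cmp ρ χ w i φ hφ)
  have key : ∀ ψ ∈ Submodule.span ℚ_[ℓ] (PT ρ χ m),
      bcm (Ω := Ω) b ψ ∈ Submodule.span Ω (PT (bcr ρ Ω) (bcc χ Ω) m) := by
    intro ψ hψ
    induction hψ using Submodule.span_induction with
    | mem ψ hψ =>
      obtain ⟨σ, B, hB, rfl⟩ := hψ
      rw [bcm_mmG]
      exact Submodule.subset_span ⟨σ, _, fun l => tate2_bcb ρ χ (hB l), rfl⟩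
    | zero =>
      rw [bcm_zero]
      exact Submodule.zero_mem _
    | add a c _ _ ha hc =>
      rw [bcm_add]
      exact Submodule.add_mem _ ha hc
    | smul c a _ ha =>
      rw [bcm_smul]
      exact Submodule.smul_mem _ _ ha
  exact key _ h1

end ext

end

end Pool.Agent.H62CT.Tr
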