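import Mathlib
import Pool.Agent.H62CT.Sd
import Pool.Agent.H62CT.Tr
import Pool.Agent.Y126.Glue

/-!
# The Lie algebra over the field of `ℓ`-adic numbers
-/

set_option autoImplicit false
set_option linter.unusedSectionVars false
set_option linter.deprecated false

namespace Pool.Agent.H62CT.Fo

open Module TensorProduct Pool.Agent.Y126.Notions
open Pool.Agent.H204R3.SP Pool.Agent.H204R3.GP Pool.Agent.W522.U Pool.Agent.H62CT.Sc
open Pool.Agent.H62CT.Dt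

noncomputable section

section alg

variable {K : Type} [Field K] [CharZero K] {X : Type} [AddCommGroup X] [Module K X]
  [FiniteDimensional K X] {Γ : Type} [Group Γ] {R : Representation K Γ X} {χ : Γ →* K}
  (ω : X →ₗ[K] X →ₗ[K] K) (hnd : ∀ u, (∀ v, ω u v = 0) → u = 0)
  (hωR : ∀ g u v, ω (R g u) (R g v) = χ g * ω u v) (hss : HasProj R)
  (hlog : ∀ (m : ℕ) (φ : MultilinearMap K (fun _ : Fin m × Fin 2 => X) K),
    (∀ x ∈ lieT R χ, Kills x φ) → IsTate R χ m φ)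

include hnd hωR hss in
/-- The trace of a skew operator on a self-dual subspace is zero. -/
theorem trace_selfdual {x : End K X}
    (hx : ∀ B, IsTate2 R χ B → ∀ u v, B (x u) v + B u (x v) = 0)
    {U : Submodule K X} (hU : SI R U) (hd : Du R χ U U) (hxU : ∀ u ∈ U, x u ∈ U) :
    LinearMap.trace K U (x.restrict hxU) = 0 := by
  obtain ⟨P, hP1, hP2, Δ', hΔ', hP3⟩ := exists_P hss hU.2.1
  obtain ⟨Δ, hΔ, B, hB0, hB⟩ := hd
  have hB' : IsTate2 R χ (B.compl₁₂ P P) := by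
    refine ⟨Δ ⊓ Δ', inferInstance, fun g hg u v => ?_⟩
    rw [LinearMap.compl₁₂_apply, LinearMap.compl₁₂_apply, hP3 g hg.2, hP3 g hg.2,
      hB g hg.1 _ (hP1 _) _ (hP1 _)]
  refine Pool.Agent.W528.Odd.trace_sp (B.compl₁₂ U.subtype U.subtype) (fun u hu => ?_)
    (fun a b => ?_)
  · apply Subtype.ext
    exact du_left hU hU.2.1 hΔ hB0 hB u u.2 fun v hv => hu ⟨v, hv⟩
  · have h1 := hx _ hB' a b
    rw [LinearMap.compl₁₂_apply, LinearMap.compl₁₂_apply, hP2 _ (hxU a a.2), hP2 _ (hxU b b.2),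
      hP2 a a.2, hP2 b b.2] at h1
    exact h1

include hnd hωR hss hlog in
/-- **The self-dual case.** -/
theorem mem_lieT_selfdual [IsAlgClosed K] {x : End K X}
    (h2 : ∀ φ : MultilinearMap K (fun _ : Fin 2 × Fin 2 => X) K, IsTate R χ 2 φ → Kills x φ)
    (hd : ∀ U, SI R U → Du R χ U U) : x ∈ lieT R χ := by
  refine mem_lieT ω hnd hωR hss hlog h2 fun Q _ L hL h => ?_
  refine Finset.sum_eq_zero fun q _ => ?_
  exact trace_selfdual ω hnd hωR hss (fun B hB u v => skew_of_four ω hnd hωR h2 hB u v)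
    (hL.1 q) (hd _ (hL.1 q)) (h q)

include hnd hωR hss in
/-- The elements of the Lie algebra annihilate the determinants. -/
theorem trace_lieT {x : End K X} (hx : x ∈ lieT R χ) {Q : Type} [Fintype Q]
    {L : Q → Submodule K X} (hL : ∀ q, SI R (L q))
    (hrel : ∃ (c : ℕ) (Δ : Subgroup Γ) (h : ∀ q, ∀ g ∈ Δ, ∀ u ∈ L q, R g u ∈ L q),
      Δ.FiniteIndex ∧ 2 * c = ∑ q, finrank K (L q) ∧
      ∀ (g : Γ) (hg : g ∈ Δ), ∏ q, LinearMap.det ((R g).restrict (h q g hg)) = χ g ^ c)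
    (h : ∀ q, ∀ u ∈ L q, x u ∈ L q) :
    ∑ q, LinearMap.trace K (L q) (x.restrict (h q)) = 0 := by
  classical
  obtain ⟨c, Δ, hΔL, hΔ, hc, hdet⟩ := hrel
  choose P hP1 hP2 D' hD' hP3 using fun q => exists_P hss (hL q).2.1
  let b : ∀ q, Basis (Fin (finrank K (L q))) K (L q) := fun q => Module.finBasis K (L q)
  let p : ∀ q, X →ₗ[K] L q := fun q => (P q).codRestrict (L q) (hP1 q)
  have e : (Σ q, Fin (finrank K (L q))) ≃ Fin c × Fin 2 := by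
    apply Fintype.equivOfCardEq
    rw [Fintype.card_sigma, Fintype.card_prod, Fintype.card_fin, Fintype.card_fin]
    simp only [Fintype.card_fin]
    rw [← hc, mul_comm]
  have hT : IsTate R χ c (psiE b p e) :=
    tate_of_rel b p e hD' Δ hΔ hΔL (fun q g hg v => hP3 q g hg v) hdet
  refine trace_of_kills b p e (fun q u => Subtype.ext (hP2 q u u.2)) x _ (fun q u => ?_)
    (hx c _ hT)
  apply Subtype.ext
  exact congrArg (fun f : End K X => f u) (lieT_comm ω hnd hωR (hD' q) (hP3 q) hx)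

end alg

section padic

variable {ℓ : ℕ} [Fact ℓ.Prime] {V Γ ι : Type} [AddCommGroup V] [Module ℚ_[ℓ] V]
    [FiniteDimensional ℚ_[ℓ] V] [Group Γ] [Fintype ι] (b : Basis ι ℚ_[ℓ] V)
    (ρ : Representation ℚ_[ℓ] Γ V) (χ : Γ →* ℚ_[ℓ])
    (hlat : ∀ g i j, ‖b.repr (ρ g (b j)) i‖ ≤ 1) (hχ : ∀ g, ‖χ g‖ ≤ 1)

/-- The action by derivations on the forms in `2 m` variables. -/
def Annihilates {K X : Type} [Field K] [AddCommGroup X] [Module K X] (x : Module.End K X) {m : ℕ}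
    (φ : MultilinearMap K (fun _ : Fin m × Fin 2 => X) K) : Prop :=
  ∀ v : Fin m × Fin 2 → X, ∑ k, φ (Function.update v k (x (v k))) = 0

include hlat hχ in
/-- **Operators over the algebraic closure.** -/
theorem kills_of_four (ω : V →ₗ[ℚ_[ℓ]] V →ₗ[ℚ_[ℓ]] ℚ_[ℓ]) (halt : ∀ v, ω v v = 0)
    (hnondeg : ∀ u, (∀ v, ω v u = 0) → u = 0)
    (hω : ∀ s u v, ω (ρ s u) (ρ s v) = χ s * ω u v)
    (hsemisimple : PotentiallySemisimple ρ)
    {x : End (AlgebraicClosure ℚ_[ℓ]) (AlgebraicClosure ℚ_[ℓ] ⊗[ℚ_[ℓ]] V)}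
    (h2 : ∀ φ : MultilinearMap (AlgebraicClosure ℚ_[ℓ])
      (fun _ : Fin 2 × Fin 2 => AlgebraicClosure ℚ_[ℓ] ⊗[ℚ_[ℓ]] V) (AlgebraicClosure ℚ_[ℓ]),
      IsTate (bcr ρ (AlgebraicClosure ℚ_[ℓ])) (bcc χ (AlgebraicClosure ℚ_[ℓ])) 2 φ → Kills x φ)
    (h3 : ∀ (Q : Type) [Fintype Q]
      (L : Q → Submodule (AlgebraicClosure ℚ_[ℓ]) (AlgebraicClosure ℚ_[ℓ] ⊗[ℚ_[ℓ]] V)),
      DetRel (bcr ρ (AlgebraicClosure ℚ_[ℓ])) (bcc χ (AlgebraicClosure ℚ_[ℓ])) L →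
      ∀ h : ∀ q, ∀ u ∈ L q, x u ∈ L q,
        ∑ q, LinearMap.trace (AlgebraicClosure ℚ_[ℓ]) (L q) (x.restrict (h q)) = 0) :
    x ∈ lieT (bcr ρ (AlgebraicClosure ℚ_[ℓ])) (bcc χ (AlgebraicClosure ℚ_[ℓ])) := by
  classical
  exact mem_lieT (bcb (AlgebraicClosure ℚ_[ℓ]) ω)
    (fun u hu => bcb_nondeg_left ω hnondeg (left_nondeg ω halt hnondeg) u hu)
    (bcb_inv (Ω := AlgebraicClosure ℚ_[ℓ]) ρ χ ω hω) (hasProj_bcr ρ _ hsemisimple)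
    (fun m φ hφ => tate_of_killed b ρ χ hlat hχ φ hφ) h2 h3

include hlat hχ in
/-- **Operators over the `ℓ`-adic numbers, self-dual case.** -/
theorem kills_of_four_selfdual (ω : V →ₗ[ℚ_[ℓ]] V →ₗ[ℚ_[ℓ]] ℚ_[ℓ]) (halt : ∀ v, ω v v = 0)
    (hnondeg : ∀ u, (∀ v, ω v u = 0) → u = 0)
    (hω : ∀ s u v, ω (ρ s u) (ρ s v) = χ s * ω u v)
    (hsemisimple : PotentiallySemisimple ρ)
    (hd : ∀ U, StronglyIrreducible (extend (AlgebraicClosure ℚ_[ℓ]) ρ) U →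
      AreDual (extend (AlgebraicClosure ℚ_[ℓ]) ρ)
        ((algebraMap ℚ_[ℓ] (AlgebraicClosure ℚ_[ℓ]) : ℚ_[ℓ] →* _).comp χ) U U)
    {x : End ℚ_[ℓ] V}
    (h2 : ∀ φ : MultilinearMap ℚ_[ℓ] (fun _ : Fin 2 × Fin 2 => V) ℚ_[ℓ],
      IsTate ρ χ 2 φ → Kills x φ) {m : ℕ}
    {φ : MultilinearMap ℚ_[ℓ] (fun _ : Fin m × Fin 2 => V) ℚ_[ℓ]} (hφ : IsTate ρ χ m φ) :
    Kills x φ := by
  classical
  have h1 : x.baseChange (AlgebraicClosure ℚ_[ℓ]) ∈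
      lieT (bcr ρ (AlgebraicClosure ℚ_[ℓ])) (bcc χ (AlgebraicClosure ℚ_[ℓ])) := by
    refine mem_lieT_selfdual (bcb (AlgebraicClosure ℚ_[ℓ]) ω)
      (fun u hu => bcb_nondeg_left ω hnondeg (left_nondeg ω halt hnondeg) u hu)
      (bcb_inv (Ω := AlgebraicClosure ℚ_[ℓ]) ρ χ ω hω) (hasProj_bcr ρ _ hsemisimple)
      (fun m φ hφ => tate_of_killed b ρ χ hlat hχ φ hφ) (fun ψ hψ => ?_) hd
    exact (kills_cmp b (Basis.ofVectorSpace ℚ_[ℓ] (AlgebraicClosure ℚ_[ℓ])) ψ x).2 fun i =>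
      h2 _ (tate_cmp ρ χ _ i ψ hψ)
  have h3 := h1 m _ (bcm_tate (Ω := AlgebraicClosure ℚ_[ℓ]) b ρ χ φ hφ)
  intro v
  have h4 := h3 (fun k => (1 : AlgebraicClosure ℚ_[ℓ]) ⊗ₜ[ℚ_[ℓ]] v k)
  have h5 : ∀ k, bcm (Ω := AlgebraicClosure ℚ_[ℓ]) b φ
      (Function.update (fun k => (1 : AlgebraicClosure ℚ_[ℓ]) ⊗ₜ[ℚ_[ℓ]] v k) k
        (x.baseChange (AlgebraicClosure ℚ_[ℓ]) ((1 : AlgebraicClosure ℚ_[ℓ]) ⊗ₜ[ℚ_[ℓ]] v k))) =
      algebraMap ℚ_[ℓ] (AlgebraicClosure ℚ_[ℓ]) (φ (Function.update v k (x (v k)))) := by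
    intro k
    rw [← bcm_one (Ω := AlgebraicClosure ℚ_[ℓ]) b]
    congr 1
    funext l
    by_cases hl : l = k
    · subst hl
      rw [Function.update_self, Function.update_self, LinearMap.baseChange_tmul]
    · rw [Function.update_of_ne hl, Function.update_of_ne hl]
  rw [Finset.sum_congr rfl fun k _ => h5 k, ← map_sum] at h4
  exact (map_eq_zero _).1 h4

include hlat hχ in
/-- The elements of the Lie algebra annihilate the determinants. -/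
theorem trace_of_lieT (ω : V →ₗ[ℚ_[ℓ]] V →ₗ[ℚ_[ℓ]] ℚ_[ℓ]) (halt : ∀ v, ω v v = 0)
    (hnondeg : ∀ u, (∀ v, ω v u = 0) → u = 0)
    (hω : ∀ s u v, ω (ρ s u) (ρ s v) = χ s * ω u v)
    (hsemisimple : PotentiallySemisimple ρ)
    {x : End (AlgebraicClosure ℚ_[ℓ]) (AlgebraicClosure ℚ_[ℓ] ⊗[ℚ_[ℓ]] V)}
    (hx : x ∈ lieT (bcr ρ (AlgebraicClosure ℚ_[ℓ])) (bcc χ (AlgebraicClosure ℚ_[ℓ])))
    {Q : Type} [Fintype Q]
    {L : Q → Submodule (AlgebraicClosure ℚ_[ℓ]) (AlgebraicClosure ℚ_[ℓ] ⊗[ℚ_[ℓ]] V)}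
    (hL : ∀ q, SI (bcr ρ (AlgebraicClosure ℚ_[ℓ])) (L q))
    (hrel : ∃ (c : ℕ) (Δ : Subgroup Γ) (h : ∀ q, ∀ g ∈ Δ, ∀ u ∈ L q,
      bcr ρ (AlgebraicClosure ℚ_[ℓ]) g u ∈ L q),
      Δ.FiniteIndex ∧ 2 * c = ∑ q, finrank (AlgebraicClosure ℚ_[ℓ]) (L q) ∧
      ∀ (g : Γ) (hg : g ∈ Δ), ∏ q, LinearMap.det
        ((bcr ρ (AlgebraicClosure ℚ_[ℓ]) g).restrict (h q g hg)) =
          bcc χ (AlgebraicClosure ℚ_[ℓ]) g ^ c)
    (h : ∀ q, ∀ u ∈ L q, x u ∈ L q) :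
    ∑ q, LinearMap.trace (AlgebraicClosure ℚ_[ℓ]) (L q) (x.restrict (h q)) = 0 := by
  classical
  exact trace_lieT (bcb (AlgebraicClosure ℚ_[ℓ]) ω)
    (fun u hu => bcb_nondeg_left ω hnondeg (left_nondeg ω halt hnondeg) u hu)
    (bcb_inv (Ω := AlgebraicClosure ℚ_[ℓ]) ρ χ ω hω) (hasProj_bcr ρ _ hsemisimple) hx hL hrel h

include hlat hχ in
/-- Forms over the `ℓ`-adic numbers killed by the Lie algebra are Tate forms. -/
theorem tate_of_killed_base {m : ℕ} (φ : MultilinearMap ℚ_[ℓ] (fun _ : Fin m × Fin 2 => V) ℚ_[ℓ])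
    (hφ : ∀ x ∈ lieT ρ χ, Kills x φ) : IsTate ρ χ m φ := by
  classical
  obtain ⟨Δ, hΔ, hnear⟩ := exists_near b ρ χ hlat hχ
  refine ⟨Δ, hΔ, fun g hg => ?_⟩
  obtain ⟨x, hx, hlog⟩ := exists_log_form b ρ χ g (hnear g hg).1 (fun i s => hlat g s i)
    (hnear g hg).2 (hχ _)
  exact hlog m φ (hφ x hx)

end padic

end

end Pool.Agent.H62CT.Fo
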