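import Mathlib
import Pool.Agent.H62CT.Tr
import Pool.Agent.H62CT.Fin2

/-!
# Tate forms of degree four: from classes to tensors, with Weil classes
-/

set_option autoImplicit false
set_option linter.unusedSectionVars false
set_option linter.deprecated false

namespace Pool.Agent.H62CT.Tr2

open Module TensorProduct Pool.Agent.H204R3.SP Pool.Agent.H204R3.GP Pool.Agent.W522.U
open Pool.Agent.TH118.WC Pool.Agent.H62CT Pool.Agent.H204R3.CM Pool.Agent.H62CT.Tr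

noncomputable section

section wedge

variable {K : Type} [Field K] {Y : Type} [AddCommGroup Y] [Module K Y]
  {N S P : Type} [Fintype N] [DecidableEq N] [Fintype S] [Fintype P]

/-- The product of bilinear forms. -/
def pairs (B : P → Y →ₗ[K] Y →ₗ[K] K) : MultilinearMap K (fun _ : P × Fin 2 => Y) K :=
  (prodMap (fun l : Fin (Fintype.card P) => bil2 (B ((Fintype.equivFin P).symm l)))).domDomCongr
    (Equiv.prodCongr (Fintype.equivFin P).symm (Equiv.refl (Fin 2)))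

theorem pairs_apply (B : P → Y →ₗ[K] Y →ₗ[K] K) (v : P × Fin 2 → Y) :
    pairs B v = ∏ p, B p (v (p, 0)) (v (p, 1)) := by
  rw [← Equiv.prod_comp (Fintype.equivFin P).symm (fun p => B p (v (p, 0)) (v (p, 1)))]
  rfl

/-- The exterior product as a multilinear map. -/
def wedgeM (e : (P × Fin 2) ⊕ S ≃ N) (B : P → Y →ₗ[K] Y →ₗ[K] K) (a : S → Y →ₗ[K] K) :
    MultilinearMap K (fun _ : N => Y) K :=
  ∑ σ : Equiv.Perm N, ((Equiv.Perm.sign σ : ℤ) : K) •
    (sumMul (pairs B) ((MultilinearMap.mkPiAlgebra K S K).compLinearMap a)).domDomCongr (e.trans σ)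

theorem wedgeM_apply (e : (P × Fin 2) ⊕ S ≃ N) (B : P → Y →ₗ[K] Y →ₗ[K] K) (a : S → Y →ₗ[K] K)
    (v : N → Y) : wedgeM e B a v = Pool.Agent.Y126.Notions.wedge e B a v := by
  unfold wedgeM
  rw [MultilinearMap.sum_apply]
  refine Finset.sum_congr rfl fun σ _ => ?_
  rw [MultilinearMap.smul_apply, smul_eq_mul]
  congr 1
  change pairs B (fun k => v (σ (e (Sum.inl k)))) * ∏ s, a s (v (σ (e (Sum.inr s)))) = _
  rw [pairs_apply]

end wedge

section classes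

variable {k : Type} [Field k] [CharZero k] {V : Type} [AddCommGroup V] [Module k V]
  {Γ : Type} [Group Γ] (ρ : Representation k Γ V) (χ : Γ →* k)

/-- Each Tate form of degree four comes from a Tate class on the fourth power. -/
theorem exists_class (e : Fin 2 × Fin 2 ≃ Fin 4)
    (φ : MultilinearMap k (fun _ : Fin 2 × Fin 2 => V) k) (hφ : IsTate ρ χ 2 φ) :
    ∃ f : (Fin 4 → V) [⋀^Fin 2 × Fin 2]→ₗ[k] k, Pool.Agent.Y126.Notions.IsTateClass ρ χ f ∧
      ∀ v : Fin 2 × Fin 2 → V, f (fun l => Pi.single (e l) (v l)) = φ v := by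
  classical
  let F : MultilinearMap k (fun _ : Fin 2 × Fin 2 => Fin 4 → V) k :=
    φ.compLinearMap (fun l => LinearMap.proj (e l))
  let f : (Fin 4 → V) [⋀^Fin 2 × Fin 2]→ₗ[k] k := MultilinearMap.alternatization F
  have hf : ∀ v, f v = ∑ σ : Equiv.Perm (Fin 2 × Fin 2), Equiv.Perm.sign σ •
      φ (fun l => v (σ l) (e l)) := by
    intro v
    change MultilinearMap.alternatization F v = _
    rw [MultilinearMap.alternatization_apply]
    rfl
  obtain ⟨Δ, hΔ, hφ⟩ := hφ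
  refine ⟨f, ⟨Δ, hΔ, fun s hs v => ?_⟩, fun v => ?_⟩
  · rw [hf, hf, Finset.mul_sum]
    refine Finset.sum_congr rfl fun σ _ => ?_
    rw [hφ s hs, mul_smul_comm]
  · rw [hf, Finset.sum_eq_single 1]
    · rw [Equiv.Perm.sign_one, one_smul]
      congr 1
      funext l
      rw [Equiv.Perm.one_apply, Pi.single_eq_same]
    · intro σ _ hσ
      obtain ⟨l, hl⟩ : ∃ l, σ l ≠ l := by
        by_contra hcon
        push Not at hcon
        exact hσ (Equiv.ext hcon)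
      rw [φ.map_coord_zero l, smul_zero]
      rw [Pi.single_eq_of_ne]
      exact fun h' => hl (e.injective h').symm
    · intro h'
      exact absurd (Finset.mem_univ _) h'

end classes

section ext

variable {ℓ : ℕ} [Fact ℓ.Prime] {V Γ ι : Type} [AddCommGroup V] [Module ℚ_[ℓ] V] [Group Γ]
  [Fintype ι] [DecidableEq ι] (b : Basis ι ℚ_[ℓ] V) (ρ : Representation ℚ_[ℓ] Γ V)
  (χ : Γ →* ℚ_[ℓ]) {Ω : Type} [Field Ω] [CharZero Ω] [Algebra ℚ_[ℓ] Ω]
  (ω : V →ₗ[ℚ_[ℓ]] V →ₗ[ℚ_[ℓ]] ℚ_[ℓ])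

/-- The classes of codimension two on the fourth power are combinations of products of Tate classes
of degree two and of Weil classes. -/
def CodimTwoWeil (Ω : Type) [Field Ω] [Algebra ℚ_[ℓ] Ω] : Prop :=
  ∀ f : (Fin 4 → V) [⋀^Fin 2 × Fin 2]→ₗ[ℚ_[ℓ]] ℚ_[ℓ], Pool.Agent.Y126.Notions.IsTateClass ρ χ f →
    (fun v => algebraMap ℚ_[ℓ] Ω (f v)) ∈ Submodule.span Ω
      ((fun (g : (Fin 2 × Fin 2 → Fin 4 → Ω ⊗[ℚ_[ℓ]] V) → Ω) (v : Fin 2 × Fin 2 → Fin 4 → V) =>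
        g (fun l i => (1 : Ω) ⊗ₜ[ℚ_[ℓ]] v l i)) ''
          Pool.Agent.Y126.Notions.weilProducts (Pool.Agent.Y126.Notions.extend Ω ρ)
            ((algebraMap ℚ_[ℓ] Ω : ℚ_[ℓ] →* Ω).comp χ) (LinearMap.BilinForm.baseChange Ω ω) 4 2)

include b in
/-- From classes to tensors. -/
theorem four_weil (h : CodimTwoWeil ρ χ ω Ω)
    (φ : MultilinearMap Ω (fun _ : Fin 2 × Fin 2 => Ω ⊗[ℚ_[ℓ]] V) Ω)
    (hφ : IsTate (bcr ρ Ω) (bcc χ Ω) 2 φ) :
    φ ∈ Submodule.span Ω (Fin2.WTs (bcr ρ Ω) (bcc χ Ω) (bcb Ω ω) finProdFinEquiv) := by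
  classical
  let w := Basis.ofVectorSpace ℚ_[ℓ] Ω
  obtain ⟨S, hS⟩ := eq_sum_cmp b w φ
  rw [hS]
  refine Submodule.sum_mem _ fun i _ => Submodule.smul_mem _ _ ?_
  obtain ⟨f, hf, hfφ⟩ := exists_class ρ χ finProdFinEquiv _ (tate_cmp ρ χ w i φ hφ)
  obtain ⟨n, c, G, hG⟩ := Submodule.mem_span_set'.1 (h f hf)
  choose g hg hgG using fun j => (G j).2
  have key : ∀ j, ∃ ψ ∈ Fin2.WTs (bcr ρ Ω) (bcc χ Ω) (bcb Ω ω) finProdFinEquiv,
      ∀ v : Fin 2 × Fin 2 → V, ψ (fun l => (1 : Ω) ⊗ₜ[ℚ_[ℓ]] v l) =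
        (G j : (Fin 2 × Fin 2 → Fin 4 → V) → Ω) (fun l => Pi.single (finProdFinEquiv l) (v l)) := by
    intro j
    obtain ⟨P, Q, hP, hQ, d, L, b', e, B, hB, hL, hgj⟩ := id (hg j)
    have h1 : ∀ v : Fin 2 × Fin 2 → Ω ⊗[ℚ_[ℓ]] V,
        (wedgeM e B (fun s => Pool.Agent.Y126.Notions.sumForm (bcb Ω ω) 4
          (b' s.1 s.2 : Fin 4 → Ω ⊗[ℚ_[ℓ]] V))).compLinearMap (fun l =>
            LinearMap.single Ω (fun _ : Fin 4 => Ω ⊗[ℚ_[ℓ]] V) (finProdFinEquiv l)) v =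
        g j (fun l => Pi.single (finProdFinEquiv l) (v l)) := by
      intro v
      rw [MultilinearMap.compLinearMap_apply, wedgeM_apply, hgj]
      rfl
    refine ⟨_, ⟨g j, hg j, h1⟩, fun v => ?_⟩
    rw [h1, ← hgG j]
    change g j _ = g j _
    congr 1
    funext l i
    change (Pi.single (finProdFinEquiv l) ((1 : Ω) ⊗ₜ[ℚ_[ℓ]] v l) : Fin 4 → Ω ⊗[ℚ_[ℓ]] V) i =
      (1 : Ω) ⊗ₜ[ℚ_[ℓ]] ((Pi.single (finProdFinEquiv l) (v l) : Fin 4 → V) i)
    by_cases hi : i = finProdFinEquiv l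
    · subst hi
      rw [Pi.single_eq_same, Pi.single_eq_same]
    · rw [Pi.single_eq_of_ne hi, Pi.single_eq_of_ne hi, tmul_zero]
  choose ψ hψ hψG using key
  have h2 : bcm (Ω := Ω) b (cmp w i φ) = ∑ j, c j • ψ j := by
    refine Basis.ext_multilinear (fun _ => b.baseChange Ω) fun I => ?_
    rw [bcm_basis, MultilinearMap.sum_apply]
    simp only [Basis.baseChange_apply]
    have h3 := congrFun hG (fun l => Pi.single (finProdFinEquiv l) (b (I l)))
    rw [Finset.sum_apply] at h3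
    rw [← hfφ, ← h3]
    refine Finset.sum_congr rfl fun j _ => ?_
    rw [MultilinearMap.smul_apply, hψG, Pi.smul_apply]
  rw [h2]
  exact Submodule.sum_mem _ fun j _ => Submodule.smul_mem _ _ (Submodule.subset_span (hψ j))

end ext

end

end Pool.Agent.H62CT.Tr2
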