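import Mathlib
import Pool.Agent.H62CT.Fin2
import Pool.Agent.H62CT.Tr2
import Pool.Agent.Y126.Glue

/-!
# Tate classes on all powers if those of codimension two on the fourth power are products of Tate
# classes of degree two and Weil classes
-/

set_option autoImplicit false
set_option linter.unusedSectionVars false

namespace Pool.Agent.H62CT.Two2

open Module TensorProduct Pool.Agent.Y126.Notions
open Pool.Agent.H204R3.SP Pool.Agent.H204R3.GP Pool.Agent.W522.U Pool.Agent.TH118.WC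
open Pool.Agent.TH118.CR

noncomputable section

variable {ℓ : ℕ} [Fact ℓ.Prime] {V Γ ι : Type} [AddCommGroup V] [Module ℚ_[ℓ] V]
    [FiniteDimensional ℚ_[ℓ] V] [Group Γ] [Fintype ι] (b : Basis ι ℚ_[ℓ] V)
    (ρ : Representation ℚ_[ℓ] Γ V) (χ : Γ →* ℚ_[ℓ])
    (hlat : ∀ g i j, ‖b.repr (ρ g (b j)) i‖ ≤ 1) (hχ : ∀ g, ‖χ g‖ ≤ 1)

include hlat hχ in
theorem core (ω : V →ₗ[ℚ_[ℓ]] V →ₗ[ℚ_[ℓ]] ℚ_[ℓ]) (halt : ∀ v, ω v v = 0)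
    (hnondeg : ∀ u, (∀ v, ω v u = 0) → u = 0)
    (hω : ∀ s u v, ω (ρ s u) (ρ s v) = χ s * ω u v)
    (hsemisimple : PotentiallySemisimple ρ)
    (hsymp : ∀ U, StronglyIrreducible (extend (AlgebraicClosure ℚ_[ℓ]) ρ) U →
      AreDual (extend (AlgebraicClosure ℚ_[ℓ]) ρ)
        ((algebraMap ℚ_[ℓ] (AlgebraicClosure ℚ_[ℓ]) : ℚ_[ℓ] →* _).comp χ) U U →
      IsSymplectic (extend (AlgebraicClosure ℚ_[ℓ]) ρ)
        ((algebraMap ℚ_[ℓ] (AlgebraicClosure ℚ_[ℓ]) : ℚ_[ℓ] →* _).comp χ) U)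
    (h4 : Tr2.CodimTwoWeil ρ χ ω (AlgebraicClosure ℚ_[ℓ])) (m : ℕ)
    (φ : MultilinearMap (AlgebraicClosure ℚ_[ℓ])
      (fun _ : Fin m × Fin 2 => AlgebraicClosure ℚ_[ℓ] ⊗[ℚ_[ℓ]] V) (AlgebraicClosure ℚ_[ℓ]))
    (hφ : IsTate (bcr ρ (AlgebraicClosure ℚ_[ℓ])) (bcc χ (AlgebraicClosure ℚ_[ℓ])) m φ) :
    φ ∈ Submodule.span (AlgebraicClosure ℚ_[ℓ]) (DetProd (bcr ρ (AlgebraicClosure ℚ_[ℓ]))
      (bcc χ (AlgebraicClosure ℚ_[ℓ])) m) := by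
  classical
  exact Fin2.four_det (bcb (AlgebraicClosure ℚ_[ℓ]) ω)
    (fun u hu => bcb_nondeg_left ω hnondeg (left_nondeg ω halt hnondeg) u hu)
    (bcb_inv (Ω := AlgebraicClosure ℚ_[ℓ]) ρ χ ω hω) (hasProj_bcr ρ _ hsemisimple)
    (fun U hU hd => hsymp U hU hd)
    (fun m φ hφ => tate_of_killed b ρ χ hlat hχ φ hφ)
    finProdFinEquiv (fun φ hφ => Tr2.four_weil b ρ χ ω h4 φ hφ) φ hφ

include hlat hχ in
theorem conclusion (ω : V →ₗ[ℚ_[ℓ]] V →ₗ[ℚ_[ℓ]] ℚ_[ℓ]) (halt : ∀ v, ω v v = 0)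
    (hnondeg : ∀ u, (∀ v, ω v u = 0) → u = 0)
    (hω : ∀ s u v, ω (ρ s u) (ρ s v) = χ s * ω u v)
    (hsemisimple : PotentiallySemisimple ρ)
    (hsymp : ∀ U, StronglyIrreducible (extend (AlgebraicClosure ℚ_[ℓ]) ρ) U →
      AreDual (extend (AlgebraicClosure ℚ_[ℓ]) ρ)
        ((algebraMap ℚ_[ℓ] (AlgebraicClosure ℚ_[ℓ]) : ℚ_[ℓ] →* _).comp χ) U U →
      IsSymplectic (extend (AlgebraicClosure ℚ_[ℓ]) ρ)
        ((algebraMap ℚ_[ℓ] (AlgebraicClosure ℚ_[ℓ]) : ℚ_[ℓ] →* _).comp χ) U)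
    (h4 : Tr2.CodimTwoWeil ρ χ ω (AlgebraicClosure ℚ_[ℓ])) :
    GeneratedByWeilClasses (AlgebraicClosure ℚ_[ℓ]) ρ χ ω ∧
    ((∀ (Q : Type) [Fintype Q] [Nonempty Q]
      (L : Q → Submodule (AlgebraicClosure ℚ_[ℓ]) (AlgebraicClosure ℚ_[ℓ] ⊗[ℚ_[ℓ]] V)),
      ¬Pool.Agent.Y126.Notions.IsWeilFamily (extend (AlgebraicClosure ℚ_[ℓ]) ρ)
        ((algebraMap ℚ_[ℓ] (AlgebraicClosure ℚ_[ℓ]) : ℚ_[ℓ] →* _).comp χ) L) →
      GeneratedInDegreeTwo ρ χ) := by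
  have hl1 : ∀ u, (∀ v, bcb (AlgebraicClosure ℚ_[ℓ]) ω u v = 0) → u = 0 := fun u hu =>
    bcb_nondeg_left ω hnondeg (left_nondeg ω halt hnondeg) u hu
  have hinv := bcb_inv (Ω := AlgebraicClosure ℚ_[ℓ]) ρ χ ω hω
  have core := core b ρ χ hlat hχ ω halt hnondeg hω hsemisimple hsymp h4
  refine ⟨fun n m f hf => ?_, fun hno => ?_⟩
  · refine Submodule.span_mono (Set.image_mono ?_)
      (classes_of_tensors (AlgebraicClosure ℚ_[ℓ]) ρ χ (bcb _ ω) hl1 hinv (core m) f hf)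
    rintro g ⟨P, Q, hP, hQ, d, L, b, e, B, hB, hB0, ⟨hL1, hL2, hL3⟩, rfl⟩
    exact ⟨P, Q, hP, hQ, d, L, b, e, B, fun p => ⟨hB p, hB0 p⟩, ⟨hL1, hL2, hL3⟩, rfl⟩
  · have h := generated_of_ext ρ χ (AlgebraicClosure ℚ_[ℓ]) fun m φ hφ => ?_
    · intro n m f hf
      refine Submodule.span_mono ?_ (h n m f hf)
      rintro g ⟨B, hB, hg⟩
      refine ⟨B, fun l => ?_, hg⟩
      obtain ⟨Δ, hΔ, h1⟩ := hB l
      refine ⟨Δ, hΔ, fun s hs v => ?_⟩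
      have h2 := h1 s hs v
      rwa [pow_one] at h2
    · exact Pool.Agent.Y126.Toric.pt_of_noWeil hno (core m φ hφ)

end

end Pool.Agent.H62CT.Two2
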